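import Mathlib

set_option autoImplicit false

/-!
Unconditional bases indexed by arbitrary index types: definitions and elementary facts.
-/

namespace Pool.Agent.H658_UB

open Filter Topology

/-- `x` is an unconditional basis of `E` (with scalar field `𝕜`): every vector has a unique
expansion `∑ a j • x j`, where the sum is the unconditional sum `HasSum`. -/
def IsUB (𝕜 : Type*) [RCLike 𝕜] {J : Type} {E : Type*} [NormedAddCommGroup E] [NormedSpace 𝕜 E]
    (x : J → E) : Prop :=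
  ∀ v : E, ∃! a : J → 𝕜, HasSum (fun j => a j • x j) v

/-- `x` is semi-normalized: its norms are bounded above, and below by a positive number. -/
def SemiNormalized {J : Type} {E : Type*} [NormedAddCommGroup E] (x : J → E) : Prop :=
  ∃ c C : ℝ, 0 < c ∧ ∀ j, c ≤ ‖x j‖ ∧ ‖x j‖ ≤ C

/-- permutative equivalence of two families. -/
def PermEquiv (𝕜 : Type*) [RCLike 𝕜] {J I : Type} {E E' : Type*} [NormedAddCommGroup E]
    [NormedSpace 𝕜 E] [NormedAddCommGroup E'] [NormedSpace 𝕜 E'] (x : J → E) (y : I → E') : Prop :=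
  ∃ π : J ≃ I, ∀ a : J → 𝕜, Summable (fun j => a j • x j) ↔ Summable (fun j => a j • y (π j))

/-- `E` has a unique unconditional basis up to permutation. -/
def HasUTAP (𝕜 : Type*) [RCLike 𝕜] (E : Type*) [NormedAddCommGroup E] [NormedSpace 𝕜 E] : Prop :=
  (∃ (J : Type) (_ : Countable J) (x : J → E), IsUB 𝕜 x ∧ SemiNormalized x) ∧
  ∀ (J I : Type) (_ : Countable J) (_ : Countable I) (x : J → E) (y : I → E),
    IsUB 𝕜 x → SemiNormalized x → IsUB 𝕜 y → SemiNormalized y → PermEquiv 𝕜 x y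

section

variable {𝕜 : Type*} [RCLike 𝕜]
variable {E E' E'' : Type*} [NormedAddCommGroup E] [NormedSpace 𝕜 E]
  [NormedAddCommGroup E'] [NormedSpace 𝕜 E'] [NormedAddCommGroup E''] [NormedSpace 𝕜 E'']
variable {J I K : Type}

theorem PermEquiv.symm {x : J → E} {y : I → E'} (h : PermEquiv 𝕜 x y) : PermEquiv 𝕜 y x := by
  obtain ⟨π, hπ⟩ := h
  refine ⟨π.symm, fun a => ?_⟩
  have h1 := hπ (fun j => a (π j))
  have h2 : Summable (fun j => a (π j) • y (π j)) ↔ Summable (fun i => a i • y i) :=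
    π.summable_iff (f := fun i => a i • y i)
  have h3 : Summable (fun j => a (π j) • x j) ↔ Summable (fun i => a i • x (π.symm i)) := by
    have := π.symm.summable_iff (f := fun j => a (π j) • x j)
    rw [← this]
    simp [Function.comp_def]
  rw [← h2, ← h3, h1]

theorem PermEquiv.trans {x : J → E} {y : I → E'} {z : K → E''} (h : PermEquiv 𝕜 x y)
    (h' : PermEquiv 𝕜 y z) : PermEquiv 𝕜 x z := by
  obtain ⟨π, hπ⟩ := h
  obtain ⟨ρ, hρ⟩ := h'
  refine ⟨π.trans ρ, fun a => ?_⟩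
  rw [hπ a]
  have h1 := hρ (fun i => a (π.symm i))
  have h2 : Summable (fun j => a j • y (π j)) ↔ Summable (fun i => a (π.symm i) • y i) := by
    rw [← π.summable_iff (f := fun i => a (π.symm i) • y i)]
    simp [Function.comp_def]
  have h3 : Summable (fun j => a j • z (ρ (π j))) ↔
      Summable (fun i => a (π.symm i) • z (ρ i)) := by
    rw [← π.summable_iff (f := fun i => a (π.symm i) • z (ρ i))]
    simp [Function.comp_def]
  rw [h2, h1, ← h3]
  rfl

theorem PermEquiv.refl (x : J → E) : PermEquiv 𝕜 x x := ⟨Equiv.refl J, fun _ => Iff.rfl⟩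

/-- transport along an isomorphism -/
theorem permEquiv_map (T : E ≃L[𝕜] E') (x : J → E) : PermEquiv 𝕜 (fun j => T (x j)) x := by
  refine ⟨Equiv.refl J, fun a => ?_⟩
  simp only [Equiv.refl_apply]
  constructor
  · intro h
    have := h.mapL (T.symm : E' →L[𝕜] E)
    simpa using this
  · intro h
    have := h.mapL (T : E →L[𝕜] E')
    simpa using this

theorem IsUB.map {x : J → E} (h : IsUB 𝕜 x) (T : E ≃L[𝕜] E') : IsUB 𝕜 (fun j => T (x j)) := by
  intro v
  obtain ⟨a, ha, hu⟩ := h (T.symm v)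
  refine ⟨a, ?_, fun b hb => hu b ?_⟩
  · have := ha.mapL (T : E →L[𝕜] E')
    simpa using this
  · have hb' : HasSum (fun j => b j • T (x j)) v := hb
    have := hb'.mapL (T.symm : E' →L[𝕜] E)
    simpa using this

theorem SemiNormalized.map {x : J → E} (h : SemiNormalized x) (T : E ≃L[𝕜] E') :
    SemiNormalized (fun j => T (x j)) := by
  obtain ⟨c, C, hc, h⟩ := h
  by_cases hJ : Nonempty J
  · obtain ⟨j0⟩ := hJ
    have hC : 0 ≤ C := (norm_nonneg _).trans (h j0).2
    refine ⟨c / (‖(T.symm : E' →L[𝕜] E)‖ + 1), ‖(T : E →L[𝕜] E')‖ * C, by positivity,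
      fun j => ⟨?_, ?_⟩⟩
    · rw [div_le_iff₀ (by positivity)]
      have h1 : ‖(T.symm : E' →L[𝕜] E) (T (x j))‖ ≤ ‖(T.symm : E' →L[𝕜] E)‖ * ‖T (x j)‖ :=
        ContinuousLinearMap.le_opNorm _ _
      have h2 : (T.symm : E' →L[𝕜] E) (T (x j)) = x j := by simp
      rw [h2] at h1
      nlinarith [(h j).1, norm_nonneg (T (x j))]
    · have h1 : ‖(T : E →L[𝕜] E') (x j)‖ ≤ ‖(T : E →L[𝕜] E')‖ * ‖x j‖ :=
        ContinuousLinearMap.le_opNorm _ _
      exact h1.trans (mul_le_mul_of_nonneg_left (h j).2 (norm_nonneg _))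
  · refine ⟨1, 1, one_pos, fun j => (hJ ⟨j⟩).elim⟩

theorem HasUTAP.map (h : HasUTAP 𝕜 E) (T : E ≃L[𝕜] E') : HasUTAP 𝕜 E' := by
  obtain ⟨⟨J, hJ, x, hx, hs⟩, h2⟩ := h
  refine ⟨⟨J, hJ, _, hx.map T, hs.map T⟩, ?_⟩
  intro J I hJ hI x y hx hxs hy hys
  have h3 := h2 J I hJ hI _ _ (hx.map T.symm) (hxs.map T.symm) (hy.map T.symm) (hys.map T.symm)
  exact (permEquiv_map T.symm x).symm.trans (h3.trans (permEquiv_map T.symm y))

theorem IsUB.reindex {x : J → E} (h : IsUB 𝕜 x) (σ : I ≃ J) : IsUB 𝕜 (fun i => x (σ i)) := by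
  intro v
  obtain ⟨a, ha, hu⟩ := h v
  refine ⟨fun i => a (σ i), ?_, fun b hb => ?_⟩
  · exact (σ.hasSum_iff (f := fun j => a j • x j)).mpr ha
  · have := hu (fun j => b (σ.symm j)) (by
      show HasSum (fun j => b (σ.symm j) • x j) v
      rw [← σ.hasSum_iff (f := fun j => b (σ.symm j) • x j)]
      simpa [Function.comp_def] using hb)
    funext i
    rw [← this]; simp

end

end Pool.Agent.H658_UB
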