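import Mathlib
import Pool.Agent.H658_UB.Basic

set_option autoImplicit false

/-!
Continuity of the coordinate functionals of an unconditional basis (any index type, real or
complex scalars). Adapted from `Pool.Agent.H130R5.UB`, which treats real scalars and the index
type `ℕ`.
-/

open Filter Topology
open scoped BoundedContinuousFunction

namespace Pool.Agent.H658_UB.Coord

/-- finite sets of indices with the discrete topology -/
def FN (J : Type) : Type := Finset J

section

variable {J : Type} [DecidableEq J]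
variable {𝕜 : Type*} [RCLike 𝕜]
variable {E : Type*} [NormedAddCommGroup E] [NormedSpace 𝕜 E]

instance : TopologicalSpace (FN J) := ⊥
instance : DiscreteTopology (FN J) := ⟨rfl⟩
noncomputable instance : SemilatticeSup (FN J) := inferInstanceAs (SemilatticeSup (Finset J))
instance : Nonempty (FN J) := ⟨(∅ : Finset J)⟩

/-- singletons -/
def sing (k : J) : FN J := ({k} : Finset J)

variable (𝕜)

/-- the space of nets of finite partial sums -/
def ZU (e : J → E) : Submodule 𝕜 (FN J →ᵇ E) where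
  carrier := {s | (∀ A : Finset J, s A = ∑ k ∈ A, s (sing k)) ∧
    (∀ k, s (sing k) ∈ Submodule.span 𝕜 ({e k} : Set E)) ∧
    CauchySeq (fun A : FN J => s A)}
  zero_mem' := by
    refine ⟨fun A => ?_, fun k => ?_, ?_⟩
    · show (0 : E) = ∑ k ∈ A, (0 : E)
      simp
    · simp
    · simpa using (tendsto_const_nhds (x := (0 : E)) (f := (atTop : Filter (FN J)))).cauchySeq
  add_mem' := by
    rintro a b ⟨ha1, ha2, ha3⟩ ⟨hb1, hb2, hb3⟩
    refine ⟨fun A => ?_, fun k => ?_, ?_⟩
    · show a (show FN J from A) + b (show FN J from A) = ∑ k ∈ A, (a (sing k) + b (sing k))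
      rw [Finset.sum_add_distrib]
      exact congrArg₂ _ (ha1 A) (hb1 A)
    · exact add_mem (ha2 k) (hb2 k)
    · exact ha3.add hb3
  smul_mem' := by
    rintro c a ⟨ha1, ha2, ha3⟩
    refine ⟨fun A => ?_, fun k => ?_, ?_⟩
    · show c • a (show FN J from A) = ∑ k ∈ A, c • a (sing k)
      rw [← Finset.smul_sum]
      exact congrArg _ (ha1 A)
    · exact Submodule.smul_mem _ c (ha2 k)
    · exact (uniformContinuous_const_smul c).comp_cauchySeq ha3

theorem ZU_closed (e : J → E) :
    IsClosed ((ZU 𝕜 e : Submodule 𝕜 (FN J →ᵇ E)) : Set (FN J →ᵇ E)) := by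
  have heval : ∀ n : FN J, Continuous (fun s : FN J →ᵇ E => s n) := fun n =>
    (BoundedContinuousFunction.evalCLM 𝕜 n : (FN J →ᵇ E) →L[𝕜] E).continuous
  have h1 : IsClosed {s : FN J →ᵇ E | ∀ A : Finset J, s A = ∑ k ∈ A, s (sing k)} := by
    have : {s : FN J →ᵇ E | ∀ A : Finset J, s A = ∑ k ∈ A, s (sing k)} =
        ⋂ A : Finset J, {s : FN J →ᵇ E | s A = ∑ k ∈ A, s (sing k)} := by
      ext s; simp
    rw [this]
    apply isClosed_iInter
    intro A
    exact isClosed_eq (heval A) (continuous_finsetSum _ fun k _ => heval (sing k))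
  have h2 : IsClosed {s : FN J →ᵇ E | ∀ k, s (sing k) ∈ Submodule.span 𝕜 ({e k} : Set E)} := by
    have : {s : FN J →ᵇ E | ∀ k, s (sing k) ∈ Submodule.span 𝕜 ({e k} : Set E)} =
        ⋂ k, (fun s : FN J →ᵇ E => s (sing k)) ⁻¹'
          ((Submodule.span 𝕜 ({e k} : Set E) : Submodule 𝕜 E) : Set E) := by
      ext s; simp
    rw [this]
    apply isClosed_iInter
    intro k
    apply IsClosed.preimage (heval (sing k))
    exact Submodule.closed_of_finiteDimensional _
  have h3 : IsClosed {s : FN J →ᵇ E | CauchySeq (fun n : FN J => s n)} := by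
    rw [← isSeqClosed_iff_isClosed]
    intro u s hu hus
    have hu' : ∀ k, CauchySeq (fun n : FN J => u k n) := hu
    show CauchySeq (fun n : FN J => s n)
    rw [Metric.cauchySeq_iff]
    intro ε hε
    rw [Metric.tendsto_atTop] at hus
    obtain ⟨k, hk⟩ := hus (ε / 3) (by linarith)
    have hk' := hk k le_rfl
    obtain ⟨N, hN⟩ := (Metric.cauchySeq_iff.mp (hu' k)) (ε / 3) (by linarith)
    refine ⟨N, fun m hm n hn => ?_⟩
    have a1 : dist (u k m) (s m) ≤ dist (u k) s := BoundedContinuousFunction.dist_coe_le_dist m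
    have a2 : dist (u k n) (s n) ≤ dist (u k) s := BoundedContinuousFunction.dist_coe_le_dist n
    have a3 := hN m hm n hn
    have a4 := dist_triangle4 (s m) (u k m) (u k n) (s n)
    rw [dist_comm (s m) (u k m)] at a4
    linarith
  have : ((ZU 𝕜 e : Submodule 𝕜 (FN J →ᵇ E)) : Set (FN J →ᵇ E)) =
      {s : FN J →ᵇ E | ∀ A : Finset J, s A = ∑ k ∈ A, s (sing k)} ∩
      ({s : FN J →ᵇ E | ∀ k, s (sing k) ∈ Submodule.span 𝕜 ({e k} : Set E)} ∩
        {s : FN J →ᵇ E | CauchySeq (fun n : FN J => s n)}) := rfl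
  rw [this]
  exact h1.inter (h2.inter h3)

omit [DecidableEq J] in
theorem bounded_of_hasSum {E : Type*} [NormedAddCommGroup E] [CompleteSpace E] (f : J → E) (x : E)
    (h : HasSum f x) : ∃ C, ∀ A : Finset J, ‖∑ k ∈ A, f k‖ ≤ C := by
  classical
  obtain ⟨s, hs⟩ := summable_iff_vanishing_norm.mp h.summable 1 one_pos
  refine ⟨∑ k ∈ s, ‖f k‖ + 1, fun A => ?_⟩
  have h1 : ∑ k ∈ A, f k = ∑ k ∈ A ∩ s, f k + ∑ k ∈ A \ s, f k := by
    rw [Finset.sum_inter_add_sum_sdiff]
  rw [h1]
  refine (norm_add_le _ _).trans (add_le_add ?_ ?_)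
  · refine (norm_sum_le _ _).trans ?_
    exact Finset.sum_le_sum_of_subset_of_nonneg Finset.inter_subset_right
      fun _ _ _ => norm_nonneg _
  · exact (hs _ Finset.sdiff_disjoint).le

omit [DecidableEq J] in
/-- continuity of the coordinate functionals and boundedness of the coordinate projections of an
unconditional basis, given by unique unconditional expansions -/
theorem exists_coord [CompleteSpace E] (e : J → E)
    (he : ∀ x : E, ∃! a : J → 𝕜, HasSum (fun n => a n • e n) x) :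
    ∃ (es : J → E →L[𝕜] 𝕜) (C : ℝ), (∀ x, HasSum (fun k => es k x • e k) x) ∧
      ∀ x (A : Finset J), ‖∑ k ∈ A, es k x • e k‖ ≤ C * ‖x‖ := by
  classical
  have hcomp : CompleteSpace (ZU 𝕜 e) := (ZU_closed 𝕜 e).completeSpace_coe
  have hlim : ∀ s : ZU 𝕜 e, ∃ L : E, Tendsto (fun n : FN J => s.1 n) atTop (𝓝 L) := fun s =>
    cauchySeq_tendsto_of_complete s.2.2.2
  choose L hL using hlim
  let Tl : ZU 𝕜 e →ₗ[𝕜] E :=
    { toFun := L
      map_add' := by
        intro a b
        apply tendsto_nhds_unique (hL (a + b))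
        have := (hL a).add (hL b)
        exact this
      map_smul' := by
        intro c a
        apply tendsto_nhds_unique (hL (c • a))
        have := (hL a).const_smul c
        exact this }
  let T : ZU 𝕜 e →L[𝕜] E := Tl.mkContinuous 1 (by
    intro s
    rw [one_mul]
    have h1 : Tendsto (fun n : FN J => ‖s.1 n‖) atTop (𝓝 ‖L s‖) := (hL s).norm
    exact le_of_tendsto' h1 (fun n => BoundedContinuousFunction.norm_coe_le_norm s.1 n))
  have hT : ∀ s, T s = L s := fun s => rfl
  -- expansion of an element of ZU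
  have hexp : ∀ s : ZU 𝕜 e, ∃ c : J → 𝕜, (∀ k, s.1 (sing k) = c k • e k) ∧
      HasSum (fun k => c k • e k) (L s) := by
    intro s
    have : ∀ k, ∃ c : 𝕜, c • e k = s.1 (sing k) := fun k =>
      Submodule.mem_span_singleton.mp (s.2.2.1 k)
    choose c hc using this
    refine ⟨c, fun k => (hc k).symm, ?_⟩
    have h1 : (fun A : FN J => s.1 A) = fun A : Finset J => ∑ k ∈ A, c k • e k := by
      funext A
      rw [show s.1 A = ∑ k ∈ (A : Finset J), s.1 (sing k) from s.2.1 A]
      exact Finset.sum_congr rfl fun k _ => (hc k).symm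
    have h2 := hL s
    rw [h1] at h2
    exact h2
  have hinj : T.ker = ⊥ := by
    rw [LinearMap.ker_eq_bot']
    intro s hs
    obtain ⟨c, hc, hc2⟩ := hexp s
    have h1 : L s = 0 := hs
    rw [h1] at hc2
    have h2 : HasSum (fun k => (0 : J → 𝕜) k • e k) 0 := by
      simpa using (hasSum_zero : HasSum (fun _ : J => (0 : E)) 0)
    have h3 : c = 0 := (he 0).unique hc2 h2
    apply Subtype.ext
    ext A
    rw [show s.1 A = ∑ k ∈ (A : Finset J), s.1 (sing k) from s.2.1 A]
    simp only [hc, h3, Pi.zero_apply, zero_smul]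
    exact Finset.sum_const_zero
  have hsurj : T.range = ⊤ := by
    rw [LinearMap.range_eq_top]
    intro x
    obtain ⟨a, ha, -⟩ := he x
    obtain ⟨C, hC⟩ := bounded_of_hasSum _ _ ha
    refine ⟨⟨BoundedContinuousFunction.ofNormedAddCommGroupDiscrete
      (fun A : FN J => ∑ i ∈ (A : Finset J), a i • e i) C hC, ?_, ?_, ?_⟩, ?_⟩
    · intro A
      show (∑ i ∈ A, a i • e i) = ∑ k ∈ A, (∑ i ∈ ({k} : Finset J), a i • e i)
      simp
    · intro k
      show (∑ i ∈ ({k} : Finset J), a i • e i) ∈ Submodule.span 𝕜 ({e k} : Set E)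
      rw [Finset.sum_singleton]
      exact Submodule.smul_mem _ _ (Submodule.mem_span_singleton_self _)
    · have h := ha.cauchySeq
      exact h
    · exact tendsto_nhds_unique (hL _) ha
  let φ : ZU 𝕜 e ≃L[𝕜] E := ContinuousLinearEquiv.ofBijective T hinj hsurj
  have hφ : ∀ s, φ s = L s := fun s => rfl
  let ψ : E →L[𝕜] ZU 𝕜 e := (φ.symm : E →L[𝕜] ZU 𝕜 e)
  have hψ : ∀ x, L (ψ x) = x := fun x => φ.apply_symm_apply x
  -- e k ≠ 0
  have hne : ∀ k, e k ≠ 0 := by
    intro n hn
    obtain ⟨a, ha, hu⟩ := he 0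
    have h1 : HasSum (fun i => (fun i => a i + (if i = n then 1 else 0)) i • e i) (0 : E) := by
      refine ha.congr_fun ?_
      intro i
      by_cases h : i = n
      · subst h; simp [hn]
      · simp [h]
    have h3 := congrFun (hu _ h1) n
    simp at h3
  choose g hg1 hg2 using fun k => exists_dual_vector 𝕜 (e k) (norm_ne_zero_iff.mpr (hne k))
  let es : J → E →L[𝕜] 𝕜 := fun k => ((‖e k‖⁻¹ : ℝ) : 𝕜) •
    (g k).comp (((BoundedContinuousFunction.evalCLM 𝕜 (sing k)).comp (ZU 𝕜 e).subtypeL).comp ψ)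
  have hes : ∀ x (c : J → 𝕜), (∀ k, (ψ x).1 (sing k) = c k • e k) → ∀ k, es k x = c k := by
    intro x c hc k
    show ((‖e k‖⁻¹ : ℝ) : 𝕜) * g k ((ψ x).1 (sing k)) = c k
    rw [hc, map_smul, hg2, smul_eq_mul]
    have : ((‖e k‖ : ℝ) : 𝕜) ≠ 0 := by
      rw [RCLike.ofReal_ne_zero]; exact norm_ne_zero_iff.mpr (hne k)
    rw [RCLike.ofReal_inv]
    field_simp
  refine ⟨es, ‖ψ‖, fun x => ?_, fun x A => ?_⟩
  · obtain ⟨c, hc, hc2⟩ := hexp (ψ x)
    rw [hψ] at hc2
    have h1 : (fun k => es k x • e k) = fun k => c k • e k := by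
      funext k; rw [hes x c hc]
    rw [h1]; exact hc2
  · obtain ⟨c, hc, -⟩ := hexp (ψ x)
    have h1 : ∑ k ∈ A, es k x • e k = (ψ x).1 (A : FN J) := by
      rw [show (ψ x).1 (A : FN J) = ∑ k ∈ A, (ψ x).1 (sing k) from (ψ x).2.1 A]
      apply Finset.sum_congr rfl
      intro k _
      rw [hes x c hc, hc]
    rw [h1]
    calc ‖(ψ x).1 (A : FN J)‖ ≤ ‖(ψ x).1‖ := BoundedContinuousFunction.norm_coe_le_norm _ _
      _ = ‖ψ x‖ := rfl
      _ ≤ ‖ψ‖ * ‖x‖ := ψ.le_opNorm x

end

end Pool.Agent.H658_UB.Coord
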