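import Mathlib
import Pool.Agent.H658_UB.Basic
import Pool.Agent.H658_UB.Coord

set_option autoImplicit false

/-!
Multipliers and projections of an unconditional basis.
-/

namespace Pool.Agent.H658_UB

open Filter Topology

section

variable {𝕜 : Type*} [RCLike 𝕜]
variable {E E' : Type*} [NormedAddCommGroup E] [NormedSpace 𝕜 E]
  [NormedAddCommGroup E'] [NormedSpace 𝕜 E']
variable {J : Type}

theorem norm_le_re_add_im' (z : 𝕜) : ‖z‖ ≤ |RCLike.re z| + |RCLike.im z| := by
  have h : ‖z‖ ^ 2 = RCLike.re z ^ 2 + RCLike.im z ^ 2 := by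
    rw [← RCLike.normSq_eq_def', RCLike.normSq_apply]; ring
  have h1 := sq_abs (RCLike.re z)
  have h2 := sq_abs (RCLike.im z)
  nlinarith [abs_nonneg (RCLike.re z), abs_nonneg (RCLike.im z), norm_nonneg z,
    mul_nonneg (abs_nonneg (RCLike.re z)) (abs_nonneg (RCLike.im z))]

/-- sums of absolute values of scalars are controlled by the partial sums -/
theorem sum_norm_le_of_partial (A : Finset J) (z : J → 𝕜) (M : ℝ)
    (hM : ∀ B ⊆ A, ‖∑ k ∈ B, z k‖ ≤ M) : ∑ k ∈ A, ‖z k‖ ≤ 4 * M := by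
  classical
  have key : ∀ f : 𝕜 →+ ℝ, (∀ w, |f w| ≤ ‖w‖) → ∑ k ∈ A, |f (z k)| ≤ 2 * M := by
    intro f hf
    have h1 : ∑ k ∈ A, |f (z k)| = ∑ k ∈ A.filter (fun k => 0 ≤ f (z k)), f (z k) -
        ∑ k ∈ A.filter (fun k => ¬ 0 ≤ f (z k)), f (z k) := by
      rw [← Finset.sum_filter_add_sum_filter_not A (fun k => 0 ≤ f (z k)) (fun k => |f (z k)|),
        sub_eq_add_neg, ← Finset.sum_neg_distrib]
      congr 1
      · apply Finset.sum_congr rfl
        intro k hk
        rw [Finset.mem_filter] at hk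
        exact abs_of_nonneg hk.2
      · apply Finset.sum_congr rfl
        intro k hk
        rw [Finset.mem_filter] at hk
        exact abs_of_neg (not_le.mp hk.2)
    have h2 := hM _ (Finset.filter_subset (fun k => 0 ≤ f (z k)) A)
    have h3 := hM _ (Finset.filter_subset (fun k => ¬ 0 ≤ f (z k)) A)
    have h4 := hf (∑ k ∈ A.filter (fun k => 0 ≤ f (z k)), z k)
    have h5 := hf (∑ k ∈ A.filter (fun k => ¬ 0 ≤ f (z k)), z k)
    rw [map_sum] at h4 h5
    rw [h1]
    have h6 := le_abs_self (∑ k ∈ A.filter (fun k => 0 ≤ f (z k)), f (z k))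
    have h7 := neg_abs_le (∑ k ∈ A.filter (fun k => ¬ 0 ≤ f (z k)), f (z k))
    linarith
  have hre := key ((RCLike.reLm : 𝕜 →ₗ[ℝ] ℝ) : 𝕜 →+ ℝ) (fun w => RCLike.abs_re_le_norm w)
  have him := key ((RCLike.imLm : 𝕜 →ₗ[ℝ] ℝ) : 𝕜 →+ ℝ) (fun w => RCLike.abs_im_le_norm w)
  have h8 : ∀ k ∈ A, ‖z k‖ ≤ |((RCLike.reLm : 𝕜 →ₗ[ℝ] ℝ) : 𝕜 →+ ℝ) (z k)| +
      |((RCLike.imLm : 𝕜 →ₗ[ℝ] ℝ) : 𝕜 →+ ℝ) (z k)| := by
    intro k _
    exact norm_le_re_add_im' (z k)
  have h9 := Finset.sum_le_sum h8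
  rw [Finset.sum_add_distrib] at h9
  linarith

/-- bounded multipliers of finite sums -/
theorem norm_sum_smul_le (A : Finset J) (v : J → E) (M : ℝ)
    (hM : ∀ B ⊆ A, ‖∑ k ∈ B, v k‖ ≤ M) (l : J → 𝕜) (hl : ∀ k ∈ A, ‖l k‖ ≤ 1) :
    ‖∑ k ∈ A, l k • v k‖ ≤ 4 * M := by
  have hM0 : 0 ≤ M := by
    have := hM ∅ (Finset.empty_subset _)
    simpa using this
  obtain ⟨f, hf1, hf2⟩ := exists_dual_vector'' 𝕜 (∑ k ∈ A, l k • v k)
  have h1 : ‖f (∑ k ∈ A, l k • v k)‖ = ‖∑ k ∈ A, l k • v k‖ := by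
    rw [hf2]; simp
  rw [← h1, map_sum]
  calc ‖∑ k ∈ A, f (l k • v k)‖ ≤ ∑ k ∈ A, ‖f (l k • v k)‖ := norm_sum_le _ _
    _ ≤ ∑ k ∈ A, ‖f (v k)‖ := by
        apply Finset.sum_le_sum
        intro k hk
        rw [map_smul, norm_smul]
        calc ‖l k‖ * ‖f (v k)‖ ≤ 1 * ‖f (v k)‖ :=
              mul_le_mul_of_nonneg_right (hl k hk) (norm_nonneg _)
          _ = _ := one_mul _
    _ ≤ 4 * M := by
        apply sum_norm_le_of_partial
        intro B hB
        rw [← map_sum]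
        calc ‖f (∑ k ∈ B, v k)‖ ≤ ‖f‖ * ‖∑ k ∈ B, v k‖ := f.le_opNorm _
          _ ≤ 1 * M := mul_le_mul hf1 (hM B hB) (norm_nonneg _) zero_le_one
          _ = M := one_mul _

/-- a series of operators with uniformly bounded finite partial sums which is summable on a set
with dense span is strongly summable to a bounded operator -/
theorem exists_sumOp [CompleteSpace E'] {ι : Type*} (t : ι → E →L[𝕜] E') (C : ℝ) (hC0 : 0 ≤ C)
    (hC : ∀ (s : Finset ι) (x : E), ‖∑ i ∈ s, t i x‖ ≤ C * ‖x‖) (D : Set E)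
    (hD : Dense ((Submodule.span 𝕜 D : Submodule 𝕜 E) : Set E))
    (hs : ∀ x ∈ D, Summable (fun i => t i x)) :
    ∃ T : E →L[𝕜] E', (∀ x, HasSum (fun i => t i x) (T x)) ∧ ‖T‖ ≤ C := by
  classical
  have h1 : ∀ x ∈ Submodule.span 𝕜 D, Summable (fun i => t i x) := by
    intro x hx
    induction hx using Submodule.span_induction with
    | mem x h => exact hs x h
    | zero => simpa using summable_zero
    | add x y _ _ hx hy =>
      have := hx.add hy
      simpa using this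
    | smul a x _ hx =>
      have := hx.const_smul a
      simpa using this
  have h2 : ∀ x, Summable (fun i => t i x) := by
    intro x
    rw [summable_iff_vanishing_norm]
    intro ε hε
    have hx : x ∈ closure ((Submodule.span 𝕜 D : Submodule 𝕜 E) : Set E) := hD x
    rw [Metric.mem_closure_iff] at hx
    obtain ⟨y, hy, hxy⟩ := hx (ε / (2 * (C + 1))) (by positivity)
    obtain ⟨s, hs'⟩ := summable_iff_vanishing_norm.mp (h1 y hy) (ε / 2) (by positivity)
    refine ⟨s, fun r hr => ?_⟩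
    have h3 : ∑ i ∈ r, t i x = ∑ i ∈ r, t i (x - y) + ∑ i ∈ r, t i y := by
      rw [← Finset.sum_add_distrib]
      apply Finset.sum_congr rfl
      intro i _
      rw [← map_add, sub_add_cancel]
    rw [h3]
    have h4 := hC r (x - y)
    have h5 := hs' r hr
    have h6 : C * ‖x - y‖ ≤ ε / 2 := by
      rw [dist_eq_norm] at hxy
      have h7 : C * ‖x - y‖ ≤ (C + 1) * (ε / (2 * (C + 1))) :=
        mul_le_mul (by linarith) hxy.le (norm_nonneg _) (by positivity)
      have h8 : (C + 1) * (ε / (2 * (C + 1))) = ε / 2 := by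
        field_simp
      linarith
    calc ‖∑ i ∈ r, t i (x - y) + ∑ i ∈ r, t i y‖
        ≤ ‖∑ i ∈ r, t i (x - y)‖ + ‖∑ i ∈ r, t i y‖ := norm_add_le _ _
      _ < ε := by linarith
  let Tl : E →ₗ[𝕜] E' :=
    { toFun := fun x => ∑' i, t i x
      map_add' := by
        intro x y
        rw [← (h2 x).tsum_add (h2 y)]
        simp
      map_smul' := by
        intro c x
        simp only [map_smul, RingHom.id_apply]
        exact (h2 x).tsum_const_smul c }
  have hb : ∀ x, ‖Tl x‖ ≤ C * ‖x‖ := by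
    intro x
    have h3 : Tendsto (fun s : Finset ι => ‖∑ i ∈ s, t i x‖) atTop (𝓝 ‖∑' i, t i x‖) :=
      (h2 x).hasSum.norm
    exact le_of_tendsto' h3 (fun s => hC s x)
  refine ⟨Tl.mkContinuous C hb, fun x => (h2 x).hasSum, ?_⟩
  exact LinearMap.mkContinuous_norm_le _ hC0 _

/-- the data attached to an unconditional basis -/
structure UBD (𝕜 : Type*) [RCLike 𝕜] {J : Type} {E : Type*} [NormedAddCommGroup E]
    [NormedSpace 𝕜 E] (w : J → E) where
  cf : J → E →L[𝕜] 𝕜
  K : ℝ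
  one_le : 1 ≤ K
  hsum : ∀ v, HasSum (fun j => cf j v • w j) v
  self : ∀ j, cf j (w j) = 1
  ne : ∀ j k, j ≠ k → cf j (w k) = 0
  bd : ∀ (s : Finset J) (l : J → 𝕜), (∀ j, ‖l j‖ ≤ 1) → ∀ v,
    ‖∑ j ∈ s, (l j * cf j v) • w j‖ ≤ K * ‖v‖

theorem IsUB.exists_ubd [CompleteSpace E] {w : J → E} (h : IsUB 𝕜 w) : Nonempty (UBD 𝕜 w) := by
  classical
  obtain ⟨es, C, h1, h2⟩ := Coord.exists_coord 𝕜 w h
  have hbi : ∀ j k, es j (w k) = if j = k then 1 else 0 := by
    intro j k
    have h3 : HasSum (fun i => (if i = k then (1 : 𝕜) else 0) • w i) (w k) := by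
      have := hasSum_ite_eq k (w k)
      refine this.congr_fun ?_
      intro i
      by_cases hi : i = k
      · subst hi; simp
      · simp [hi]
    have h4 := (h (w k)).unique (h1 (w k)) h3
    exact congrFun h4 j
  refine ⟨⟨es, max 1 (4 * C), le_max_left _ _, h1, fun j => by simp [hbi],
    fun j k hjk => by simp [hbi, hjk], ?_⟩⟩
  intro s l hl v
  have h3 : ‖∑ k ∈ s, l k • (es k v • w k)‖ ≤ 4 * (C * ‖v‖) :=
    norm_sum_smul_le s (fun k => es k v • w k) (C * ‖v‖) (fun B _ => h2 v B) l (fun k _ => hl k)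
  have h4 : ∑ j ∈ s, (l j * es j v) • w j = ∑ k ∈ s, l k • (es k v • w k) := by
    apply Finset.sum_congr rfl
    intro k _
    rw [smul_smul]
  rw [h4]
  calc _ ≤ 4 * (C * ‖v‖) := h3
    _ = (4 * C) * ‖v‖ := by ring
    _ ≤ _ := mul_le_mul_of_nonneg_right (le_max_right _ _) (norm_nonneg _)

namespace UBD

variable {w : J → E} (b : UBD 𝕜 w)

include b in
theorem dense_span : Dense ((Submodule.span 𝕜 (Set.range w) : Submodule 𝕜 E) : Set E) := by
  intro v
  have h := b.hsum v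
  refine mem_closure_of_tendsto h (Eventually.of_forall fun s => ?_)
  exact Submodule.sum_mem _ fun j _ => Submodule.smul_mem _ _ (Submodule.subset_span ⟨j, rfl⟩)

theorem ext {v v' : E} (h : ∀ j, b.cf j v = b.cf j v') : v = v' := by
  have h1 := b.hsum v
  have h2 := b.hsum v'
  simp only [h] at h1
  exact h1.unique h2

theorem K_nonneg : 0 ≤ b.K := zero_le_one.trans b.one_le

theorem cf_eq (j : J) (v : E) (a : J → 𝕜) (h : HasSum (fun i => a i • w i) v) :
    b.cf j v = a j := by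
  classical
  have h1 := h.mapL (b.cf j)
  have h2 : HasSum (fun i => b.cf j (a i • w i)) (a j) := by
    have := hasSum_ite_eq j (a j)
    refine this.congr_fun ?_
    intro i
    by_cases hi : i = j
    · subst hi; simp [b.self]
    · simp [hi, b.ne j i (Ne.symm hi)]
  exact h1.unique h2

include b in
theorem isUB : IsUB 𝕜 w := by
  intro v
  refine ⟨fun j => b.cf j v, b.hsum v, fun a ha => ?_⟩
  funext j
  exact (b.cf_eq j v a ha).symm

theorem exists_M [CompleteSpace E] (l : J → 𝕜) (hl : ∀ j, ‖l j‖ ≤ 1) :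
    ∃ T : E →L[𝕜] E, (∀ v, HasSum (fun j => (l j * b.cf j v) • w j) (T v)) ∧ ‖T‖ ≤ b.K := by
  classical
  obtain ⟨T, hT, hT2⟩ := exists_sumOp (E := E) (E' := E)
    (fun j => (l j • b.cf j).smulRight (w j)) b.K b.K_nonneg
    (fun s x => by simpa using b.bd s l hl x) (Set.range w) b.dense_span (by
      rintro _ ⟨k, rfl⟩
      apply summable_of_ne_finset_zero (s := {k})
      intro j hj
      rw [Finset.mem_singleton] at hj
      simp [b.ne j k hj])
  exact ⟨T, fun v => by simpa using hT v, hT2⟩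

open Classical in
/-- the multiplier operator -/
noncomputable def M [CompleteSpace E] (l : J → 𝕜) : E →L[𝕜] E :=
  if h : ∀ j, ‖l j‖ ≤ 1 then Classical.choose (b.exists_M l h) else 0

variable [CompleteSpace E]

theorem M_hasSum (l : J → 𝕜) (hl : ∀ j, ‖l j‖ ≤ 1) (v : E) :
    HasSum (fun j => (l j * b.cf j v) • w j) (b.M l v) := by
  unfold M
  rw [dif_pos hl]
  exact (Classical.choose_spec (b.exists_M l hl)).1 v

theorem norm_M_le (l : J → 𝕜) (hl : ∀ j, ‖l j‖ ≤ 1) : ‖b.M l‖ ≤ b.K := by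
  unfold M
  rw [dif_pos hl]
  exact (Classical.choose_spec (b.exists_M l hl)).2

theorem cf_M (l : J → 𝕜) (hl : ∀ j, ‖l j‖ ≤ 1) (j : J) (v : E) :
    b.cf j (b.M l v) = l j * b.cf j v := b.cf_eq j _ _ (b.M_hasSum l hl v)

open Classical in
/-- the basis projection onto a set of indices -/
noncomputable def P (S : Set J) : E →L[𝕜] E := b.M (fun j => if j ∈ S then 1 else 0)

open Classical in
theorem cf_P (S : Set J) (j : J) (v : E) :
    b.cf j (b.P S v) = if j ∈ S then b.cf j v else 0 := by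
  unfold P
  rw [b.cf_M _ (fun j => by split_ifs <;> simp)]
  split_ifs <;> simp

theorem cf_P_of_mem {S : Set J} {j : J} (h : j ∈ S) (v : E) : b.cf j (b.P S v) = b.cf j v := by
  rw [cf_P, if_pos h]

theorem cf_P_of_notMem {S : Set J} {j : J} (h : j ∉ S) (v : E) : b.cf j (b.P S v) = 0 := by
  rw [cf_P, if_neg h]

theorem norm_P_le (S : Set J) : ‖b.P S‖ ≤ b.K := by
  classical
  unfold P
  exact b.norm_M_le _ (fun j => by split_ifs <;> simp)

theorem norm_P_apply_le (S : Set J) (v : E) : ‖b.P S v‖ ≤ b.K * ‖v‖ :=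
  ((b.P S).le_opNorm v).trans (mul_le_mul_of_nonneg_right (b.norm_P_le S) (norm_nonneg _))

theorem norm_M_apply_le (l : J → 𝕜) (hl : ∀ j, ‖l j‖ ≤ 1) (v : E) : ‖b.M l v‖ ≤ b.K * ‖v‖ :=
  ((b.M l).le_opNorm v).trans (mul_le_mul_of_nonneg_right (b.norm_M_le l hl) (norm_nonneg _))

theorem P_P (S T : Set J) (v : E) : b.P S (b.P T v) = b.P (S ∩ T) v := by
  classical
  apply b.ext
  intro j
  simp only [cf_P, Set.mem_inter_iff]
  by_cases h1 : j ∈ S <;> by_cases h2 : j ∈ T <;> simp [h1, h2]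

theorem P_idem (S : Set J) (v : E) : b.P S (b.P S v) = b.P S v := by
  rw [P_P, Set.inter_self]

theorem P_univ (v : E) : b.P Set.univ v = v := by
  apply b.ext; intro j; simp [cf_P]

theorem P_empty (v : E) : b.P ∅ v = 0 := by
  apply b.ext; intro j; simp [cf_P]

theorem P_union (S T : Set J) (h : Disjoint S T) (v : E) :
    b.P (S ∪ T) v = b.P S v + b.P T v := by
  classical
  apply b.ext
  intro j
  rw [map_add]
  simp only [cf_P, Set.mem_union]
  by_cases h1 : j ∈ S
  · have h2 : j ∉ T := fun h2 => (Set.disjoint_left.mp h) h1 h2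
    simp [h1, h2]
  · by_cases h2 : j ∈ T <;> simp [h1, h2]

theorem P_compl (S : Set J) (v : E) : b.P S v + b.P Sᶜ v = v := by
  rw [← b.P_union S Sᶜ disjoint_compl_right, Set.union_compl_self, P_univ]

theorem P_finset (s : Finset J) (v : E) : b.P (s : Set J) v = ∑ j ∈ s, b.cf j v • w j := by
  classical
  apply b.ext
  intro j
  rw [cf_P, map_sum]
  by_cases hj : j ∈ s
  · rw [if_pos (Finset.mem_coe.mpr hj), Finset.sum_eq_single j]
    · simp [b.self]
    · intro i _ hi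
      simp [b.ne j i (Ne.symm hi)]
    · intro h; exact absurd hj h
  · rw [if_neg (fun h => hj (Finset.mem_coe.mp h))]
    symm
    apply Finset.sum_eq_zero
    intro i hi
    have : j ≠ i := fun h => hj (h ▸ hi)
    simp [b.ne j i this]

theorem P_basis_of_mem {S : Set J} {j : J} (h : j ∈ S) : b.P S (w j) = w j := by
  classical
  apply b.ext
  intro i
  rw [cf_P]
  by_cases hi : i ∈ S
  · rw [if_pos hi]
  · rw [if_neg hi]
    exact (b.ne i j (fun h' => hi (h' ▸ h))).symm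

theorem P_basis_of_notMem {S : Set J} {j : J} (h : j ∉ S) : b.P S (w j) = 0 := by
  classical
  apply b.ext
  intro i
  rw [cf_P, map_zero]
  by_cases hi : i ∈ S
  · rw [if_pos hi]
    exact b.ne i j (fun h' => h (h' ▸ hi))
  · rw [if_neg hi]

/-- the tails of a vector are small -/
theorem exists_tail (v : E) (ε : ℝ) (hε : 0 < ε) :
    ∃ s : Finset J, ∀ S : Set J, Disjoint S (s : Set J) → ‖b.P S v‖ < ε := by
  have h := b.hsum v
  have hK : 0 < b.K := zero_lt_one.trans_le b.one_le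
  have h1 : ∀ᶠ s in (atTop : Filter (Finset J)), dist (∑ j ∈ s, b.cf j v • w j) v < ε / b.K :=
    (Metric.tendsto_nhds.mp h) (ε / b.K) (by positivity)
  obtain ⟨s, hs⟩ := h1.exists
  refine ⟨s, fun S hS => ?_⟩
  have h2 : b.P S v = b.P S (v - ∑ j ∈ s, b.cf j v • w j) := by
    rw [map_sub, ← b.P_finset, P_P, Set.disjoint_iff_inter_eq_empty.mp hS, P_empty, sub_zero]
  rw [h2]
  calc _ ≤ b.K * ‖v - ∑ j ∈ s, b.cf j v • w j‖ := b.norm_P_apply_le _ _
    _ < b.K * (ε / b.K) := by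
        apply mul_lt_mul_of_pos_left _ hK
        rw [dist_eq_norm, norm_sub_rev] at hs
        exact hs
    _ = ε := by field_simp

theorem M_basis (l : J → 𝕜) (hl : ∀ j, ‖l j‖ ≤ 1) (j : J) : b.M l (w j) = l j • w j := by
  classical
  apply b.ext
  intro i
  rw [b.cf_M l hl, map_smul, smul_eq_mul]
  by_cases h : i = j
  · subst h; rfl
  · rw [b.ne i j h]; simp

omit [CompleteSpace E] in
theorem cf_bound (j : J) : ‖b.cf j‖ * ‖w j‖ ≤ b.K := by
  have h1 : ∀ v, ‖b.cf j v‖ * ‖w j‖ ≤ b.K * ‖v‖ := by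
    intro v
    have := b.bd {j} (fun _ => 1) (fun _ => by simp) v
    simpa [norm_smul] using this
  by_cases hw : w j = 0
  · rw [hw, norm_zero, mul_zero]; exact b.K_nonneg
  · have hw' : 0 < ‖w j‖ := norm_pos_iff.mpr hw
    rw [← le_div_iff₀ hw']
    apply ContinuousLinearMap.opNorm_le_bound _ (div_nonneg b.K_nonneg (norm_nonneg _))
    intro v
    rw [div_mul_eq_mul_div, le_div_iff₀ hw']
    exact h1 v

end UBD

end

end Pool.Agent.H658_UB
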