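import Mathlib
import Pool.Agent.H658_UB.Theory

set_option autoImplicit false
set_option maxHeartbeats 400000

/-!
Sub-bases, sums of bases, splitting of permutative equivalences.
-/

namespace Pool.Agent.H658_UB

open Filter Topology

section

variable {𝕜 : Type*} [RCLike 𝕜]
variable {E E' E'' : Type*} [NormedAddCommGroup E] [NormedSpace 𝕜 E]
  [NormedAddCommGroup E'] [NormedSpace 𝕜 E'] [NormedAddCommGroup E''] [NormedSpace 𝕜 E'']
variable {J I K : Type}

theorem summable_sumType_iff {F : Type*} [NormedAddCommGroup F] [CompleteSpace F]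
    (f : I ⊕ K → F) : Summable f ↔ Summable (fun i => f (Sum.inl i)) ∧
      Summable (fun k => f (Sum.inr k)) := by
  constructor
  · intro h
    exact ⟨h.comp_injective Sum.inl_injective, h.comp_injective Sum.inr_injective⟩
  · rintro ⟨h1, h2⟩
    exact h1.sum f h2

/-- the sum of two families in the product space -/
def sumFam (y : I → E') (z : K → E'') : I ⊕ K → E' × E'' :=
  Sum.elim (fun i => (y i, 0)) (fun k => (0, z k))

theorem summable_sumFam_iff [CompleteSpace E'] [CompleteSpace E''] (y : I → E') (z : K → E'')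
    (a : I ⊕ K → 𝕜) : Summable (fun s => a s • sumFam y z s) ↔
      Summable (fun i => a (Sum.inl i) • y i) ∧ Summable (fun k => a (Sum.inr k) • z k) := by
  rw [summable_sumType_iff]
  have h1 : Summable (fun i => a (Sum.inl i) • sumFam y z (Sum.inl i)) ↔
      Summable (fun i => a (Sum.inl i) • y i) := by
    constructor
    · intro h
      have := h.mapL (ContinuousLinearMap.fst 𝕜 E' E'')
      simpa [sumFam] using this
    · intro h
      have := h.mapL (ContinuousLinearMap.inl 𝕜 E' E'')
      simpa [sumFam] using this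
  have h2 : Summable (fun k => a (Sum.inr k) • sumFam y z (Sum.inr k)) ↔
      Summable (fun k => a (Sum.inr k) • z k) := by
    constructor
    · intro h
      have := h.mapL (ContinuousLinearMap.snd 𝕜 E' E'')
      simpa [sumFam] using this
    · intro h
      have := h.mapL (ContinuousLinearMap.inr 𝕜 E' E'')
      simpa [sumFam] using this
  rw [h1, h2]

open Classical in
theorem permEquiv_of_split [CompleteSpace E] [CompleteSpace E'] [CompleteSpace E'']
    {w : J → E} (S : Set J) {y : I → E'} {z : K → E''}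
    (h1 : PermEquiv 𝕜 (fun j : S => w j) y) (h2 : PermEquiv 𝕜 (fun j : (Sᶜ : Set J) => w j) z) :
    PermEquiv 𝕜 w (sumFam y z) := by
  obtain ⟨π₁, hπ₁⟩ := h1
  obtain ⟨π₂, hπ₂⟩ := h2
  refine ⟨(Equiv.Set.sumCompl S).symm.trans (Equiv.sumCongr π₁ π₂), fun a => ?_⟩
  have e1 : Summable (fun j => a j • w j) ↔
      Summable (fun s => a (Equiv.Set.sumCompl S s) • w (Equiv.Set.sumCompl S s)) :=
    ((Equiv.Set.sumCompl S).summable_iff (f := fun j => a j • w j)).symm
  have e2 : Summable (fun j => a j •
      sumFam y z (((Equiv.Set.sumCompl S).symm.trans (Equiv.sumCongr π₁ π₂)) j)) ↔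
      Summable (fun s => a (Equiv.Set.sumCompl S s) • sumFam y z (Equiv.sumCongr π₁ π₂ s)) := by
    rw [← (Equiv.Set.sumCompl S).summable_iff (f := fun j => a j •
      sumFam y z (((Equiv.Set.sumCompl S).symm.trans (Equiv.sumCongr π₁ π₂)) j))]
    simp [Function.comp_def]
  rw [e1, e2, summable_sumType_iff]
  have e3 : Summable (fun s => a (Equiv.Set.sumCompl S s) • sumFam y z (Equiv.sumCongr π₁ π₂ s)) ↔
      Summable (fun j : S => a j • y (π₁ j)) ∧
      Summable (fun j : (Sᶜ : Set J) => a j • z (π₂ j)) := by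
    rw [summable_sumType_iff]
    have h1 : Summable (fun j : S => a (Equiv.Set.sumCompl S (Sum.inl j)) •
        sumFam y z (Equiv.sumCongr π₁ π₂ (Sum.inl j))) ↔ Summable (fun j : S => a j • y (π₁ j)) := by
      constructor
      · intro h
        have := h.mapL (ContinuousLinearMap.fst 𝕜 E' E'')
        simpa [sumFam] using this
      · intro h
        have := h.mapL (ContinuousLinearMap.inl 𝕜 E' E'')
        simpa [sumFam] using this
    have h2 : Summable (fun j : (Sᶜ : Set J) => a (Equiv.Set.sumCompl S (Sum.inr j)) •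
        sumFam y z (Equiv.sumCongr π₁ π₂ (Sum.inr j))) ↔
        Summable (fun j : (Sᶜ : Set J) => a j • z (π₂ j)) := by
      constructor
      · intro h
        have := h.mapL (ContinuousLinearMap.snd 𝕜 E' E'')
        simpa [sumFam] using this
      · intro h
        have := h.mapL (ContinuousLinearMap.inr 𝕜 E' E'')
        simpa [sumFam] using this
    rw [h1, h2]
  rw [e3]
  have h1 := hπ₁ (fun j => a j)
  have h2 := hπ₂ (fun j => a j)
  simp only [Equiv.Set.sumCompl_apply_inl, Equiv.Set.sumCompl_apply_inr]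
  rw [h1, h2]

/-- the union of bases of the two factors is a basis of the product -/
theorem IsUB.sumFam {y : I → E'} {z : K → E''} (hy : IsUB 𝕜 y) (hz : IsUB 𝕜 z) :
    IsUB 𝕜 (sumFam y z) := by
  rintro ⟨v₁, v₂⟩
  obtain ⟨a₁, h1, hu1⟩ := hy v₁
  obtain ⟨a₂, h2, hu2⟩ := hz v₂
  refine ⟨Sum.elim a₁ a₂, ?_, fun c hc => ?_⟩
  · show HasSum (fun s => Sum.elim a₁ a₂ s • H658_UB.sumFam y z s) (v₁, v₂)
    have h3 : HasSum (fun i => a₁ i • y i) v₁ := h1
    have h4 : HasSum (fun i => a₂ i • z i) v₂ := h2
    have h5 := h3.mapL (ContinuousLinearMap.inl 𝕜 E' E'')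
    have h6 := h4.mapL (ContinuousLinearMap.inr 𝕜 E' E'')
    have h7 := HasSum.sum (f := fun s => Sum.elim a₁ a₂ s • H658_UB.sumFam y z s)
      (a := (ContinuousLinearMap.inl 𝕜 E' E'') v₁) (b := (ContinuousLinearMap.inr 𝕜 E' E'') v₂)
      (by simpa [H658_UB.sumFam, Function.comp_def] using h5)
      (by simpa [H658_UB.sumFam, Function.comp_def] using h6)
    simpa using h7
  · have hc' : HasSum (fun s => c s • H658_UB.sumFam y z s) (v₁, v₂) := hc
    have h3 := hc'.mapL (ContinuousLinearMap.fst 𝕜 E' E'')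
    have h4 := hc'.mapL (ContinuousLinearMap.snd 𝕜 E' E'')
    have h5 : HasSum (fun i => c (Sum.inl i) • y i) v₁ := by
      rw [← Function.Injective.hasSum_iff (Sum.inl_injective (α := I) (β := K))] at h3
      · simpa [H658_UB.sumFam, Function.comp_def] using h3
      · intro s hs
        rcases s with s | s
        · exact absurd ⟨s, rfl⟩ hs
        · simp [H658_UB.sumFam]
    have h6 : HasSum (fun i => c (Sum.inr i) • z i) v₂ := by
      rw [← Function.Injective.hasSum_iff (Sum.inr_injective (α := I) (β := K))] at h4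
      · simpa [H658_UB.sumFam, Function.comp_def] using h4
      · intro s hs
        rcases s with s | s
        · simp [H658_UB.sumFam]
        · exact absurd ⟨s, rfl⟩ hs
    have h7 := hu1 _ h5
    have h8 := hu2 _ h6
    funext s
    rcases s with s | s
    · exact congrFun h7 s
    · exact congrFun h8 s

theorem SemiNormalized.sumFam {y : I → E'} {z : K → E''} (hy : SemiNormalized y)
    (hz : SemiNormalized z) : SemiNormalized (sumFam y z) := by
  obtain ⟨c, C, hc, h⟩ := hy
  obtain ⟨c', C', hc', h'⟩ := hz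
  refine ⟨min c c', max C C', lt_min hc hc', fun s => ?_⟩
  rcases s with s | s
  · have h1 : ‖H658_UB.sumFam y z (Sum.inl s)‖ = ‖y s‖ := by simp [H658_UB.sumFam]
    rw [h1]
    exact ⟨(min_le_left _ _).trans (h s).1, (h s).2.trans (le_max_left _ _)⟩
  · have h1 : ‖H658_UB.sumFam y z (Sum.inr s)‖ = ‖z s‖ := by simp [H658_UB.sumFam]
    rw [h1]
    exact ⟨(min_le_right _ _).trans (h' s).1, (h' s).2.trans (le_max_right _ _)⟩

theorem SemiNormalized.sub {w : J → E} (h : SemiNormalized w) (S : Set J) :
    SemiNormalized (fun j : S => w j) := by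
  obtain ⟨c, C, hc, h⟩ := h
  exact ⟨c, C, hc, fun j => h j⟩

variable [CompleteSpace E] {w : J → E} (b : UBD 𝕜 w)

/-- the closed span of the basis vectors with index in `S`, as a kernel -/
noncomputable def Zs (S : Set J) : Submodule 𝕜 E := (b.P Sᶜ).ker

theorem mem_Zs (S : Set J) (v : E) : v ∈ Zs b S ↔ b.P Sᶜ v = 0 := Iff.rfl

theorem Zs_complete (S : Set J) : CompleteSpace (Zs b S) :=
  (ContinuousLinearMap.isClosed_ker (b.P Sᶜ)).completeSpace_coe

theorem cf_of_mem_Zs {S : Set J} {v : E} (hv : v ∈ Zs b S) {j : J} (hj : j ∉ S) :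
    b.cf j v = 0 := by
  have h1 := b.cf_P_of_mem (S := Sᶜ) hj v
  rw [(mem_Zs b S v).mp hv, map_zero] at h1
  exact h1.symm

theorem basis_mem_Zs {S : Set J} {j : J} (hj : j ∈ S) : w j ∈ Zs b S := by
  rw [mem_Zs]
  exact b.P_basis_of_notMem (fun h => h hj)

/-- the sub-basis -/
noncomputable def subFam (S : Set J) : S → Zs b S := fun j => ⟨w j, basis_mem_Zs b j.2⟩

theorem isUB_subFam (S : Set J) : IsUB 𝕜 (subFam b S) := by
  have hind : Topology.IsInducing ((Zs b S).subtypeL : Zs b S →L[𝕜] E) := ⟨rfl⟩
  intro v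
  have key : ∀ a : S → 𝕜, HasSum (fun j => a j • subFam b S j) v ↔
      HasSum (fun j : S => a j • w j) (v : E) := by
    intro a
    have := hind.hasSum_iff (L := SummationFilter.unconditional S)
      (fun j => a j • subFam b S j) v
    rw [← this]
    rfl
  refine ⟨fun j => b.cf j (v : E), ?_, fun a ha => ?_⟩
  · show HasSum (fun j : S => b.cf j (v : E) • subFam b S j) v
    rw [key]
    have h1 := b.hsum (v : E)
    have h2 : Function.support (fun j => b.cf j (v : E) • w j) ⊆ S := by
      intro j hj
      by_contra hjS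
      apply hj
      show b.cf j (v : E) • w j = 0
      rw [cf_of_mem_Zs b v.2 hjS, zero_smul]
    exact (hasSum_subtype_iff_of_support_subset h2).mpr h1
  · have h1 : HasSum (fun j : S => a j • w j) (v : E) := (key a).mp ha
    funext j
    have h2 := h1.mapL (b.cf j)
    have h3 : HasSum (fun i : S => b.cf j (a i • w i)) (a j) := by
      classical
      have := hasSum_ite_eq j (a j)
      refine this.congr_fun ?_
      intro i
      by_cases hi : i = j
      · subst hi; simp [b.self]
      · have : (j : J) ≠ i := fun h => hi (Subtype.ext h.symm)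
        simp [hi, b.ne j i this]
    exact h3.unique h2

theorem semiNormalized_subFam (S : Set J) (h : SemiNormalized w) :
    SemiNormalized (subFam b S) := by
  obtain ⟨c, C, hc, h⟩ := h
  exact ⟨c, C, hc, fun j => h j⟩

theorem permEquiv_subFam (S : Set J) : PermEquiv 𝕜 (subFam b S) (fun j : S => w j) := by
  have hcs := Zs_complete b S
  refine ⟨Equiv.refl _, fun a => ?_⟩
  simp only [Equiv.refl_apply]
  constructor
  · intro h
    exact h.mapL (Zs b S).subtypeL
  · intro h
    rw [summable_iff_vanishing_norm] at h ⊢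
    intro ε hε
    obtain ⟨s, hs⟩ := h ε hε
    refine ⟨s, fun t ht => ?_⟩
    have h1 := hs t ht
    have h2 : ((∑ j ∈ t, a j • subFam b S j : Zs b S) : E) = ∑ j ∈ t, a j • w j := by
      rw [Submodule.coe_sum]
      rfl
    have h3 : ‖∑ j ∈ t, a j • subFam b S j‖ =
        ‖((∑ j ∈ t, a j • subFam b S j : Zs b S) : E)‖ := rfl
    rw [h3, h2]; exact h1

end

end Pool.Agent.H658_UB
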