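import Mathlib
import Pool.Agent.H658_UB.Split

set_option autoImplicit false
set_option maxHeartbeats 400000

/-!
Compact operators and unconditional bases.
-/

namespace Pool.Agent.H658_UB

open Filter Topology

section

variable {𝕜 : Type*} [RCLike 𝕜]
variable {E E' : Type*} [NormedAddCommGroup E] [NormedSpace 𝕜 E] [CompleteSpace E]
  [NormedAddCommGroup E'] [NormedSpace 𝕜 E']
variable {J : Type} {w : J → E} (b : UBD 𝕜 w)

theorem isCompactOperator_rank_one {E₁ E₂ : Type*} [NormedAddCommGroup E₁] [NormedSpace 𝕜 E₁]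
    [NormedAddCommGroup E₂] [NormedSpace 𝕜 E₂] (f : E₁ →L[𝕜] 𝕜) (v : E₂) :
    IsCompactOperator (f.smulRight v : E₁ →L[𝕜] E₂) := by
  have h1 : IsCompactOperator (id : 𝕜 → 𝕜) := isCompactOperator_id
  have h2 : IsCompactOperator (f : E₁ → 𝕜) := by
    have := h1.comp_clm f
    simpa using this
  have h3 := h2.clm_comp ((ContinuousLinearMap.id 𝕜 𝕜).smulRight v)
  exact h3

theorem isCompactOperator_sum {ι E₁ E₂ : Type*} [NormedAddCommGroup E₁] [NormedSpace 𝕜 E₁]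
    [NormedAddCommGroup E₂] [NormedSpace 𝕜 E₂] (s : Finset ι) (t : ι → E₁ →L[𝕜] E₂)
    (h : ∀ j ∈ s, IsCompactOperator (t j)) : IsCompactOperator (∑ j ∈ s, t j : E₁ →L[𝕜] E₂) :=
  Submodule.sum_mem (compactOperator (RingHom.id 𝕜) E₁ E₂) h

theorem isCompactOperator_P_finset (s : Finset J) : IsCompactOperator (b.P (s : Set J)) := by
  have h1 : b.P (s : Set J) = ∑ j ∈ s, (b.cf j).smulRight (w j) := by
    ext v
    rw [b.P_finset, sum_apply]
    rfl
  rw [h1]
  exact isCompactOperator_sum s _ fun j _ => isCompactOperator_rank_one _ _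

/-- if the compressions to cofinite sets tend to zero then the operator is compact -/
theorem isCompactOperator_of_tails (R : E →L[𝕜] E)
    (h : ∀ δ > 0, ∃ G : Finset J,
      ‖(b.P ((G : Set J)ᶜ)).comp (R.comp (b.P ((G : Set J)ᶜ)))‖ < δ) :
    IsCompactOperator R := by
  have hcl : IsClosed {f : E →L[𝕜] E | IsCompactOperator f} := isClosed_setOfPred_isCompactOperator
  have hmem : R ∈ closure {f : E →L[𝕜] E | IsCompactOperator f} := by
    rw [Metric.mem_closure_iff]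
    intro ε hε
    obtain ⟨G, hG⟩ := h ε hε
    refine ⟨R - (b.P ((G : Set J)ᶜ)).comp (R.comp (b.P ((G : Set J)ᶜ))), ?_, ?_⟩
    · show IsCompactOperator (R - (b.P ((G : Set J)ᶜ)).comp (R.comp (b.P ((G : Set J)ᶜ))) :
        E →L[𝕜] E)
      have h1 : R - (b.P ((G : Set J)ᶜ)).comp (R.comp (b.P ((G : Set J)ᶜ))) =
          (b.P (G : Set J)).comp R +
          (b.P ((G : Set J)ᶜ)).comp (R.comp (b.P (G : Set J))) := by
        ext v
        show R v - b.P ((G : Set J)ᶜ) (R (b.P ((G : Set J)ᶜ) v)) =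
          b.P (G : Set J) (R v) + b.P ((G : Set J)ᶜ) (R (b.P (G : Set J) v))
        have h2 := b.P_compl (G : Set J) (R v)
        have h3 : b.P ((G : Set J)ᶜ) (R (b.P (G : Set J) v)) +
            b.P ((G : Set J)ᶜ) (R (b.P ((G : Set J)ᶜ) v)) = b.P ((G : Set J)ᶜ) (R v) := by
          rw [← map_add, ← map_add, b.P_compl]
        rw [sub_eq_iff_eq_add, add_assoc, h3, h2]
      rw [h1]
      have hP := isCompactOperator_P_finset b G
      have h2 : IsCompactOperator ((b.P (G : Set J)).comp R) := hP.comp_clm R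
      have h3 : IsCompactOperator (R.comp (b.P (G : Set J))) := hP.clm_comp R
      have h4 : IsCompactOperator ((b.P ((G : Set J)ᶜ)).comp (R.comp (b.P (G : Set J)))) :=
        h3.clm_comp _
      exact h2.add h4
    · rw [dist_eq_norm, sub_sub_cancel]
      exact hG
  rw [hcl.closure_eq] at hmem
  exact hmem

/-- the tails of a compact operator are uniformly small -/
theorem exists_tail_of_compact (R : E' →L[𝕜] E) (hR : IsCompactOperator R) (δ : ℝ) (hδ : 0 < δ) :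
    ∃ G : Finset J, ∀ S : Set J, Disjoint S (G : Set J) → ∀ v, ‖b.P S (R v)‖ ≤ δ * ‖v‖ := by
  classical
  have hK : 0 < b.K := zero_lt_one.trans_le b.one_le
  have h1 := (IsCompactOperator.isCompact_closure_image_closedBall (f := (R : E' →ₗ[𝕜] E)) hR
    1).totallyBounded
  rw [Metric.totallyBounded_iff] at h1
  obtain ⟨t, ht, hcov⟩ := h1 (δ / (2 * b.K)) (by positivity)
  choose s hs using fun y : E => b.exists_tail y (δ / 2) (by positivity)
  refine ⟨ht.toFinset.biUnion s, fun S hS => ?_⟩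
  have key : ∀ v, ‖v‖ ≤ 1 → ‖b.P S (R v)‖ ≤ δ := by
    intro v hv
    have h2 : R v ∈ closure ((R : E' →ₗ[𝕜] E) '' Metric.closedBall 0 1) :=
      subset_closure ⟨v, by simpa using hv, rfl⟩
    have h3 := hcov h2
    rw [Set.mem_iUnion₂] at h3
    obtain ⟨y, hy, hyv⟩ := h3
    rw [Metric.mem_ball, dist_eq_norm] at hyv
    have h4 : ‖b.P S y‖ < δ / 2 := by
      apply hs y S
      refine hS.mono_right ?_
      intro j hj
      rw [Finset.mem_coe, Finset.mem_biUnion]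
      exact ⟨y, ht.mem_toFinset.mpr hy, hj⟩
    have h5 : b.P S (R v) = b.P S (R v - y) + b.P S y := by
      rw [← map_add, sub_add_cancel]
    have h6 : b.K * ‖R v - y‖ ≤ δ / 2 := by
      calc b.K * ‖R v - y‖ ≤ b.K * (δ / (2 * b.K)) := mul_le_mul_of_nonneg_left hyv.le hK.le
        _ = δ / 2 := by field_simp
    rw [h5]
    calc _ ≤ ‖b.P S (R v - y)‖ + ‖b.P S y‖ := norm_add_le _ _
      _ ≤ b.K * ‖R v - y‖ + δ / 2 := add_le_add (b.norm_P_apply_le _ _) h4.le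
      _ ≤ δ := by linarith
  intro v
  by_cases hv : v = 0
  · subst hv; simp
  have hv' : 0 < ‖v‖ := norm_pos_iff.mpr hv
  have hn : ‖((‖v‖⁻¹ : ℝ) : 𝕜)‖ = ‖v‖⁻¹ := by
    rw [RCLike.norm_ofReal, abs_of_pos (inv_pos.mpr hv')]
  have h2 := key (((‖v‖⁻¹ : ℝ) : 𝕜) • v) (by
    rw [norm_smul, hn, inv_mul_cancel₀ hv'.ne'])
  rw [map_smul, map_smul, norm_smul, hn, inv_mul_le_iff₀ hv'] at h2
  linarith

/-- a subspace on which a compact operator is the identity has finite dimension -/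
theorem finiteDimensional_of_compact_fixed {F : Type*} [NormedAddCommGroup F] [NormedSpace 𝕜 F]
    (R : F →L[𝕜] F) (hR : IsCompactOperator R) (C : Submodule 𝕜 F) (hC : IsClosed (C : Set F))
    (hfix : ∀ c ∈ C, R c = c) : FiniteDimensional 𝕜 C := by
  have h1 : IsCompactOperator (fun c : C => R (c : F)) := by
    have := hR.comp_clm C.subtypeL
    exact this
  have h2 := h1.codRestrict (V := C) (fun c => by
    show R (c : F) ∈ C
    rw [hfix c c.2]; exact c.2) hC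
  have h4 : (id : C → C) =
      (fun c : C => (⟨R (c : F), by rw [hfix c c.2]; exact c.2⟩ : C)) :=
    funext fun c => Subtype.ext (hfix c c.2).symm
  have h3 : IsCompactOperator (id : C → C) := by
    rw [h4]
    exact h2
  exact FiniteDimensional.of_isCompactOperator_id (𝕜 := 𝕜) h3

/-- approximation of a projection by finite ones -/
theorem exists_finset_approx (A : Set J) (v : E) (ε : ℝ) (hε : 0 < ε) :
    ∃ s₀ : Finset J, ∀ s : Finset J, s₀ ⊆ s → ‖b.P A v - b.P (A ∩ (s : Set J)) v‖ < ε := by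
  obtain ⟨s₀, hs₀⟩ := b.exists_tail v ε hε
  refine ⟨s₀, fun s hs => ?_⟩
  have h1 : b.P A v = b.P (A ∩ (s : Set J)) v + b.P (A \ (s : Set J)) v := by
    rw [← b.P_union, Set.inter_union_sdiff]
    exact Set.disjoint_sdiff_inter.symm
  rw [h1, add_sub_cancel_left]
  apply hs₀
  rw [Set.disjoint_left]
  intro j hj hj2
  exact hj.2 (hs (Finset.mem_coe.mp hj2))

/-- a non-compact operator has far out blocks -/
theorem exists_blocks_of_not_compact (R : E →L[𝕜] E) (hR : ¬ IsCompactOperator R) :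
    ∃ δ > 0, ∀ G : Finset J, ∃ (G' : Finset J) (z : E) (f : E →L[𝕜] 𝕜), Disjoint G' G ∧
      ‖z‖ ≤ b.K ∧ b.P (G' : Set J) z = z ∧ ‖f‖ ≤ b.K ∧ (∀ v, f (b.P (G' : Set J) v) = f v) ∧
      δ ≤ ‖f (R z)‖ := by
  classical
  have hK : 0 < b.K := zero_lt_one.trans_le b.one_le
  have h1 : ∃ δ > 0, ∀ G : Finset J,
      δ ≤ ‖(b.P ((G : Set J)ᶜ)).comp (R.comp (b.P ((G : Set J)ᶜ)))‖ := by
    by_contra hcon
    push Not at hcon
    exact hR (isCompactOperator_of_tails b R hcon)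
  obtain ⟨δ, hδ, h1⟩ := h1
  refine ⟨δ / 4, by positivity, fun G => ?_⟩
  have h0 : δ / 2 < ‖(b.P ((G : Set J)ᶜ)).comp (R.comp (b.P ((G : Set J)ᶜ)))‖ := by
    have := h1 G
    linarith
  obtain ⟨x, hx1, hx2⟩ := ContinuousLinearMap.exists_lt_apply_of_lt_opNorm _ h0
  have hx2' : δ / 2 < ‖b.P ((G : Set J)ᶜ) (R (b.P ((G : Set J)ᶜ) x))‖ := hx2
  set v := R (b.P ((G : Set J)ᶜ) x) with hv
  obtain ⟨f₀, hf₀, hf₀'⟩ := exists_dual_vector'' 𝕜 (b.P ((G : Set J)ᶜ) v)
  have hf₀n : ‖f₀ (b.P ((G : Set J)ᶜ) v)‖ = ‖b.P ((G : Set J)ᶜ) v‖ := by rw [hf₀']; simp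
  obtain ⟨s₁, hs₁⟩ := exists_finset_approx b ((G : Set J)ᶜ) x (δ / (8 * b.K * (‖R‖ + 1)))
    (by positivity)
  obtain ⟨s₂, hs₂⟩ := exists_finset_approx b ((G : Set J)ᶜ) v (δ / 8) (by positivity)
  set G' : Finset J := (s₁ ∪ s₂) \ G with hG'
  have hG'' : (G' : Set J) = (G : Set J)ᶜ ∩ ((s₁ ∪ s₂ : Finset J) : Set J) := by
    rw [hG']
    ext j
    simp only [Finset.coe_sdiff, Set.mem_sdiff, Set.mem_inter_iff, Set.mem_compl_iff]
    exact and_comm
  have t1 := hs₁ (s₁ ∪ s₂) Finset.subset_union_left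
  have t2 := hs₂ (s₁ ∪ s₂) Finset.subset_union_right
  rw [← hG''] at t1 t2
  refine ⟨G', b.P (G' : Set J) x, f₀.comp (b.P (G' : Set J)), ?_, ?_, ?_, ?_, ?_, ?_⟩
  · exact Finset.sdiff_disjoint
  · calc _ ≤ b.K * ‖x‖ := b.norm_P_apply_le _ _
      _ ≤ b.K * 1 := mul_le_mul_of_nonneg_left hx1.le hK.le
      _ = b.K := mul_one _
  · exact b.P_idem _ _
  · calc _ ≤ ‖f₀‖ * ‖b.P (G' : Set J)‖ := ContinuousLinearMap.opNorm_comp_le _ _
      _ ≤ 1 * b.K := mul_le_mul hf₀ (b.norm_P_le _) (norm_nonneg _) zero_le_one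
      _ = b.K := one_mul _
  · intro u
    show f₀ (b.P (G' : Set J) (b.P (G' : Set J) u)) = f₀ (b.P (G' : Set J) u)
    rw [b.P_idem]
  · show δ / 4 ≤ ‖f₀ (b.P (G' : Set J) (R (b.P (G' : Set J) x)))‖
    have e1 : f₀ (b.P (G' : Set J) (R (b.P (G' : Set J) x))) =
        f₀ (b.P ((G : Set J)ᶜ) v) - f₀ (b.P ((G : Set J)ᶜ) v - b.P (G' : Set J) v) -
        f₀ (b.P (G' : Set J) (R (b.P ((G : Set J)ᶜ) x - b.P (G' : Set J) x))) := by
      rw [hv]
      simp only [map_sub]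
      ring
    have t3 : ‖f₀ (b.P ((G : Set J)ᶜ) v - b.P (G' : Set J) v)‖ ≤ δ / 8 := by
      calc _ ≤ ‖f₀‖ * ‖b.P ((G : Set J)ᶜ) v - b.P (G' : Set J) v‖ := f₀.le_opNorm _
        _ ≤ 1 * (δ / 8) := mul_le_mul hf₀ t2.le (norm_nonneg _) zero_le_one
        _ = δ / 8 := one_mul _
    have t4 : ‖f₀ (b.P (G' : Set J) (R (b.P ((G : Set J)ᶜ) x - b.P (G' : Set J) x)))‖ ≤ δ / 8 := by
      calc _ ≤ ‖f₀‖ * ‖b.P (G' : Set J) (R (b.P ((G : Set J)ᶜ) x - b.P (G' : Set J) x))‖ :=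
            f₀.le_opNorm _
        _ ≤ 1 * (b.K * (‖R‖ * (δ / (8 * b.K * (‖R‖ + 1))))) := by
            apply mul_le_mul hf₀ _ (norm_nonneg _) zero_le_one
            refine (b.norm_P_apply_le _ _).trans (mul_le_mul_of_nonneg_left ?_ hK.le)
            exact (R.le_opNorm _).trans (mul_le_mul_of_nonneg_left t1.le (norm_nonneg _))
        _ ≤ 1 * (b.K * ((‖R‖ + 1) * (δ / (8 * b.K * (‖R‖ + 1))))) := by
            have : ‖R‖ ≤ ‖R‖ + 1 := by linarith
            gcongr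
        _ = δ / 8 := by field_simp
    rw [e1]
    have a1 := norm_sub_norm_le (f₀ (b.P ((G : Set J)ᶜ) v))
      (f₀ (b.P ((G : Set J)ᶜ) v - b.P (G' : Set J) v))
    have a2 := norm_sub_norm_le (f₀ (b.P ((G : Set J)ᶜ) v) -
      f₀ (b.P ((G : Set J)ᶜ) v - b.P (G' : Set J) v))
      (f₀ (b.P (G' : Set J) (R (b.P ((G : Set J)ᶜ) x - b.P (G' : Set J) x))))
    rw [hf₀n] at a1
    linarith

end

end Pool.Agent.H658_UB
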