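import Mathlib
import Pool.Agent.Helper799.TeCube

set_option autoImplicit false

/-!
Sign averages.
-/

namespace Pool.Agent.H658_UB.Cube

open Finset Pool.Helper799.Te

section

variable {ι : Type*} [Fintype ι] [DecidableEq ι]

/-- flipping one coordinate of a sign vector -/
def flip (i : ι) : (ι → Bool) ≃ (ι → Bool) where
  toFun ε := Function.update ε i (!(ε i))
  invFun ε := Function.update ε i (!(ε i))
  left_inv ε := by
    funext j
    by_cases h : j = i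
    · subst h; simp
    · simp [h]
  right_inv ε := by
    funext j
    by_cases h : j = i
    · subst h; simp
    · simp [h]

theorem sum_sb_mul (i j : ι) :
    ∑ ε : ι → Bool, sb (ε i) * sb (ε j) = if i = j then (2 : ℝ) ^ Fintype.card ι else 0 := by
  by_cases h : i = j
  · subst h
    rw [if_pos rfl, Finset.sum_congr rfl (fun ε _ => sb_sq (ε i)), Finset.sum_const,
      Finset.card_univ, Fintype.card_fun, Fintype.card_bool, nsmul_eq_mul, mul_one]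
    push_cast
    rfl
  · rw [if_neg h]
    have h1 : ∑ ε : ι → Bool, sb (ε i) * sb (ε j) =
        ∑ ε : ι → Bool, sb ((flip i ε) i) * sb ((flip i ε) j) :=
      (Equiv.sum_comp (flip i) (fun ε : ι → Bool => sb (ε i) * sb (ε j))).symm
    have h2 : ∀ ε : ι → Bool, sb ((flip i ε) i) * sb ((flip i ε) j) = -(sb (ε i) * sb (ε j)) := by
      intro ε
      have h3 : (flip i ε) i = !(ε i) := by simp [flip]
      have h4 : (flip i ε) j = ε j := by
        simp [flip, Function.update_of_ne (Ne.symm h)]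
      rw [h3, h4, sb_not]
      ring
    rw [Finset.sum_congr rfl (fun ε _ => h2 ε), Finset.sum_neg_distrib] at h1
    linarith

variable {𝕜 : Type*} [RCLike 𝕜]
variable {E E₁ E₂ E₃ : Type*} [NormedAddCommGroup E] [NormedSpace 𝕜 E]
  [NormedAddCommGroup E₁] [NormedSpace 𝕜 E₁] [NormedAddCommGroup E₂] [NormedSpace 𝕜 E₂]
  [NormedAddCommGroup E₃] [NormedSpace 𝕜 E₃]

/-- the sign as a scalar -/
noncomputable def sk (𝕜 : Type*) [RCLike 𝕜] (b : Bool) : 𝕜 := ((sb b : ℝ) : 𝕜)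

theorem norm_sk (b : Bool) : ‖sk 𝕜 b‖ = 1 := by
  unfold sk
  rw [RCLike.norm_ofReal, abs_sb]

theorem norm_sk_le (b : Bool) : ‖sk 𝕜 b‖ ≤ 1 := (norm_sk b).le

theorem sum_sk_mul (i j : ι) :
    ∑ ε : ι → Bool, sk 𝕜 (ε i) * sk 𝕜 (ε j) = if i = j then (2 : 𝕜) ^ Fintype.card ι else 0 := by
  have h := sum_sb_mul i j
  have h2 : ((∑ ε : ι → Bool, sb (ε i) * sb (ε j) : ℝ) : 𝕜) =
      ∑ ε : ι → Bool, sk 𝕜 (ε i) * sk 𝕜 (ε j) := by
    rw [RCLike.ofReal_sum]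
    apply Finset.sum_congr rfl
    intro ε _
    rw [RCLike.ofReal_mul]
    rfl
  rw [← h2, h]
  split_ifs
  · push_cast; rfl
  · simp

/-- the average of the signed double sum is the diagonal sum -/
theorem sum_cube_diag (v : ι → ι → E) :
    ∑ ε : ι → Bool, ∑ i, ∑ j, (sk 𝕜 (ε i) * sk 𝕜 (ε j)) • v i j =
      (2 : 𝕜) ^ Fintype.card ι • ∑ i, v i i := by
  rw [Finset.sum_comm]
  rw [Finset.smul_sum]
  apply Finset.sum_congr rfl
  intro i _
  rw [Finset.sum_comm]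
  have h : ∀ j, ∑ ε : ι → Bool, (sk 𝕜 (ε i) * sk 𝕜 (ε j)) • v i j =
      (if i = j then (2 : 𝕜) ^ Fintype.card ι else 0) • v i j := by
    intro j
    rw [← Finset.sum_smul, sum_sk_mul]
  rw [Finset.sum_congr rfl (fun j _ => h j), Finset.sum_eq_single i]
  · simp
  · intro j _ hj
    simp [Ne.symm hj]
  · intro h; exact absurd (Finset.mem_univ i) h

theorem norm_diag_le (v : ι → ι → E) (M : ℝ)
    (h : ∀ ε : ι → Bool, ‖∑ i, ∑ j, (sk 𝕜 (ε i) * sk 𝕜 (ε j)) • v i j‖ ≤ M) :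
    ‖∑ i, v i i‖ ≤ M := by
  have h1 := sum_cube_diag (𝕜 := 𝕜) v
  have h2 : ‖∑ ε : ι → Bool, ∑ i, ∑ j, (sk 𝕜 (ε i) * sk 𝕜 (ε j)) • v i j‖ ≤
      2 ^ Fintype.card ι * M := by
    refine (norm_sum_le _ _).trans ?_
    refine (Finset.sum_le_sum (fun ε _ => h ε)).trans ?_
    rw [Finset.sum_const, Finset.card_univ, Fintype.card_fun, Fintype.card_bool, nsmul_eq_mul]
    push_cast
    exact le_rfl
  rw [h1, norm_smul, norm_pow, RCLike.norm_ofNat] at h2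
  exact le_of_mul_le_mul_left h2 (by positivity)

/-- some choice of signs does at least as well as the diagonal -/
theorem exists_sign (v : ι → ι → E) :
    ∃ ε : ι → Bool, ‖∑ i, v i i‖ ≤ ‖∑ i, ∑ j, (sk 𝕜 (ε i) * sk 𝕜 (ε j)) • v i j‖ := by
  by_contra hcon
  push Not at hcon
  obtain ⟨ε₀, -, hε₀⟩ := Finset.exists_max_image (Finset.univ : Finset (ι → Bool))
    (fun ε => ‖∑ i, ∑ j, (sk 𝕜 (ε i) * sk 𝕜 (ε j)) • v i j‖) ⟨fun _ => true, Finset.mem_univ _⟩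
  have h1 := norm_diag_le (𝕜 := 𝕜) v _ (fun ε => hε₀ ε (Finset.mem_univ _))
  exact absurd (hcon ε₀) (not_lt.mpr h1)

/-- diagonal averaging -/
theorem diag_bound (T : E₁ →L[𝕜] E₂) (A : ι → E₁) (B : ι → E₂ →L[𝕜] E₃) (a c : ℝ)
    (hc : 0 ≤ c)
    (hA : ∀ ε : ι → Bool, ‖∑ i, sk 𝕜 (ε i) • A i‖ ≤ a)
    (hB : ∀ (ε : ι → Bool) (z : E₂), ‖∑ i, sk 𝕜 (ε i) • B i z‖ ≤ c * ‖z‖) :
    ‖∑ i, B i (T (A i))‖ ≤ c * (‖T‖ * a) := by
  have h := norm_diag_le (𝕜 := 𝕜) (fun i j => B i (T (A j))) (c * (‖T‖ * a)) (fun ε => by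
    have h1 : ∑ i, ∑ j, (sk 𝕜 (ε i) * sk 𝕜 (ε j)) • B i (T (A j)) =
        ∑ i, sk 𝕜 (ε i) • B i (T (∑ j, sk 𝕜 (ε j) • A j)) := by
      apply Finset.sum_congr rfl
      intro i _
      rw [map_sum, map_sum, Finset.smul_sum]
      apply Finset.sum_congr rfl
      intro j _
      rw [map_smul, map_smul, smul_smul]
    rw [h1]
    refine (hB ε _).trans (mul_le_mul_of_nonneg_left ?_ hc)
    exact (T.le_opNorm _).trans (mul_le_mul_of_nonneg_left (hA ε) (norm_nonneg _)))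
  exact h

/-- orthogonality of signs -/
theorem sum_cube_norm_sq (z : ι → 𝕜) :
    ∑ ε : ι → Bool, ‖∑ i, sk 𝕜 (ε i) * z i‖ ^ 2 = 2 ^ Fintype.card ι * ∑ i, ‖z i‖ ^ 2 := by
  have h1 : ∀ ε : ι → Bool, ((‖∑ i, sk 𝕜 (ε i) * z i‖ ^ 2 : ℝ) : 𝕜) =
      ∑ i, ∑ j, (sk 𝕜 (ε i) * sk 𝕜 (ε j)) • ((starRingEnd 𝕜) (z i) * z j) := by
    intro ε
    rw [RCLike.ofReal_pow, ← RCLike.conj_mul, map_sum, Finset.sum_mul_sum]
    apply Finset.sum_congr rfl
    intro i _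
    apply Finset.sum_congr rfl
    intro j _
    rw [map_mul, smul_eq_mul]
    have : (starRingEnd 𝕜) (sk 𝕜 (ε i)) = sk 𝕜 (ε i) := by
      unfold sk; exact RCLike.conj_ofReal _
    rw [this]
    ring
  have h2 : ((∑ ε : ι → Bool, ‖∑ i, sk 𝕜 (ε i) * z i‖ ^ 2 : ℝ) : 𝕜) =
      ((2 ^ Fintype.card ι * ∑ i, ‖z i‖ ^ 2 : ℝ) : 𝕜) := by
    rw [RCLike.ofReal_sum, Finset.sum_congr rfl (fun ε _ => h1 ε), sum_cube_diag]
    rw [RCLike.ofReal_mul, RCLike.ofReal_sum, smul_eq_mul]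
    push_cast
    congr 1
    apply Finset.sum_congr rfl
    intro i _
    rw [RCLike.conj_mul]
  exact_mod_cast h2

end

end Pool.Agent.H658_UB.Cube
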