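import Mathlib
import Pool.Agent.H658_UB.Theory

set_option autoImplicit false

/-!
The three gauges (`ℓ_1`, `ℓ_2`, sup) on finitely supported functions.
-/

namespace Pool.Agent.H658_UB

open Filter Topology

/-- the three kinds of sequence spaces -/
inductive Kd : Type
  | one : Kd
  | two : Kd
  | inf : Kd

/-- the `ℓ_1`, `ℓ_2` or sup norm of the restriction of `a` to `s` -/
noncomputable def NN (p : Kd) {ι : Type*} (s : Finset ι) (a : ι → ℝ) : ℝ :=
  match p with
  | .one => ∑ i ∈ s, |a i|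
  | .two => Real.sqrt (∑ i ∈ s, (a i) ^ 2)
  | .inf => ((s.sup fun i => ‖a i‖₊ : NNReal) : ℝ)

section

variable {ι κ : Type*} (p : Kd)

theorem NN_nonneg (s : Finset ι) (a : ι → ℝ) : 0 ≤ NN p s a := by
  cases p
  · exact Finset.sum_nonneg fun _ _ => abs_nonneg _
  · exact Real.sqrt_nonneg _
  · exact NNReal.coe_nonneg _

theorem NN_empty (a : ι → ℝ) : NN p ∅ a = 0 := by
  cases p <;> simp [NN]

theorem NN_singleton (i : ι) (a : ι → ℝ) : NN p {i} a = |a i| := by
  cases p
  · simp [NN]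
  · simp [NN, Real.sqrt_sq_eq_abs]
  · simp [NN]

theorem NN_le {s : Finset ι} {a b : ι → ℝ} (h : ∀ i ∈ s, |a i| ≤ |b i|) :
    NN p s a ≤ NN p s b := by
  cases p
  · exact Finset.sum_le_sum h
  · apply Real.sqrt_le_sqrt
    apply Finset.sum_le_sum
    intro i hi
    exact sq_le_sq.mpr (h i hi)
  · simp only [NN]
    rw [NNReal.coe_le_coe]
    apply Finset.sup_mono_fun
    intro i hi
    rw [← NNReal.coe_le_coe]
    simpa using h i hi

theorem NN_congr {s : Finset ι} {a b : ι → ℝ} (h : ∀ i ∈ s, |a i| = |b i|) :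
    NN p s a = NN p s b :=
  le_antisymm (NN_le p fun i hi => (h i hi).le) (NN_le p fun i hi => (h i hi).ge)

theorem NN_mono {s t : Finset ι} (h : s ⊆ t) (a : ι → ℝ) : NN p s a ≤ NN p t a := by
  cases p
  · exact Finset.sum_le_sum_of_subset_of_nonneg h fun _ _ _ => abs_nonneg _
  · apply Real.sqrt_le_sqrt
    exact Finset.sum_le_sum_of_subset_of_nonneg h fun _ _ _ => sq_nonneg _
  · simp only [NN]
    rw [NNReal.coe_le_coe]
    exact Finset.sup_mono h

theorem le_NN {s : Finset ι} {i : ι} (h : i ∈ s) (a : ι → ℝ) : |a i| ≤ NN p s a := by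
  rw [← NN_singleton p]
  exact NN_mono p (Finset.singleton_subset_iff.mpr h) a

theorem NN_mul (s : Finset ι) (c : ℝ) (a : ι → ℝ) :
    NN p s (fun i => c * a i) = |c| * NN p s a := by
  cases p
  · simp only [NN, abs_mul, Finset.mul_sum]
  · simp only [NN, mul_pow]
    rw [← Finset.mul_sum, Real.sqrt_mul (sq_nonneg _), Real.sqrt_sq_eq_abs]
  · simp only [NN]
    have : (fun i => ‖c * a i‖₊) = fun i => ‖c‖₊ * ‖a i‖₊ := by
      funext i; rw [nnnorm_mul]
    rw [this, ← NNReal.mul_finset_sup]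
    simp

theorem NN_biUnion [DecidableEq ι] (K : Finset κ) (G : κ → Finset ι)
    (hG : ∀ k ∈ K, ∀ l ∈ K, k ≠ l → Disjoint (G k) (G l)) (a : ι → ℝ) :
    NN p (K.biUnion G) a = NN p K (fun k => NN p (G k) a) := by
  have hG' : (K : Set κ).PairwiseDisjoint G := fun k hk l hl hkl => hG k hk l hl hkl
  cases p
  · simp only [NN]
    rw [Finset.sum_biUnion hG']
    apply Finset.sum_congr rfl
    intro k _
    rw [abs_of_nonneg (Finset.sum_nonneg fun _ _ => abs_nonneg _)]
  · simp only [NN]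
    rw [Finset.sum_biUnion hG']
    congr 1
    apply Finset.sum_congr rfl
    intro k _
    rw [Real.sq_sqrt (Finset.sum_nonneg fun _ _ => sq_nonneg _)]
  · simp only [NN]
    rw [Finset.sup_biUnion]
    congr 2
    funext k
    rw [← NNReal.coe_inj]
    simp

theorem NN_union_le [DecidableEq ι] (s t : Finset ι) (a : ι → ℝ) :
    NN p (s ∪ t) a ≤ NN p s a + NN p t a := by
  cases p
  · simp only [NN]
    calc ∑ i ∈ s ∪ t, |a i| ≤ ∑ i ∈ s ∪ t, |a i| + ∑ i ∈ s ∩ t, |a i| := by
          have := Finset.sum_nonneg (s := s ∩ t) (f := fun i => |a i|) fun _ _ => abs_nonneg _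
          linarith
      _ = _ := Finset.sum_union_inter
  · simp only [NN]
    apply Real.sqrt_le_iff.mpr
    refine ⟨by positivity, ?_⟩
    have h1 := Real.sq_sqrt (Finset.sum_nonneg (s := s) (f := fun i => (a i) ^ 2)
      fun _ _ => sq_nonneg _)
    have h2 := Real.sq_sqrt (Finset.sum_nonneg (s := t) (f := fun i => (a i) ^ 2)
      fun _ _ => sq_nonneg _)
    have h3 : ∑ i ∈ s ∪ t, (a i) ^ 2 ≤ ∑ i ∈ s, (a i) ^ 2 + ∑ i ∈ t, (a i) ^ 2 := by
      rw [← Finset.sum_union_inter]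
      have := Finset.sum_nonneg (s := s ∩ t) (f := fun i => (a i) ^ 2) fun _ _ => sq_nonneg _
      linarith
    nlinarith [Real.sqrt_nonneg (∑ i ∈ s, (a i) ^ 2), Real.sqrt_nonneg (∑ i ∈ t, (a i) ^ 2),
      mul_nonneg (Real.sqrt_nonneg (∑ i ∈ s, (a i) ^ 2)) (Real.sqrt_nonneg (∑ i ∈ t, (a i) ^ 2))]
  · simp only [NN]
    rw [Finset.sup_union, ← NNReal.coe_add, NNReal.coe_le_coe]
    exact sup_le le_self_add le_add_self

theorem NN_map (s : Finset κ) (σ : κ ↪ ι) (a : ι → ℝ) :
    NN p (s.map σ) a = NN p s (fun k => a (σ k)) := by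
  cases p
  · simp [NN]
  · simp [NN]
  · simp [NN, Finset.sup_map, Function.comp_def]

theorem NN_image [DecidableEq ι] (s : Finset κ) (σ : κ → ι) (hσ : Function.Injective σ)
    (a : ι → ℝ) : NN p (s.image σ) a = NN p s (fun k => a (σ k)) := by
  show _ = NN p s (fun k => a ((⟨σ, hσ⟩ : κ ↪ ι) k))
  rw [← NN_map p s ⟨σ, hσ⟩ a]
  congr 1
  ext x
  simp

/-- crude bound by the `ℓ_1` norm -/
theorem NN_le_sum (s : Finset ι) (a : ι → ℝ) : NN p s a ≤ ∑ i ∈ s, |a i| := by
  classical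
  induction s using Finset.induction_on with
  | empty => simp [NN_empty]
  | insert i s hi ih =>
    rw [Finset.sum_insert hi]
    have h := NN_union_le p {i} s a
    rw [NN_singleton] at h
    rw [← Finset.singleton_union] at *
    linarith

end

section

variable {𝕜 : Type*} [RCLike 𝕜]
variable {E E' : Type*} [NormedAddCommGroup E] [NormedSpace 𝕜 E]
  [NormedAddCommGroup E'] [NormedSpace 𝕜 E']
variable {J I : Type}

/-- the family `w` is equivalent to the unit vectors of the sequence space of kind `p` -/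
def IsKd (𝕜 : Type*) [RCLike 𝕜] {J : Type} {E : Type*} [NormedAddCommGroup E] [NormedSpace 𝕜 E]
    (p : Kd) (w : J → E) : Prop :=
  ∃ C : ℝ, 0 < C ∧ ∀ (s : Finset J) (a : J → 𝕜),
    ‖∑ j ∈ s, a j • w j‖ ≤ C * NN p s (fun j => ‖a j‖) ∧
    NN p s (fun j => ‖a j‖) ≤ C * ‖∑ j ∈ s, a j • w j‖

variable (p : Kd)

theorem IsKd.semiNormalized {w : J → E} (h : IsKd 𝕜 p w) : SemiNormalized w := by
  obtain ⟨C, hC, h⟩ := h
  refine ⟨1 / C, C, by positivity, fun j => ?_⟩
  have h1 := h {j} (fun _ => 1)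
  simp only [Finset.sum_singleton, one_smul, NN_singleton, norm_one, abs_one, mul_one] at h1
  refine ⟨?_, h1.1⟩
  rw [div_le_iff₀ hC]
  linarith [h1.2]

theorem IsKd.comp {w : J → E} (h : IsKd 𝕜 p w) (σ : I → J) (hσ : Function.Injective σ) :
    IsKd 𝕜 p (fun i => w (σ i)) := by
  classical
  obtain ⟨C, hC, h⟩ := h
  refine ⟨C, hC, fun s a => ?_⟩
  have h1 := h (s.image σ) (fun j => if hj : ∃ i, σ i = j then a hj.choose else 0)
  rw [Finset.sum_image (fun x _ y _ hxy => hσ hxy), NN_image p s σ hσ] at h1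
  have h2 : ∀ i, (if hj : ∃ i', σ i' = σ i then a hj.choose else 0) = a i := by
    intro i
    have h3 : ∃ i', σ i' = σ i := ⟨i, rfl⟩
    rw [dif_pos h3, hσ h3.choose_spec]
  simp only [h2] at h1
  exact h1

/-- Cauchy criterion for summability along a family of kind `p` -/
theorem IsKd.summable_iff [CompleteSpace E] {w : J → E} (h : IsKd 𝕜 p w) (a : J → 𝕜) :
    Summable (fun j => a j • w j) ↔
      ∀ ε > 0, ∃ s : Finset J, ∀ t : Finset J, Disjoint t s → NN p t (fun j => ‖a j‖) < ε := by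
  obtain ⟨C, hC, h⟩ := h
  rw [summable_iff_vanishing_norm]
  constructor
  · intro h1 ε hε
    obtain ⟨s, hs⟩ := h1 (ε / C) (by positivity)
    refine ⟨s, fun t ht => ?_⟩
    have h2 := hs t ht
    have h3 := (h t a).2
    calc _ ≤ _ := h3
      _ < C * (ε / C) := mul_lt_mul_of_pos_left h2 hC
      _ = ε := by field_simp
  · intro h1 ε hε
    obtain ⟨s, hs⟩ := h1 (ε / C) (by positivity)
    refine ⟨s, fun t ht => ?_⟩
    have h2 := hs t ht
    have h3 := (h t a).1
    calc _ ≤ _ := h3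
      _ < C * (ε / C) := mul_lt_mul_of_pos_left h2 hC
      _ = ε := by field_simp

theorem IsKd.summable_iff_summable [CompleteSpace E] [CompleteSpace E'] {w : J → E} {y : J → E'}
    (h : IsKd 𝕜 p w) (h' : IsKd 𝕜 p y) (a : J → 𝕜) :
    Summable (fun j => a j • w j) ↔ Summable (fun j => a j • y j) := by
  rw [h.summable_iff, h'.summable_iff]

theorem IsKd.permEquiv [CompleteSpace E] [CompleteSpace E'] {w : J → E} {y : I → E'}
    (h : IsKd 𝕜 p w) (h' : IsKd 𝕜 p y) (σ : J ≃ I) : PermEquiv 𝕜 w y :=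
  ⟨σ, fun a => h.summable_iff_summable p (h'.comp p σ σ.injective) a⟩

theorem IsKd.exists_map [CompleteSpace E] [CompleteSpace E'] {w : J → E} {y : J → E'}
    (b : UBD 𝕜 w) (h : IsKd 𝕜 p w) (h' : IsKd 𝕜 p y) : ∃ T : E →L[𝕜] E', ∀ j, T (w j) = y j := by
  classical
  obtain ⟨C, hC, h⟩ := h
  obtain ⟨C', hC', h'⟩ := h'
  obtain ⟨T, hT, -⟩ := exists_sumOp (E := E) (E' := E')
    (fun j => (b.cf j).smulRight (y j)) (C' * (C * b.K))
    (mul_nonneg hC'.le (mul_nonneg hC.le b.K_nonneg))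
    (fun s x => by
      simp only [ContinuousLinearMap.smulRight_apply]
      refine (h' s (fun j => b.cf j x)).1.trans ?_
      rw [mul_assoc, mul_assoc]
      refine mul_le_mul_of_nonneg_left ?_ hC'.le
      refine (h s (fun j => b.cf j x)).2.trans ?_
      refine mul_le_mul_of_nonneg_left ?_ hC.le
      rw [← b.P_finset]
      exact b.norm_P_apply_le _ _) (Set.range w) b.dense_span (by
    rintro _ ⟨k, rfl⟩
    apply summable_of_ne_finset_zero (s := {k})
    intro j hj
    rw [Finset.mem_singleton] at hj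
    simp [b.ne j k hj])
  refine ⟨T, fun j => ?_⟩
  have h1 := hT (w j)
  have h2 : HasSum (fun i => ((b.cf i).smulRight (y i)) (w j)) (y j) := by
    have := hasSum_ite_eq j (y j)
    refine this.congr_fun ?_
    intro i
    by_cases hi : i = j
    · subst hi; simp [b.self]
    · simp [hi, b.ne i j hi]
  exact h1.unique h2

/-- two bases of the same kind, indexed by the same set, span isomorphic spaces -/
theorem IsKd.exists_equiv [CompleteSpace E] [CompleteSpace E'] {w : J → E} {y : J → E'}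
    (b : UBD 𝕜 w) (b' : UBD 𝕜 y) (h : IsKd 𝕜 p w) (h' : IsKd 𝕜 p y) :
    ∃ T : E ≃L[𝕜] E', ∀ j, T (w j) = y j := by
  obtain ⟨T, hT⟩ := IsKd.exists_map p b h h'
  obtain ⟨S, hS⟩ := IsKd.exists_map p b' h' h
  have h1 : S.comp T = ContinuousLinearMap.id 𝕜 E := by
    apply ContinuousLinearMap.ext_on b.dense_span
    rintro _ ⟨j, rfl⟩
    simp [hT, hS]
  have h2 : T.comp S = ContinuousLinearMap.id 𝕜 E' := by
    apply ContinuousLinearMap.ext_on b'.dense_span
    rintro _ ⟨j, rfl⟩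
    simp [hT, hS]
  refine ⟨ContinuousLinearEquiv.equivOfInverse T S (fun x => ?_) (fun x => ?_), fun j => ?_⟩
  · exact congrArg (fun f : E →L[𝕜] E => f x) h1
  · exact congrArg (fun f : E' →L[𝕜] E' => f x) h2
  · exact hT j

end

end Pool.Agent.H658_UB
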