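import Mathlib
import Pool.Agent.H658_UB.Gauge

set_option autoImplicit false

/-!
Gliding hump: an operator on `ℓ_1`, `ℓ_2` or `c_0` whose tails do not vanish factors the identity.
-/

namespace Pool.Agent.H658_UB

open Filter Topology

section

variable {𝕜 : Type*} [RCLike 𝕜]
variable {Y : Type*} [NormedAddCommGroup Y] [NormedSpace 𝕜 Y] [CompleteSpace Y]
variable {e : ℕ → Y} (b : UBD 𝕜 e)

/-- vanishing tails -/
def TV (R : Y →L[𝕜] Y) : Prop :=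
  ∀ δ > 0, ∃ n, ‖(b.P (Set.Ici n)).comp (R.comp (b.P (Set.Ici n)))‖ < δ

theorem exists_tail_nat (v : Y) (ε : ℝ) (hε : 0 < ε) :
    ∃ N : ℕ, ∀ m ≥ N, ∀ S : Set ℕ, S ⊆ Set.Ici m → ‖b.P S v‖ < ε := by
  obtain ⟨s, hs⟩ := b.exists_tail v ε hε
  refine ⟨s.sup id + 1, fun m hm S hS => hs S ?_⟩
  rw [Set.disjoint_left]
  intro i hi hi2
  have h1 : i ≤ s.sup id := Finset.le_sup (f := id) (Finset.mem_coe.mp hi2)
  have h2 : m ≤ i := hS hi
  omega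

theorem P_Ici_split (n m : ℕ) (h : n ≤ m) (v : Y) :
    b.P (Set.Ici n) v = b.P (Set.Ico n m) v + b.P (Set.Ici m) v := by
  rw [← b.P_union]
  · rw [Set.Ico_union_Ici_eq_Ici h]
  · rw [Set.disjoint_left]
    intro i hi hi2
    exact absurd hi.2 (not_lt.mpr hi2)

theorem exists_block (R : Y →L[𝕜] Y) (δ : ℝ) (hδ : 0 < δ)
    (h : ∀ n, δ ≤ ‖(b.P (Set.Ici n)).comp (R.comp (b.P (Set.Ici n)))‖) (n : ℕ) :
    ∃ m, n < m ∧ ∃ y : Y, ‖y‖ ≤ 1 ∧ b.P (Set.Ico n m) y = y ∧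
      δ / (4 * b.K) ≤ ‖b.P (Set.Ico n m) (R y)‖ := by
  have hK : 0 < b.K := zero_lt_one.trans_le b.one_le
  have h0 : δ / 2 < ‖(b.P (Set.Ici n)).comp (R.comp (b.P (Set.Ici n)))‖ := by
    have := h n
    linarith
  obtain ⟨x, hx1, hx2⟩ := ContinuousLinearMap.exists_lt_apply_of_lt_opNorm _ h0
  have hx2' : δ / 2 < ‖b.P (Set.Ici n) (R (b.P (Set.Ici n) x))‖ := hx2
  obtain ⟨N₁, hN₁⟩ := exists_tail_nat b x (δ / (8 * b.K * (‖R‖ + 1))) (by positivity)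
  obtain ⟨N₂, hN₂⟩ := exists_tail_nat b (R (b.P (Set.Ici n) x)) (δ / 8) (by positivity)
  set m := max (max N₁ N₂) (n + 1) with hm
  have hnm : n < m := lt_of_lt_of_le (Nat.lt_succ_self n) (le_max_right _ _)
  have hm1 : N₁ ≤ m := (le_max_left _ _).trans (le_max_left _ _)
  have hm2 : N₂ ≤ m := (le_max_right _ _).trans (le_max_left _ _)
  have t1 := hN₁ m hm1 (Set.Ici m) le_rfl
  have t2 := hN₂ m hm2 (Set.Ici m) le_rfl
  have e1 : b.P (Set.Ico n m) x = b.P (Set.Ici n) x - b.P (Set.Ici m) x := by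
    rw [P_Ici_split b n m hnm.le x, add_sub_cancel_right]
  have e2 : b.P (Set.Ico n m) (R (b.P (Set.Ici n) x)) =
      b.P (Set.Ici n) (R (b.P (Set.Ici n) x)) - b.P (Set.Ici m) (R (b.P (Set.Ici n) x)) := by
    rw [P_Ici_split b n m hnm.le (R (b.P (Set.Ici n) x)), add_sub_cancel_right]
  have e3 : b.P (Set.Ico n m) (R (b.P (Set.Ico n m) x)) =
      b.P (Set.Ici n) (R (b.P (Set.Ici n) x)) - b.P (Set.Ici m) (R (b.P (Set.Ici n) x)) -
      b.P (Set.Ico n m) (R (b.P (Set.Ici m) x)) := by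
    rw [e1, map_sub, map_sub, e2]
  have t3 : ‖b.P (Set.Ico n m) (R (b.P (Set.Ici m) x))‖ ≤ δ / 8 := by
    calc _ ≤ b.K * ‖R (b.P (Set.Ici m) x)‖ := b.norm_P_apply_le _ _
      _ ≤ b.K * (‖R‖ * (δ / (8 * b.K * (‖R‖ + 1)))) := by
          apply mul_le_mul_of_nonneg_left _ hK.le
          exact (R.le_opNorm _).trans (mul_le_mul_of_nonneg_left t1.le (norm_nonneg _))
      _ ≤ b.K * ((‖R‖ + 1) * (δ / (8 * b.K * (‖R‖ + 1)))) := by
          apply mul_le_mul_of_nonneg_left _ hK.le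
          apply mul_le_mul_of_nonneg_right _ (by positivity)
          linarith
      _ = δ / 8 := by
          field_simp
  have t4 : δ / 4 ≤ ‖b.P (Set.Ico n m) (R (b.P (Set.Ico n m) x))‖ := by
    rw [e3]
    have a1 := norm_sub_norm_le (b.P (Set.Ici n) (R (b.P (Set.Ici n) x)))
      (b.P (Set.Ici m) (R (b.P (Set.Ici n) x)))
    have a2 := norm_sub_norm_le (b.P (Set.Ici n) (R (b.P (Set.Ici n) x)) -
      b.P (Set.Ici m) (R (b.P (Set.Ici n) x))) (b.P (Set.Ico n m) (R (b.P (Set.Ici m) x)))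
    linarith
  have hKn : ‖((b.K⁻¹ : ℝ) : 𝕜)‖ = b.K⁻¹ := by
    rw [RCLike.norm_ofReal, abs_of_pos (inv_pos.mpr hK)]
  refine ⟨m, hnm, ((b.K⁻¹ : ℝ) : 𝕜) • b.P (Set.Ico n m) x, ?_, ?_, ?_⟩
  · rw [norm_smul, hKn]
    calc b.K⁻¹ * ‖b.P (Set.Ico n m) x‖ ≤ b.K⁻¹ * (b.K * ‖x‖) :=
          mul_le_mul_of_nonneg_left (b.norm_P_apply_le _ _) (inv_pos.mpr hK).le
      _ = ‖x‖ := by field_simp
      _ ≤ 1 := hx1.le
  · rw [map_smul, b.P_idem]
  · rw [map_smul, map_smul, norm_smul, hKn]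
    calc δ / (4 * b.K) = b.K⁻¹ * (δ / 4) := by field_simp
      _ ≤ _ := mul_le_mul_of_nonneg_left t4 (inv_pos.mpr hK).le

theorem exists_blocks (R : Y →L[𝕜] Y) (δ : ℝ) (hδ : 0 < δ)
    (h : ∀ n, δ ≤ ‖(b.P (Set.Ici n)).comp (R.comp (b.P (Set.Ici n)))‖) :
    ∃ (nn : ℕ → ℕ) (y : ℕ → Y), StrictMono nn ∧ ∀ k, ‖y k‖ ≤ 1 ∧
      b.P (Set.Ico (nn k) (nn (k + 1))) (y k) = y k ∧
      δ / (4 * b.K) ≤ ‖b.P (Set.Ico (nn k) (nn (k + 1))) (R (y k))‖ := by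
  choose m hm y hy using exists_block b R δ hδ h
  refine ⟨fun k => Nat.rec 0 (fun _ x => m x) k,
    fun k => y (Nat.rec 0 (fun _ x => m x) k), ?_, fun k => hy _⟩
  exact strictMono_nat_of_lt_succ fun k => hm _

theorem exists_subseq (r : ℕ → Y) (M : ℝ) (hr : ∀ k, ‖r k‖ ≤ M) :
    ∃ φ : ℕ → ℕ, StrictMono φ ∧ ∃ z : ℕ → 𝕜, ∀ i,
      Tendsto (fun k => b.cf i (r (φ k))) atTop (𝓝 (z i)) := by
  have hcomp : IsCompact (Set.univ.pi fun i : ℕ => Metric.closedBall (0 : 𝕜) (‖b.cf i‖ * M)) :=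
    isCompact_univ_pi fun i => isCompact_closedBall _ _
  obtain ⟨z, -, φ, hφ, hz⟩ := hcomp.tendsto_subseq (x := fun k i => b.cf i (r k)) (by
    intro k i _
    rw [mem_closedBall_zero_iff]
    exact ((b.cf i).le_opNorm _).trans (mul_le_mul_of_nonneg_left (hr k) (norm_nonneg _)))
  refine ⟨φ, hφ, z, fun i => ?_⟩
  exact (tendsto_pi_nhds.mp hz) i

theorem exists_selection (r : ℕ → Y) (G : ℕ → Finset ℕ) (hG : ∀ k, ∀ i ∈ G k, k ≤ i)
    (z : ℕ → 𝕜) (hz : ∀ i, Tendsto (fun k => b.cf i (r k)) atTop (𝓝 (z i)))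
    (δ : ℝ) (hδ : 0 < δ) (hδ' : ∀ k, δ ≤ ‖b.P (G k : Set ℕ) (r k)‖) (η : ℝ) (hη : 0 < η) :
    ∃ a d : ℕ → ℕ, (∀ m, a m < d m) ∧ (∀ m n, m < n → d m < a n) ∧
      (∀ m, δ / 2 ≤ ‖b.P (G (d m) : Set ℕ) (r (d m) - r (a m))‖) ∧
      ∀ m n, m < n →
        ‖b.P (G (d m) : Set ℕ) (r (d n) - r (a n))‖ ≤ η * ((1 / 2) ^ (m + 1) * (1 / 2) ^ (n + 1)) ∧
        ‖b.P (G (d n) : Set ℕ) (r (d m) - r (a m))‖ ≤ η * ((1 / 2) ^ (m + 1) * (1 / 2) ^ (n + 1)) := by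
  classical
  have hconv : ∀ k, ∃ L : Y, Tendsto (fun l => b.P (G k : Set ℕ) (r l)) atTop (𝓝 L) := by
    intro k
    refine ⟨∑ i ∈ G k, z i • e i, ?_⟩
    simp only [b.P_finset]
    exact tendsto_finsetSum _ fun i _ => (hz i).smul_const (e i)
  choose L hL using hconv
  have key := exists_seq_of_forall_finset_exists (α := ℕ × ℕ × ℕ)
    (fun x => x.2.1 < x.2.2 ∧ δ / 2 ≤ ‖b.P (G x.2.2 : Set ℕ) (r x.2.2 - r x.2.1)‖)
    (fun x x' => x.1 < x'.1 ∧ x.2.2 < x'.2.1 ∧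
      ‖b.P (G x.2.2 : Set ℕ) (r x'.2.2 - r x'.2.1)‖ ≤ η * (1 / 4) ^ (x'.1 + 1) ∧
      ‖b.P (G x'.2.2 : Set ℕ) (r x.2.2 - r x.2.1)‖ ≤ η * (1 / 4) ^ (x'.1 + 1)) (by
    intro s _
    set c := s.sup (fun x => x.1) + 1 with hc
    set ε := η * (1 / 4 : ℝ) ^ (c + 1) with hε
    have hε0 : 0 < ε := by positivity
    have ev1 : ∀ᶠ k in atTop, ∀ x ∈ s, dist (b.P (G x.2.2 : Set ℕ) (r k)) (L x.2.2) < ε / 2 := by
      rw [Finset.eventually_all]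
      intro x _
      exact (Metric.tendsto_nhds.mp (hL x.2.2)) (ε / 2) (by positivity)
    have ev2 : ∀ᶠ k in atTop, ∀ x ∈ s, x.2.2 < k := by
      rw [Finset.eventually_all]
      intro x _
      exact eventually_gt_atTop _
    have ev3 : ∀ᶠ k in atTop, ∀ x ∈ s, ‖b.P (G k : Set ℕ) (r x.2.2 - r x.2.1)‖ < ε := by
      rw [Finset.eventually_all]
      intro x _
      obtain ⟨N, hN⟩ := exists_tail_nat b (r x.2.2 - r x.2.1) ε hε0
      filter_upwards [eventually_ge_atTop N] with k hk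
      exact hN k hk _ (fun i hi => hG k i (Finset.mem_coe.mp hi))
    obtain ⟨a', ha1, ha2⟩ := (ev1.and ev2).exists
    have ev4 : ∀ᶠ k in atTop, ‖b.P (G k : Set ℕ) (r a')‖ < δ / 2 := by
      obtain ⟨N, hN⟩ := exists_tail_nat b (r a') (δ / 2) (by positivity)
      filter_upwards [eventually_ge_atTop N] with k hk
      exact hN k hk _ (fun i hi => hG k i (Finset.mem_coe.mp hi))
    obtain ⟨d', hd1, hd3, hd4, hd5⟩ :=
      (ev1.and (ev3.and (ev4.and (eventually_gt_atTop a')))).exists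
    refine ⟨(c, a', d'), ⟨hd5, ?_⟩, fun x hx => ⟨?_, ha2 x hx, ?_, (hd3 x hx).le⟩⟩
    · show δ / 2 ≤ ‖b.P (G d' : Set ℕ) (r d' - r a')‖
      rw [map_sub]
      have h1 := norm_sub_norm_le (b.P (G d' : Set ℕ) (r d')) (b.P (G d' : Set ℕ) (r a'))
      have h2 := hδ' d'
      linarith
    · have : x.1 ≤ s.sup (fun x => x.1) := Finset.le_sup (f := fun x : ℕ × ℕ × ℕ => x.1) hx
      show x.1 < c
      omega
    · show ‖b.P (G x.2.2 : Set ℕ) (r d' - r a')‖ ≤ ε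
      rw [map_sub, ← dist_eq_norm]
      have h1 := ha1 x hx
      have h2 := hd1 x hx
      have h3 := dist_triangle_right (b.P (G x.2.2 : Set ℕ) (r d')) (b.P (G x.2.2 : Set ℕ) (r a'))
        (L x.2.2)
      linarith)
  obtain ⟨f, hf1, hf2⟩ := key
  have hf0 : StrictMono (fun n => (f n).1) := fun m n hmn => (hf2 m n hmn).1
  have hge : ∀ n, n ≤ (f n).1 := fun n => hf0.id_le n
  have hpow : ∀ m n, m < n → η * (1 / 4 : ℝ) ^ ((f n).1 + 1) ≤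
      η * ((1 / 2) ^ (m + 1) * (1 / 2) ^ (n + 1)) := by
    intro m n hmn
    apply mul_le_mul_of_nonneg_left _ hη.le
    calc (1 / 4 : ℝ) ^ ((f n).1 + 1) ≤ (1 / 4 : ℝ) ^ (n + 1) :=
          pow_le_pow_of_le_one (by norm_num) (by norm_num) (by have := hge n; omega)
      _ = (1 / 2 : ℝ) ^ (n + 1) * (1 / 2 : ℝ) ^ (n + 1) := by
          rw [← mul_pow]; norm_num
      _ ≤ (1 / 2 : ℝ) ^ (m + 1) * (1 / 2 : ℝ) ^ (n + 1) := by
          apply mul_le_mul_of_nonneg_right _ (by positivity)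
          exact pow_le_pow_of_le_one (by norm_num) (by norm_num) (by omega)
  refine ⟨fun n => (f n).2.1, fun n => (f n).2.2, fun m => (hf1 m).1,
    fun m n hmn => (hf2 m n hmn).2.1, fun m => (hf1 m).2, fun m n hmn => ⟨?_, ?_⟩⟩
  · exact (hf2 m n hmn).2.2.1.trans (hpow m n hmn)
  · exact (hf2 m n hmn).2.2.2.trans (hpow m n hmn)

end

end Pool.Agent.H658_UB
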