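import Mathlib
import Pool.Agent.H658_UB.Hump

set_option autoImplicit false

/-!
An operator on `ℓ_1`, `ℓ_2` or `c_0` whose tails do not vanish factors the identity.
-/

namespace Pool.Agent.H658_UB

open Filter Topology

theorem hasSum_half : HasSum (fun n : ℕ => (1 / 2 : ℝ) ^ (n + 1)) 1 := by
  have h := hasSum_geometric_two.mul_left (1 / 2 : ℝ)
  have h2 : (1 / 2 : ℝ) * 2 = 1 := by norm_num
  rw [h2] at h
  refine h.congr_fun ?_
  intro n
  rw [pow_succ]
  ring

section

variable {𝕜 : Type*} [RCLike 𝕜]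
variable {Y : Type*} [NormedAddCommGroup Y] [NormedSpace 𝕜 Y] [CompleteSpace Y]
variable {e : ℕ → Y} (b : UBD 𝕜 e) (p : Kd)

include b in
theorem block_up (he : IsKd 𝕜 p e) (x : ℕ → Y) (L : ℕ → Finset ℕ)
    (hL : ∀ m n, m ≠ n → Disjoint (L m) (L n)) (hx : ∀ m k, k ∉ L m → b.cf k (x m) = 0) (M : ℝ)
    (hM : ∀ m, ‖x m‖ ≤ M) : ∃ S : Y →L[𝕜] Y, ∀ m, S (e m) = x m := by
  classical
  obtain ⟨C, hC, he⟩ := he
  have hM0 : 0 ≤ M := (norm_nonneg _).trans (hM 0)
  have hLe : ∀ m, NN p (L m) (fun k => ‖b.cf k (x m)‖) ≤ C * M := by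
    intro m
    refine (he (L m) (fun k => b.cf k (x m))).2.trans (mul_le_mul_of_nonneg_left ?_ hC.le)
    rw [← b.P_finset]
    have : b.P (L m : Set ℕ) (x m) = x m := by
      apply b.ext
      intro k
      rw [b.cf_P]
      by_cases hk : k ∈ L m
      · rw [if_pos (Finset.mem_coe.mpr hk)]
      · rw [if_neg (fun h => hk (Finset.mem_coe.mp h)), hx m k hk]
    rw [this]
    exact hM m
  have hbd : ∀ (s : Finset ℕ) (a : ℕ → 𝕜),
      ‖∑ m ∈ s, a m • x m‖ ≤ C * (C * M * NN p s (fun m => ‖a m‖)) := by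
    intro s a
    set v := ∑ m ∈ s, a m • x m with hv
    have hcf : ∀ k, b.cf k v = ∑ m ∈ s, a m * b.cf k (x m) := by
      intro k
      rw [hv, map_sum]
      simp
    have h1 : v = ∑ k ∈ s.biUnion L, b.cf k v • e k := by
      rw [← b.P_finset]
      apply b.ext
      intro k
      rw [b.cf_P]
      by_cases hk : k ∈ s.biUnion L
      · rw [if_pos (Finset.mem_coe.mpr hk)]
      · rw [if_neg (fun h => hk (Finset.mem_coe.mp h)), hcf]
        apply Finset.sum_eq_zero
        intro m hm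
        rw [hx m k, mul_zero]
        intro hk'
        exact hk (Finset.mem_biUnion.mpr ⟨m, hm, hk'⟩)
    have h2 : ‖v‖ ≤ C * NN p (s.biUnion L) (fun k => ‖b.cf k v‖) := by
      conv_lhs => rw [h1]
      exact (he (s.biUnion L) (fun k => b.cf k v)).1
    refine h2.trans (mul_le_mul_of_nonneg_left ?_ hC.le)
    rw [NN_biUnion p s L (fun m _ n _ hmn => hL m n hmn)]
    have h3 : NN p s (fun m => NN p (L m) (fun k => ‖b.cf k v‖)) ≤
        NN p s (fun m => (C * M) * ‖a m‖) := by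
      apply NN_le
      intro m hm
      rw [abs_of_nonneg (NN_nonneg _ _ _), abs_of_nonneg (by positivity)]
      have h4 : NN p (L m) (fun k => ‖b.cf k v‖) =
          NN p (L m) (fun k => ‖a m‖ * ‖b.cf k (x m)‖) := by
        apply NN_congr
        intro k hk
        have h5 : b.cf k v = a m * b.cf k (x m) := by
          rw [hcf, Finset.sum_eq_single m]
          · intro n hn hnm
            rw [hx n k, mul_zero]
            intro hk'
            exact (Finset.disjoint_left.mp (hL n m hnm)) hk' hk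
          · intro h; exact absurd hm h
        rw [h5, norm_mul]
      rw [h4, NN_mul, abs_of_nonneg (norm_nonneg _), mul_comm]
      exact mul_le_mul_of_nonneg_right (hLe m) (norm_nonneg _)
    refine h3.trans ?_
    rw [NN_mul, abs_of_nonneg (by positivity)]
  obtain ⟨S, hS, -⟩ := exists_sumOp (E := Y) (E' := Y) (fun m => (b.cf m).smulRight (x m))
    (C * (C * M * (C * b.K))) (by have := b.K_nonneg; positivity) (fun s y => by
      simp only [ContinuousLinearMap.smulRight_apply]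
      refine (hbd s (fun m => b.cf m y)).trans ?_
      have h6 : NN p s (fun m => ‖b.cf m y‖) ≤ C * b.K * ‖y‖ := by
        refine (he s (fun m => b.cf m y)).2.trans ?_
        rw [← b.P_finset, mul_assoc]
        exact mul_le_mul_of_nonneg_left (b.norm_P_apply_le _ _) hC.le
      calc C * (C * M * NN p s (fun m => ‖b.cf m y‖)) ≤ C * (C * M * (C * b.K * ‖y‖)) := by
            gcongr
        _ = _ := by ring) (Set.range e) b.dense_span (by
      rintro _ ⟨k, rfl⟩
      apply summable_of_ne_finset_zero (s := {k})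
      intro j hj
      rw [Finset.mem_singleton] at hj
      simp [b.ne j k hj])
  refine ⟨S, fun m => ?_⟩
  have h1 := hS (e m)
  have h2 : HasSum (fun i => ((b.cf i).smulRight (x i)) (e m)) (x m) := by
    have := hasSum_ite_eq m (x m)
    refine this.congr_fun ?_
    intro i
    by_cases hi : i = m
    · subst hi; simp [b.self]
    · simp [hi, b.ne i m hi]
  exact h1.unique h2

theorem block_down (he : IsKd 𝕜 p e) (φ : ℕ → Y →L[𝕜] 𝕜) (H : ℕ → Finset ℕ)
    (hH : ∀ m n, m ≠ n → Disjoint (H m) (H n)) (c : ℝ) (hc : 0 ≤ c)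
    (hφ : ∀ m y, ‖φ m y‖ ≤ c * ‖b.P (H m : Set ℕ) y‖) :
    ∃ V : Y →L[𝕜] Y, ∀ y, HasSum (fun m => φ m y • e m) (V y) := by
  classical
  obtain ⟨C, hC, he⟩ := he
  obtain ⟨V, hV, -⟩ := exists_sumOp (E := Y) (E' := Y) (fun m => (φ m).smulRight (e m))
    (C * (c * C * (C * b.K))) (by have := b.K_nonneg; positivity) (fun s y => by
      simp only [ContinuousLinearMap.smulRight_apply]
      refine (he s (fun m => φ m y)).1.trans ?_
      have h1 : NN p s (fun m => ‖φ m y‖) ≤
          NN p s (fun m => c * C * NN p (H m) (fun k => ‖b.cf k y‖)) := by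
        apply NN_le
        intro m _
        rw [abs_of_nonneg (norm_nonneg _),
          abs_of_nonneg (mul_nonneg (by positivity) (NN_nonneg _ _ _))]
        refine (hφ m y).trans ?_
        rw [mul_assoc]
        apply mul_le_mul_of_nonneg_left _ hc
        rw [b.P_finset]
        exact (he (H m) (fun k => b.cf k y)).1
      rw [NN_mul, abs_of_nonneg (by positivity),
        ← NN_biUnion p s H (fun m _ n _ hmn => hH m n hmn)] at h1
      have h2 : NN p (s.biUnion H) (fun k => ‖b.cf k y‖) ≤ C * b.K * ‖y‖ := by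
        refine (he _ (fun k => b.cf k y)).2.trans ?_
        rw [← b.P_finset, mul_assoc]
        exact mul_le_mul_of_nonneg_left (b.norm_P_apply_le _ _) hC.le
      calc C * NN p s (fun m => ‖φ m y‖)
          ≤ C * (c * C * NN p (s.biUnion H) (fun k => ‖b.cf k y‖)) :=
            mul_le_mul_of_nonneg_left h1 hC.le
        _ ≤ C * (c * C * (C * b.K * ‖y‖)) := by gcongr
        _ = _ := by ring) (Set.range e) b.dense_span (by
      rintro _ ⟨k, rfl⟩
      apply summable_of_hasFiniteSupport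
      apply Set.Subsingleton.finite
      intro m hm n hn
      by_contra hmn
      have hz : ∀ l, ((φ l).smulRight (e l)) (e k) ≠ 0 → k ∈ H l := by
        intro l hl
        by_contra hkl
        apply hl
        have h3 := hφ l (e k)
        rw [b.P_basis_of_notMem (fun h => hkl (Finset.mem_coe.mp h)), norm_zero, mul_zero] at h3
        have h4 : φ l (e k) = 0 := norm_le_zero_iff.mp h3
        simp [h4]
      exact (Finset.disjoint_left.mp (hH m n hmn)) (hz m hm) (hz n hn))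
  exact ⟨V, fun y => by simpa using hV y⟩

omit [CompleteSpace Y] in
/-- operators close to the identity on the basis have a left inverse -/
theorem perturb [CompleteSpace Y] (T : Y →L[𝕜] Y) (C₁ θ : ℝ) (hC₁ : ∀ n, ‖b.cf n‖ ≤ C₁)
    (hT : ∀ n, ‖T (e n) - e n‖ ≤ θ * (1 / 2) ^ (n + 1)) (h : C₁ * θ < 1) :
    ∃ T' : Y →L[𝕜] Y, ∀ y, T' (T y) = y := by
  have hC0 : 0 ≤ C₁ := (norm_nonneg _).trans (hC₁ 0)
  have hθ0 : 0 ≤ θ := by
    have h1 := (norm_nonneg _).trans (hT 0)
    have h2 : (0 : ℝ) < (1 / 2) ^ (0 + 1) := by norm_num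
    exact nonneg_of_mul_nonneg_left h1 h2
  have hb : ∀ y, ‖(1 - T) y‖ ≤ (C₁ * θ) * ‖y‖ := by
    intro y
    have h1 : HasSum (fun n => b.cf n y • (1 - T) (e n)) ((1 - T) y) := by
      have := (b.hsum y).mapL (1 - T)
      simpa only [map_smul] using this
    have h2 : HasSum (fun n : ℕ => (C₁ * θ * ‖y‖) * (1 / 2 : ℝ) ^ (n + 1)) (C₁ * θ * ‖y‖) := by
      have := hasSum_half.mul_left (C₁ * θ * ‖y‖)
      rwa [mul_one] at this
    rw [← h1.tsum_eq]
    refine tsum_of_norm_bounded h2 (fun n => ?_)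
    rw [norm_smul]
    have h5 : ‖(1 - T) (e n)‖ ≤ θ * (1 / 2) ^ (n + 1) := by
      have : (1 - T) (e n) = -(T (e n) - e n) := by
        simp
      rw [this, norm_neg]
      exact hT n
    have h6 : ‖b.cf n y‖ ≤ C₁ * ‖y‖ :=
      ((b.cf n).le_opNorm y).trans (mul_le_mul_of_nonneg_right (hC₁ n) (norm_nonneg _))
    calc ‖b.cf n y‖ * ‖(1 - T) (e n)‖ ≤ (C₁ * ‖y‖) * (θ * (1 / 2) ^ (n + 1)) :=
          mul_le_mul h6 h5 (norm_nonneg _) (by positivity)
      _ = _ := by ring
  have hn : ‖(1 - T : Y →L[𝕜] Y)‖ < 1 :=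
    (ContinuousLinearMap.opNorm_le_bound _ (by positivity) hb).trans_lt h
  have hu : IsUnit T := by
    have := isUnit_one_sub_of_norm_lt_one hn
    rwa [sub_sub_cancel] at this
  obtain ⟨u, hu⟩ := hu
  refine ⟨(↑(u⁻¹) : Y →L[𝕜] Y), fun y => ?_⟩
  have h1 : (↑(u⁻¹) : Y →L[𝕜] Y) * T = 1 := by
    rw [← hu]; exact u.inv_mul
  exact congrArg (fun f : Y →L[𝕜] Y => f y) h1

theorem exists_factor_of_not_TV (he : IsKd 𝕜 p e) (R : Y →L[𝕜] Y) (hR : ¬ TV b R) :
    ∃ S₁ S₂ : Y →L[𝕜] Y, ∀ y, S₂ (R (S₁ y)) = y := by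
  classical
  have hK : 0 < b.K := zero_lt_one.trans_le b.one_le
  have he' := he
  obtain ⟨C, hC, he''⟩ := he'
  unfold TV at hR
  push Not at hR
  obtain ⟨δ, hδ, hR⟩ := hR
  obtain ⟨nn, y, hnn, hy⟩ := exists_blocks b R δ hδ hR
  obtain ⟨φ, hφ, z, hz⟩ := exists_subseq b (fun k => R (y k)) ‖R‖ (fun k => by
    calc ‖R (y k)‖ ≤ ‖R‖ * ‖y k‖ := R.le_opNorm _
      _ ≤ ‖R‖ * 1 := mul_le_mul_of_nonneg_left (hy k).1 (norm_nonneg _)
      _ = ‖R‖ := mul_one _)
  set G : ℕ → Finset ℕ := fun k => Finset.Ico (nn (φ k)) (nn (φ k + 1)) with hG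
  have hGk : ∀ k, ∀ i ∈ G k, k ≤ i := by
    intro k i hi
    have h1 : nn (φ k) ≤ i := (Finset.mem_Ico.mp hi).1
    exact (hφ.id_le k).trans ((hnn.id_le _).trans h1)
  have hGd : ∀ k l, k ≠ l → Disjoint (G k) (G l) := by
    have h1 : ∀ k l, k < l → Disjoint (G k) (G l) := by
      intro k l hkl
      rw [Finset.disjoint_left]
      intro i hi hi2
      have h2 := (Finset.mem_Ico.mp hi).2
      have h3 := (Finset.mem_Ico.mp hi2).1
      have h4 : nn (φ k + 1) ≤ nn (φ l) := hnn.monotone (hφ hkl)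
      omega
    intro k l hkl
    rcases lt_or_gt_of_ne hkl with h | h
    · exact h1 k l h
    · exact (h1 l k h).symm
  set δ₁ := δ / (4 * b.K) with hδ₁
  have hδ₁0 : 0 < δ₁ := by positivity
  have hGc : ∀ k, (G k : Set ℕ) = Set.Ico (nn (φ k)) (nn (φ k + 1)) := fun k => Finset.coe_Ico _ _
  -- constants
  obtain ⟨c, C', hc, hsn⟩ := he.semiNormalized p
  have hC'0 : 0 < C' := hc.trans_le ((hsn 0).1.trans (hsn 0).2)
  set C₁ := b.K / c with hC₁
  have hC₁0 : 0 < C₁ := by positivity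
  have hcf : ∀ n, ‖b.cf n‖ ≤ C₁ := by
    intro n
    have h1 := b.cf_bound n
    rw [hC₁, le_div_iff₀ hc]
    exact (mul_le_mul_of_nonneg_left (hsn n).1 (norm_nonneg _)).trans h1
  set η := δ₁ / (4 * C₁ * C') with hη
  have hη0 : 0 < η := by positivity
  obtain ⟨a, d, had, hda, hbig, hsmall⟩ := exists_selection b (fun k => R (y (φ k))) G hGk z hz δ₁
    hδ₁0 (fun k => by rw [hGc]; exact (hy (φ k)).2.2) η hη0
  set x : ℕ → Y := fun m => y (φ (d m)) - y (φ (a m)) with hx
  have hRx : ∀ m, R (y (φ (d m))) - R (y (φ (a m))) = R (x m) := fun m => (map_sub R _ _).symm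
  simp only [hRx] at hbig hsmall
  -- functionals
  have hne : ∀ m, ‖b.P (G (d m) : Set ℕ) (R (x m))‖ ≠ 0 := by
    intro m
    have := hbig m
    have h2 : 0 < δ₁ / 2 := by positivity
    exact (h2.trans_le this).ne'
  choose g hg1 hg2 using fun m => exists_dual_vector'' 𝕜 (b.P (G (d m) : Set ℕ) (R (x m)))
  set ψ : ℕ → Y →L[𝕜] 𝕜 := fun m =>
    ((‖b.P (G (d m) : Set ℕ) (R (x m))‖⁻¹ : ℝ) : 𝕜) • (g m).comp (b.P (G (d m) : Set ℕ)) with hψ
  have hψ1 : ∀ m, ψ m (R (x m)) = 1 := by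
    intro m
    show ((‖b.P (G (d m) : Set ℕ) (R (x m))‖⁻¹ : ℝ) : 𝕜) * g m (b.P (G (d m) : Set ℕ) (R (x m))) = 1
    rw [hg2, ← RCLike.ofReal_mul, inv_mul_cancel₀ (hne m), RCLike.ofReal_one]
  have hψ2 : ∀ m v, ‖ψ m v‖ ≤ (2 / δ₁) * ‖b.P (G (d m) : Set ℕ) v‖ := by
    intro m v
    show ‖((‖b.P (G (d m) : Set ℕ) (R (x m))‖⁻¹ : ℝ) : 𝕜) * g m (b.P (G (d m) : Set ℕ) v)‖ ≤ _
    rw [norm_mul, RCLike.norm_ofReal, abs_of_nonneg (inv_nonneg.mpr (norm_nonneg _))]
    have h1 : ‖g m (b.P (G (d m) : Set ℕ) v)‖ ≤ ‖b.P (G (d m) : Set ℕ) v‖ := by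
      calc _ ≤ ‖g m‖ * ‖b.P (G (d m) : Set ℕ) v‖ := (g m).le_opNorm _
        _ ≤ 1 * ‖b.P (G (d m) : Set ℕ) v‖ := mul_le_mul_of_nonneg_right (hg1 m) (norm_nonneg _)
        _ = _ := one_mul _
    have h2 : ‖b.P (G (d m) : Set ℕ) (R (x m))‖⁻¹ ≤ 2 / δ₁ := by
      rw [← inv_div]
      exact inv_anti₀ (by positivity) (hbig m)
    exact mul_le_mul h2 h1 (norm_nonneg _) (by positivity)
  obtain ⟨V, hV⟩ := block_down b p he ψ (fun m => G (d m)) (fun m n hmn => by
    apply hGd
    intro h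
    apply hmn
    have hdm : StrictMono d := fun m n h => (hda m n h).trans (had n)
    exact hdm.injective h) (2 / δ₁) (by positivity) hψ2
  obtain ⟨S, hS⟩ := block_up b p he x (fun m => G (a m) ∪ G (d m)) (by
      have h1 : ∀ m n, m < n → Disjoint (G (a m) ∪ G (d m)) (G (a n) ∪ G (d n)) := by
        intro m n hmn
        have h2 := hda m n hmn
        have h3 := had m
        have h4 := had n
        rw [Finset.disjoint_union_left, Finset.disjoint_union_right, Finset.disjoint_union_right]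
        exact ⟨⟨hGd _ _ (by omega), hGd _ _ (by omega)⟩, ⟨hGd _ _ (by omega), hGd _ _ (by omega)⟩⟩
      intro m n hmn
      rcases lt_or_gt_of_ne hmn with h | h
      · exact h1 m n h
      · exact (h1 n m h).symm) (by
      intro m k hk
      rw [Finset.mem_union, not_or] at hk
      have h1 : ∀ l, k ∉ G l → b.cf k (y (φ l)) = 0 := by
        intro l hl
        rw [← (hy (φ l)).2.1, b.cf_P_of_notMem]
        rw [← hGc]
        exact fun h => hl (Finset.mem_coe.mp h)
      show b.cf k (y (φ (d m)) - y (φ (a m))) = 0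
      rw [map_sub, h1 _ hk.1, h1 _ hk.2, sub_zero]) 2 (by
      intro m
      calc ‖y (φ (d m)) - y (φ (a m))‖ ≤ ‖y (φ (d m))‖ + ‖y (φ (a m))‖ := norm_sub_le _ _
        _ ≤ 2 := by linarith [(hy (φ (d m))).1, (hy (φ (a m))).1])
  -- the perturbation argument
  have hpert : ∀ n, ‖(V.comp (R.comp S)) (e n) - e n‖ ≤
      ((2 / δ₁) * η * C') * (1 / 2) ^ (n + 1) := by
    intro n
    have h1 : (V.comp (R.comp S)) (e n) = V (R (x n)) := by
      show V (R (S (e n))) = _
      rw [hS]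
    rw [h1]
    have h2 : HasSum (fun m => (ψ m (R (x n)) - (if m = n then 1 else 0)) • e m)
        (V (R (x n)) - e n) := by
      have h3 : HasSum (fun m => (if m = n then (1 : 𝕜) else 0) • e m) (e n) := by
        have := hasSum_ite_eq n (e n)
        refine this.congr_fun ?_
        intro i
        by_cases hi : i = n
        · subst hi; simp
        · simp [hi]
      have := (hV (R (x n))).sub h3
      refine this.congr_fun ?_
      intro m
      rw [sub_smul]
    have h4 : HasSum (fun m : ℕ => (((2 / δ₁) * η * C') * (1 / 2) ^ (n + 1)) *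
        (1 / 2 : ℝ) ^ (m + 1)) (((2 / δ₁) * η * C') * (1 / 2) ^ (n + 1)) := by
      have := hasSum_half.mul_left (((2 / δ₁) * η * C') * (1 / 2) ^ (n + 1))
      rwa [mul_one] at this
    rw [← h2.tsum_eq]
    refine tsum_of_norm_bounded h4 (fun m => ?_)
    rw [norm_smul]
    have h6 : ‖ψ m (R (x n)) - (if m = n then 1 else 0)‖ ≤
        (2 / δ₁) * (η * ((1 / 2) ^ (m + 1) * (1 / 2) ^ (n + 1))) := by
      by_cases hmn : m = n
      · subst hmn
        rw [hψ1, if_pos rfl, sub_self, norm_zero]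
        positivity
      · rw [if_neg hmn, sub_zero]
        refine (hψ2 m _).trans (mul_le_mul_of_nonneg_left ?_ (by positivity))
        rcases lt_or_gt_of_ne hmn with h | h
        · exact (hsmall m n h).1
        · rw [mul_comm ((1 / 2 : ℝ) ^ (m + 1))]
          exact (hsmall n m h).2
    calc _ ≤ ((2 / δ₁) * (η * ((1 / 2) ^ (m + 1) * (1 / 2) ^ (n + 1)))) * C' :=
          mul_le_mul h6 (hsn m).2 (norm_nonneg _) (by positivity)
      _ = _ := by ring
  obtain ⟨T', hT'⟩ := perturb b (V.comp (R.comp S)) C₁ ((2 / δ₁) * η * C') hcf hpert (by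
    rw [hη]
    have : C₁ * (2 / δ₁ * (δ₁ / (4 * C₁ * C')) * C') = 1 / 2 := by
      field_simp
      norm_num
    rw [this]
    norm_num)
  exact ⟨S, T'.comp V, fun y => hT' y⟩

end

end Pool.Agent.H658_UB
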