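import Mathlib
import Pool.Agent.H658_UB.Factor
import Pool.Agent.H658_UB.Cube

set_option autoImplicit false

/-!
Transfer of factorizations along a set of basis vectors on which the diagonal of an operator is
bounded away from zero.
-/

namespace Pool.Agent.H658_UB

open Filter Topology Cube

section

variable {𝕜 : Type*} [RCLike 𝕜]
variable {Y : Type*} [NormedAddCommGroup Y] [NormedSpace 𝕜 Y] [CompleteSpace Y]
variable {e : ℕ → Y} (b : UBD 𝕜 e) (p : Kd)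

theorem not_TV_of_diag (he : IsKd 𝕜 p e) (R : Y →L[𝕜] Y) (κ : ℝ) (hκ : 0 < κ)
    (h : ∀ n, κ ≤ ‖b.cf n (R (e n))‖) : ¬ TV b R := by
  obtain ⟨c, C', hc, hsn⟩ := he.semiNormalized p
  have hC'0 : 0 < C' := hc.trans_le ((hsn 0).1.trans (hsn 0).2)
  have hK : 0 < b.K := zero_lt_one.trans_le b.one_le
  intro hTV
  obtain ⟨n, hn⟩ := hTV (κ * c / (b.K * C')) (by positivity)
  set T := (b.P (Set.Ici n)).comp (R.comp (b.P (Set.Ici n))) with hT
  have h1 : b.cf n (T (e n)) = b.cf n (R (e n)) := by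
    show b.cf n (b.P (Set.Ici n) (R (b.P (Set.Ici n) (e n)))) = _
    rw [b.P_basis_of_mem (Set.mem_Ici.mpr le_rfl), b.cf_P_of_mem (Set.mem_Ici.mpr le_rfl)]
  have h2 : ‖b.cf n‖ * c ≤ b.K :=
    (mul_le_mul_of_nonneg_left (hsn n).1 (norm_nonneg _)).trans (b.cf_bound n)
  have h3 : κ ≤ ‖b.cf n‖ * (‖T‖ * C') := by
    calc κ ≤ ‖b.cf n (T (e n))‖ := by rw [h1]; exact h n
      _ ≤ ‖b.cf n‖ * ‖T (e n)‖ := (b.cf n).le_opNorm _
      _ ≤ ‖b.cf n‖ * (‖T‖ * C') := by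
          apply mul_le_mul_of_nonneg_left _ (norm_nonneg _)
          exact (T.le_opNorm _).trans (mul_le_mul_of_nonneg_left (hsn n).2 (norm_nonneg _))
  have h4 : κ * c ≤ b.K * (‖T‖ * C') := by
    calc κ * c ≤ (‖b.cf n‖ * (‖T‖ * C')) * c := mul_le_mul_of_nonneg_right h3 hc.le
      _ = (‖b.cf n‖ * c) * (‖T‖ * C') := by ring
      _ ≤ b.K * (‖T‖ * C') := mul_le_mul_of_nonneg_right h2 (by positivity)
  have h5 : κ * c / (b.K * C') ≤ ‖T‖ := by
    rw [div_le_iff₀ (by positivity)]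
    linarith
  exact absurd hn (not_lt.mpr h5)

/-- the coordinates of a vector tend to zero -/
theorem tendsto_cf (he : IsKd 𝕜 p e) (v : Y) : Tendsto (fun i => b.cf i v) atTop (𝓝 0) := by
  obtain ⟨c, C', hc, hsn⟩ := he.semiNormalized p
  rw [Metric.tendsto_atTop]
  intro ε hε
  obtain ⟨N, hN⟩ := exists_tail_nat b v (ε * c) (by positivity)
  refine ⟨N, fun i hi => ?_⟩
  have h1 := hN i hi ((({i} : Finset ℕ)) : Set ℕ) (by simp)
  rw [b.P_finset, Finset.sum_singleton, norm_smul] at h1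
  rw [dist_zero_right]
  have h2 : ‖b.cf i v‖ * c ≤ ‖b.cf i v‖ * ‖e i‖ :=
    mul_le_mul_of_nonneg_left (hsn i).1 (norm_nonneg _)
  exact lt_of_mul_lt_mul_right (h2.trans_lt h1) hc.le

variable {J : Type} {W : Type*} [NormedAddCommGroup W] [NormedSpace 𝕜 W] [CompleteSpace W]
variable {w : J → W} (bw : UBD 𝕜 w)

/-- multipliers supported on disjoint sets add up, whatever the signs -/
theorem sum_M_disjoint {ι : Type*} [Fintype ι] [DecidableEq ι] (F : ι → Finset J)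
    (hF : ∀ m n, m ≠ n → Disjoint (F m) (F n)) (μ : ι → J → 𝕜) (hμ : ∀ m j, ‖μ m j‖ ≤ 1)
    (hμ0 : ∀ m j, j ∉ F m → μ m j = 0) (ε : ι → Bool) (z : W) :
    ‖∑ m, sk 𝕜 (ε m) • bw.M (μ m) z‖ ≤ bw.K * ‖z‖ := by
  classical
  set ρ : J → 𝕜 := fun j => ∑ m, sk 𝕜 (ε m) * μ m j with hρ
  have hρ1 : ∀ j, ‖ρ j‖ ≤ 1 := by
    intro j
    by_cases h : ∃ m, j ∈ F m
    · obtain ⟨m, hm⟩ := h
      have : ρ j = sk 𝕜 (ε m) * μ m j := by
        rw [hρ]
        refine Finset.sum_eq_single m (fun n _ hnm => ?_) (fun h => absurd (Finset.mem_univ m) h)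
        rw [hμ0 n j (fun h => (Finset.disjoint_left.mp (hF n m hnm)) h hm), mul_zero]
      rw [this, norm_mul, norm_sk, one_mul]
      exact hμ m j
    · push Not at h
      have : ρ j = 0 := by
        rw [hρ]
        exact Finset.sum_eq_zero fun n _ => by rw [hμ0 n j (h n), mul_zero]
      rw [this, norm_zero]
      exact zero_le_one
  have h1 : ∑ m, sk 𝕜 (ε m) • bw.M (μ m) z = bw.M ρ z := by
    apply bw.ext
    intro j
    rw [bw.cf_M ρ hρ1, map_sum, hρ, Finset.sum_mul]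
    apply Finset.sum_congr rfl
    intro m _
    rw [map_smul, bw.cf_M (μ m) (hμ m), smul_eq_mul, mul_assoc]
  rw [h1]
  exact bw.norm_M_apply_le ρ hρ1 z

/-- localization of a factorization to disjoint finite sets of indices -/
theorem exists_localization (he : IsKd 𝕜 p e) (A : Set J) (U : Y →L[𝕜] W) (V : W →L[𝕜] Y)
    (hU : ∀ y j, j ∉ A → bw.cf j (U y) = 0) (hVU : ∀ y, V (U y) = y) :
    ∃ (i : ℕ → ℕ) (F : ℕ → Finset J), StrictMono i ∧ (∀ m n, m < n → Disjoint (F m) (F n)) ∧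
      (∀ m, ∀ j ∈ F m, j ∈ A) ∧
      ∀ m, 1 / 2 ≤ ‖∑ j ∈ F m, bw.cf j (U (e (i m))) * b.cf (i m) (V (w j))‖ := by
  classical
  obtain ⟨c, C', hc, hsn⟩ := he.semiNormalized p
  have hC'0 : 0 < C' := hc.trans_le ((hsn 0).1.trans (hsn 0).2)
  have hsum : ∀ k, HasSum (fun j => bw.cf j (U (e k)) * b.cf k (V (w j))) 1 := by
    intro k
    have h1 := ((bw.hsum (U (e k))).mapL V).mapL (b.cf k)
    rw [hVU, b.self] at h1
    refine h1.congr_fun ?_
    intro j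
    rw [map_smul, map_smul, smul_eq_mul]
  have key := exists_seq_of_forall_finset_exists (α := ℕ × Finset J)
    (fun x => (∀ j ∈ x.2, j ∈ A) ∧
      1 / 2 ≤ ‖∑ j ∈ x.2, bw.cf j (U (e x.1)) * b.cf x.1 (V (w j))‖)
    (fun x x' => x.1 < x'.1 ∧ Disjoint x.2 x'.2) (by
    intro s _
    set G := s.biUnion (fun x => x.2) with hG
    have ht : Tendsto (fun k => ∑ j ∈ G, (‖bw.cf j‖ * (‖U‖ * C')) * ‖b.cf k (V (w j))‖) atTop
        (𝓝 0) := by
      have h1 : Tendsto (fun k => ∑ j ∈ G, (‖bw.cf j‖ * (‖U‖ * C')) * ‖b.cf k (V (w j))‖) atTop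
          (𝓝 (∑ j ∈ G, (‖bw.cf j‖ * (‖U‖ * C')) * ‖(0 : 𝕜)‖)) :=
        tendsto_finsetSum _ fun j _ => ((tendsto_cf b p he (V (w j))).norm).const_mul _
      simpa using h1
    have ev1 : ∀ᶠ k in atTop,
        ∑ j ∈ G, (‖bw.cf j‖ * (‖U‖ * C')) * ‖b.cf k (V (w j))‖ < 1 / 4 :=
      ht.eventually (gt_mem_nhds (by norm_num))
    have ev2 : ∀ᶠ k in atTop, ∀ x ∈ s, x.1 < k := by
      rw [Finset.eventually_all]
      intro x _
      exact eventually_gt_atTop _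
    obtain ⟨k, hk1, hk2⟩ := (ev1.and ev2).exists
    have hG1 : ‖∑ j ∈ G, bw.cf j (U (e k)) * b.cf k (V (w j))‖ < 1 / 4 := by
      refine (norm_sum_le _ _).trans_lt (lt_of_le_of_lt (Finset.sum_le_sum fun j _ => ?_) hk1)
      rw [norm_mul]
      apply mul_le_mul_of_nonneg_right _ (norm_nonneg _)
      refine ((bw.cf j).le_opNorm _).trans (mul_le_mul_of_nonneg_left ?_ (norm_nonneg _))
      exact (U.le_opNorm _).trans (mul_le_mul_of_nonneg_left (hsn k).2 (norm_nonneg _))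
    have ev3 : ∀ᶠ F in (atTop : Filter (Finset J)),
        dist (∑ j ∈ F, bw.cf j (U (e k)) * b.cf k (V (w j))) 1 < 1 / 4 :=
      (Metric.tendsto_nhds.mp (hsum k)) (1 / 4) (by norm_num)
    obtain ⟨F₁, hF₁, hF₂⟩ := (ev3.and (eventually_ge_atTop G)).exists
    refine ⟨(k, (F₁ \ G).filter (fun j => j ∈ A)), ⟨fun j hj => (Finset.mem_filter.mp hj).2, ?_⟩,
      fun x hx => ⟨hk2 x hx, ?_⟩⟩
    · show 1 / 2 ≤ ‖∑ j ∈ (F₁ \ G).filter (fun j => j ∈ A),
        bw.cf j (U (e k)) * b.cf k (V (w j))‖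
      have h1 : ∑ j ∈ (F₁ \ G).filter (fun j => j ∈ A), bw.cf j (U (e k)) * b.cf k (V (w j)) =
          ∑ j ∈ F₁ \ G, bw.cf j (U (e k)) * b.cf k (V (w j)) := by
        apply Finset.sum_filter_of_ne
        intro j _ hj
        by_contra hjA
        exact hj (by rw [hU _ _ hjA, zero_mul])
      have h2 : ∑ j ∈ F₁ \ G, bw.cf j (U (e k)) * b.cf k (V (w j)) =
          1 + ((∑ j ∈ F₁, bw.cf j (U (e k)) * b.cf k (V (w j))) - 1) -
          ∑ j ∈ G, bw.cf j (U (e k)) * b.cf k (V (w j)) := by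
        rw [← Finset.sum_sdiff (Finset.le_iff_subset.mp hF₂)]
        ring
      rw [h1, h2]
      rw [dist_eq_norm] at hF₁
      have a1 := norm_sub_norm_le (1 : 𝕜) (-((∑ j ∈ F₁, bw.cf j (U (e k)) * b.cf k (V (w j))) - 1))
      rw [norm_neg, sub_neg_eq_add, norm_one] at a1
      have a2 := norm_sub_norm_le (1 + ((∑ j ∈ F₁, bw.cf j (U (e k)) * b.cf k (V (w j))) - 1))
        (∑ j ∈ G, bw.cf j (U (e k)) * b.cf k (V (w j)))
      linarith
    · show Disjoint x.2 ((F₁ \ G).filter (fun j => j ∈ A))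
      rw [Finset.disjoint_left]
      intro j hj hj2
      have h1 := (Finset.mem_sdiff.mp (Finset.mem_filter.mp hj2).1).2
      exact h1 (Finset.mem_biUnion.mpr ⟨x, hx, hj⟩))
  obtain ⟨f, hf1, hf2⟩ := key
  exact ⟨fun n => (f n).1, fun n => (f n).2, fun m n h => (hf2 m n h).1,
    fun m n h => (hf2 m n h).2, fun m => (hf1 m).1, fun m => (hf1 m).2⟩

/-- choice of multipliers on a finite set -/
theorem exists_mult (F : Finset J) (Tp : W →L[𝕜] W) (hTp : ∀ j ∈ F, 1 / 2 ≤ ‖bw.cf j (Tp (w j))‖)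
    (c d : J → 𝕜) (h : 1 / 2 ≤ ‖∑ j ∈ F, c j * d j‖) :
    ∃ l μ : J → 𝕜, (∀ j, ‖l j‖ ≤ 1) ∧ (∀ j, ‖μ j‖ ≤ 1) ∧ (∀ j, j ∉ F → l j = 0) ∧
      (∀ j, j ∉ F → μ j = 0) ∧
      1 / 4 ≤ ‖∑ i ∈ F, ∑ j ∈ F, (μ i * l j) * (d i * c j * bw.cf i (Tp (w j)))‖ := by
  classical
  set z : J → 𝕜 := fun j => c j * d j * bw.cf j (Tp (w j)) with hz
  set θ : J → 𝕜 := fun j => if z j = 0 then 0 else (starRingEnd 𝕜) (z j) / (‖z j‖ : 𝕜) with hθ
  have hθ1 : ∀ j, ‖θ j‖ ≤ 1 := by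
    intro j
    rw [hθ]
    dsimp only
    split_ifs with h0
    · simp
    · rw [norm_div, RCLike.norm_conj, RCLike.norm_ofReal, abs_of_nonneg (norm_nonneg _),
        div_self (norm_ne_zero_iff.mpr h0)]
  have hθ2 : ∀ j, θ j * z j = (‖z j‖ : 𝕜) := by
    intro j
    rw [hθ]
    dsimp only
    split_ifs with h0
    · rw [h0]; simp
    · have h1 : ((‖z j‖ : ℝ) : 𝕜) ≠ 0 := by
        rw [RCLike.ofReal_ne_zero]; exact norm_ne_zero_iff.mpr h0
      rw [div_mul_eq_mul_div, RCLike.conj_mul, div_eq_iff h1, sq]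
  obtain ⟨ε, hε⟩ := exists_sign (𝕜 := 𝕜) (ι := F)
    (fun i j : F => θ j * (d i * c j * bw.cf i (Tp (w j))))
  have hdiag : ∑ i : F, θ i * (d i * c i * bw.cf i (Tp (w i))) = ((∑ i ∈ F, ‖z i‖ : ℝ) : 𝕜) := by
    rw [RCLike.ofReal_sum, ← Finset.sum_coe_sort F]
    apply Finset.sum_congr rfl
    intro i _
    rw [← hθ2, hz]
    ring
  have hlow : 1 / 4 ≤ ∑ i ∈ F, ‖z i‖ := by
    have h1 : ‖∑ j ∈ F, c j * d j‖ ≤ ∑ j ∈ F, ‖c j * d j‖ := norm_sum_le _ _
    have h2 : ∑ j ∈ F, ‖c j * d j‖ * (1 / 2) ≤ ∑ i ∈ F, ‖z i‖ := by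
      apply Finset.sum_le_sum
      intro j hj
      rw [hz]
      dsimp only
      rw [norm_mul (c j * d j) (bw.cf j (Tp (w j)))]
      exact mul_le_mul_of_nonneg_left (hTp j hj) (norm_nonneg (c j * d j))
    rw [← Finset.sum_mul] at h2
    linarith
  rw [hdiag, RCLike.norm_ofReal,
    abs_of_nonneg (Finset.sum_nonneg fun i _ => norm_nonneg (z i))] at hε
  refine ⟨fun j => if hj : j ∈ F then sk 𝕜 (ε ⟨j, hj⟩) * θ j else 0,
    fun j => if hj : j ∈ F then sk 𝕜 (ε ⟨j, hj⟩) else 0, ?_, ?_, ?_, ?_, ?_⟩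
  · intro j
    dsimp only
    split_ifs with hj
    · rw [norm_mul, norm_sk, one_mul]; exact hθ1 j
    · simp
  · intro j
    dsimp only
    split_ifs with hj
    · exact norm_sk_le _
    · simp
  · intro j hj; dsimp only; rw [dif_neg hj]
  · intro j hj; dsimp only; rw [dif_neg hj]
  · refine hlow.trans (hε.trans (le_of_eq ?_))
    congr 1
    rw [← Finset.sum_coe_sort F]
    apply Finset.sum_congr rfl
    intro i _
    rw [← Finset.sum_coe_sort F]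
    apply Finset.sum_congr rfl
    intro j _
    dsimp only
    rw [dif_pos i.2, dif_pos j.2, smul_eq_mul]
    ring

end

end Pool.Agent.H658_UB
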