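import Mathlib
import Pool.Agent.H658_UB.Cpt
import Pool.Agent.H658_UB.Localize

set_option autoImplicit false
set_option maxHeartbeats 400000

/-!
Averages over signs, and assembling finite pieces into one operator.
-/

namespace Pool.Agent.H658_UB

open Filter Topology Cube

section

variable {𝕜 : Type*} [RCLike 𝕜]
variable {J : Type} {W : Type*} [NormedAddCommGroup W] [NormedSpace 𝕜 W] [CompleteSpace W]
variable {w : J → W} (bw : UBD 𝕜 w)

theorem M_finset (F : Finset J) (l : J → 𝕜) (hl : ∀ j, ‖l j‖ ≤ 1) (hl0 : ∀ j, j ∉ F → l j = 0)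
    (v : W) : bw.M l v = ∑ j ∈ F, (l j * bw.cf j v) • w j := by
  have h3 := bw.M_hasSum l hl v
  have h4 : HasSum (fun j => (l j * bw.cf j v) • w j) (∑ j ∈ F, (l j * bw.cf j v) • w j) := by
    apply hasSum_sum_of_ne_finset_zero
    intro j hj
    rw [hl0 j hj, zero_mul, zero_smul]
  exact h3.unique h4

/-- a projection is an average of operators factoring through `S`; one of them does at least as
well -/
theorem exists_avg (F : Finset J) (S : W →L[𝕜] W) (hS : ∀ j ∈ F, 1 / 2 ≤ ‖bw.cf j (S (w j))‖)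
    (z : W) (f : W →L[𝕜] 𝕜) :
    ∃ l μ : J → 𝕜, (∀ j, ‖l j‖ ≤ 1) ∧ (∀ j, ‖μ j‖ ≤ 1) ∧ (∀ j, j ∉ F → l j = 0) ∧
      (∀ j, j ∉ F → μ j = 0) ∧
      (1 / 2) * ‖f (bw.P (F : Set J) z)‖ ≤ ‖f (bw.M μ (S (bw.M l z)))‖ := by
  classical
  obtain ⟨ε, hε⟩ := exists_sign (𝕜 := 𝕜) (ι := F)
    (fun i j : F => ((1 / 2 : 𝕜) / bw.cf i (S (w i))) * (f (w i) * (bw.cf i (S (w j)) * bw.cf j z)))
  have hd : ∀ j ∈ F, bw.cf j (S (w j)) ≠ 0 := by
    intro j hj h0
    have := hS j hj
    rw [h0, norm_zero] at this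
    norm_num at this
  have hdiag : ∑ i : F, ((1 / 2 : 𝕜) / bw.cf i (S (w i))) *
      (f (w i) * (bw.cf i (S (w i)) * bw.cf i z)) = (1 / 2 : 𝕜) * f (bw.P (F : Set J) z) := by
    rw [bw.P_finset, map_sum, Finset.mul_sum, ← Finset.sum_coe_sort F]
    apply Finset.sum_congr rfl
    intro i _
    rw [map_smul, smul_eq_mul]
    have := hd i i.2
    field_simp
  rw [hdiag] at hε
  have hl1 : ∀ j, ‖(if hj : j ∈ F then sk 𝕜 (ε ⟨j, hj⟩) else 0 : 𝕜)‖ ≤ 1 := by
    intro j
    split_ifs with hj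
    · exact norm_sk_le _
    · simp
  have hμ1 : ∀ j, ‖(if hj : j ∈ F then sk 𝕜 (ε ⟨j, hj⟩) * ((1 / 2 : 𝕜) / bw.cf j (S (w j)))
      else 0 : 𝕜)‖ ≤ 1 := by
    intro j
    split_ifs with hj
    · rw [norm_mul, norm_sk, one_mul, norm_div]
      have h1 := hS j hj
      have h2 : (0 : ℝ) < ‖bw.cf j (S (w j))‖ := lt_of_lt_of_le (by norm_num) h1
      rw [div_le_one h2]
      simpa using h1
    · simp
  refine ⟨fun j => if hj : j ∈ F then sk 𝕜 (ε ⟨j, hj⟩) else 0,
    fun j => if hj : j ∈ F then sk 𝕜 (ε ⟨j, hj⟩) * ((1 / 2 : 𝕜) / bw.cf j (S (w j))) else 0,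
    hl1, hμ1, fun j hj => dif_neg hj, fun j hj => dif_neg hj, ?_⟩
  have hlhs : (1 / 2) * ‖f (bw.P (F : Set J) z)‖ = ‖(1 / 2 : 𝕜) * f (bw.P (F : Set J) z)‖ := by
    rw [norm_mul]
    simp
  rw [hlhs]
  refine hε.trans (le_of_eq ?_)
  congr 1
  rw [M_finset bw F _ hμ1 (fun j hj => dif_neg hj), map_sum, ← Finset.sum_coe_sort F]
  apply Finset.sum_congr rfl
  intro i _
  rw [M_finset bw F _ hl1 (fun j hj => dif_neg hj), map_sum, map_sum, map_smul, smul_eq_mul,
    ← Finset.sum_coe_sort F, Finset.mul_sum, Finset.sum_mul]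
  apply Finset.sum_congr rfl
  intro j _
  rw [dif_pos i.2, dif_pos j.2, map_smul, map_smul, smul_eq_mul, smul_eq_mul]
  ring

variable {Y : Type*} [NormedAddCommGroup Y] [NormedSpace 𝕜 Y] [CompleteSpace Y]
variable {I : Type} {e : I → Y} (b : UBD 𝕜 e)

/-- projections onto disjoint finite sets add up, whatever the signs -/
theorem sum_P_disjoint {ι : Type*} [Fintype ι] [DecidableEq ι] (G : ι → Finset I)
    (hG : ∀ m n, m ≠ n → Disjoint (G m) (G n)) (ε : ι → Bool) (z : Y) :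
    ‖∑ m, sk 𝕜 (ε m) • b.P (G m : Set I) z‖ ≤ b.K * ‖z‖ := by
  classical
  have h1 := sum_M_disjoint b G hG (fun m j => if j ∈ (G m : Set I) then 1 else 0)
    (fun m j => by split_ifs <;> simp)
    (fun m j hj => if_neg (fun h => hj (Finset.mem_coe.mp h))) ε z
  refine (le_of_eq ?_).trans h1
  congr 1
  apply Finset.sum_congr rfl
  intro m _
  congr 1
  apply b.ext
  intro j
  rw [b.cf_M _ (fun j => by split_ifs <;> simp), b.cf_P]
  split_ifs <;> simp

theorem exists_assemble (Tp : W →L[𝕜] W) (i : Y →L[𝕜] W) (q : W →L[𝕜] Y) (c C : ℝ) (hc : 0 < c)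
    (h : ∀ (G : Finset I) (F : Finset J), ∃ (G' : Finset I) (F' : Finset J) (l μ : J → 𝕜) (z : Y)
      (f : Y →L[𝕜] 𝕜), Disjoint G' G ∧ Disjoint F' F ∧ (∀ j, ‖l j‖ ≤ 1) ∧ (∀ j, ‖μ j‖ ≤ 1) ∧
      (∀ j, j ∉ F' → l j = 0) ∧ (∀ j, j ∉ F' → μ j = 0) ∧ ‖z‖ ≤ C ∧ ‖f‖ ≤ C ∧
      c ≤ ‖f (b.P (G' : Set I) (q (bw.M μ (Tp (bw.M l (i (b.P (G' : Set I) z)))))))‖) :
    ∃ (U : Y →L[𝕜] W) (V : W →L[𝕜] Y), ¬ IsCompactOperator (V.comp (Tp.comp U)) := by
  classical
  obtain ⟨t, ht1, ht2⟩ := exists_seq_of_forall_finset_exists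
    (α := Finset I × Finset J × (J → 𝕜) × (J → 𝕜) × Y × (Y →L[𝕜] 𝕜))
    (fun x => (∀ j, ‖x.2.2.1 j‖ ≤ 1) ∧ (∀ j, ‖x.2.2.2.1 j‖ ≤ 1) ∧
      (∀ j, j ∉ x.2.1 → x.2.2.1 j = 0) ∧ (∀ j, j ∉ x.2.1 → x.2.2.2.1 j = 0) ∧
      ‖x.2.2.2.2.1‖ ≤ C ∧ ‖x.2.2.2.2.2‖ ≤ C ∧
      c ≤ ‖x.2.2.2.2.2 (b.P (x.1 : Set I) (q (bw.M x.2.2.2.1 (Tp (bw.M x.2.2.1
        (i (b.P (x.1 : Set I) x.2.2.2.2.1)))))))‖)
    (fun x x' => Disjoint x.1 x'.1 ∧ Disjoint x.2.1 x'.2.1) (by
      intro s _
      obtain ⟨G', F', l, μ, z, f, h1, h2, h3⟩ :=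
        h (s.biUnion (fun x => x.1)) (s.biUnion (fun x => x.2.1))
      refine ⟨(G', F', l, μ, z, f), h3, fun x hx => ⟨?_, ?_⟩⟩
      · exact (h1.mono_right (Finset.subset_biUnion_of_mem (fun x => x.1) hx)).symm
      · exact (h2.mono_right (Finset.subset_biUnion_of_mem (fun x => x.2.1) hx)).symm)
  set G : ℕ → Finset I := fun n => (t n).1 with hGdef
  set F : ℕ → Finset J := fun n => (t n).2.1 with hFdef
  set l : ℕ → J → 𝕜 := fun n => (t n).2.2.1 with hldef
  set μ : ℕ → J → 𝕜 := fun n => (t n).2.2.2.1 with hμdef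
  set z : ℕ → Y := fun n => (t n).2.2.2.2.1 with hzdef
  set f : ℕ → Y →L[𝕜] 𝕜 := fun n => (t n).2.2.2.2.2 with hfdef
  have hG : ∀ m n, m ≠ n → Disjoint (G m) (G n) := by
    intro m n hmn
    rcases lt_or_gt_of_ne hmn with h | h
    · exact (ht2 m n h).1
    · exact ((ht2 n m h).1).symm
  have hF : ∀ m n, m ≠ n → Disjoint (F m) (F n) := by
    intro m n hmn
    rcases lt_or_gt_of_ne hmn with h | h
    · exact (ht2 m n h).2
    · exact ((ht2 n m h).2).symm
  have hl : ∀ n j, ‖l n j‖ ≤ 1 := fun n => (ht1 n).1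
  have hμ : ∀ n j, ‖μ n j‖ ≤ 1 := fun n => (ht1 n).2.1
  have hl0 : ∀ n j, j ∉ F n → l n j = 0 := fun n => (ht1 n).2.2.1
  have hμ0 : ∀ n j, j ∉ F n → μ n j = 0 := fun n => (ht1 n).2.2.2.1
  have hz : ∀ n, ‖z n‖ ≤ C := fun n => (ht1 n).2.2.2.2.1
  have hf : ∀ n, ‖f n‖ ≤ C := fun n => (ht1 n).2.2.2.2.2.1
  have hbig : ∀ n, c ≤ ‖f n (b.P (G n : Set I) (q (bw.M (μ n) (Tp (bw.M (l n)
      (i (b.P (G n : Set I) (z n))))))))‖ := fun n => (ht1 n).2.2.2.2.2.2
  have hbK := b.K_nonneg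
  have hwK := bw.K_nonneg
  have hGset : ∀ m n, m ≠ n → ((G m : Set I) ∩ (G n : Set I)) = ∅ := by
    intro m n hmn
    rw [← Set.disjoint_iff_inter_eq_empty, Finset.disjoint_coe]
    exact hG m n hmn
  -- the first operator
  obtain ⟨U, hU⟩ : ∃ U : Y →L[𝕜] W, ∀ y, HasSum (fun m => bw.M (l m) (i (b.P (G m : Set I) y)))
      (U y) := by
    obtain ⟨U, hU, -⟩ := exists_sumOp (E := Y) (E' := W)
      (fun m => (bw.M (l m)).comp (i.comp (b.P (G m : Set I))))
      (bw.K * (‖i‖ * b.K)) (by positivity) (fun s y => by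
        have h1 := Cube.diag_bound (𝕜 := 𝕜) (ι := s) i (fun m : s => b.P (G m : Set I) y)
          (fun m : s => bw.M (l m)) (b.K * ‖y‖) bw.K hwK
          (fun ε => sum_P_disjoint b (fun m : s => G m)
            (fun m n hmn => hG m n (fun h => hmn (Subtype.ext h))) ε y)
          (fun ε v => sum_M_disjoint bw (fun m : s => F m)
            (fun m n hmn => hF m n (fun h => hmn (Subtype.ext h))) (fun m : s => l m)
            (fun m => hl m) (fun m => hl0 m) ε v)
        rw [Finset.sum_coe_sort s (fun m => bw.M (l m) (i (b.P (G m : Set I) y)))] at h1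
        refine h1.trans (le_of_eq ?_)
        ring) (Set.range e) b.dense_span (by
        rintro _ ⟨k, rfl⟩
        apply summable_of_hasFiniteSupport
        apply Set.Subsingleton.finite
        intro m hm n hn
        by_contra hmn
        have hz : ∀ m, ((bw.M (l m)).comp (i.comp (b.P (G m : Set I)))) (e k) ≠ 0 → k ∈ G m := by
          intro m hm
          by_contra hk
          apply hm
          show bw.M (l m) (i (b.P (G m : Set I) (e k))) = 0
          rw [b.P_basis_of_notMem (fun h => hk (Finset.mem_coe.mp h)), map_zero, map_zero]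
        exact (Finset.disjoint_left.mp (hG m n hmn)) (hz m hm) (hz n hn))
    exact ⟨U, hU⟩
  -- the second operator
  obtain ⟨V, hV⟩ : ∃ V : W →L[𝕜] Y, ∀ v, HasSum (fun m => b.P (G m : Set I) (q (bw.M (μ m) v)))
      (V v) := by
    obtain ⟨V, hV, -⟩ := exists_sumOp (E := W) (E' := Y)
      (fun m => (b.P (G m : Set I)).comp (q.comp (bw.M (μ m))))
      (b.K * (‖q‖ * bw.K)) (by positivity) (fun s v => by
        have h1 := Cube.diag_bound (𝕜 := 𝕜) (ι := s) q (fun m : s => bw.M (μ m) v)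
          (fun m : s => b.P (G m : Set I)) (bw.K * ‖v‖) b.K hbK
          (fun ε => sum_M_disjoint bw (fun m : s => F m)
            (fun m n hmn => hF m n (fun h => hmn (Subtype.ext h))) (fun m : s => μ m)
            (fun m => hμ m) (fun m => hμ0 m) ε v)
          (fun ε y => sum_P_disjoint b (fun m : s => G m)
            (fun m n hmn => hG m n (fun h => hmn (Subtype.ext h))) ε y)
        rw [Finset.sum_coe_sort s (fun m => b.P (G m : Set I) (q (bw.M (μ m) v)))] at h1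
        refine h1.trans (le_of_eq ?_)
        ring) (Set.range w) bw.dense_span (by
        rintro _ ⟨j, rfl⟩
        apply summable_of_hasFiniteSupport
        apply Set.Subsingleton.finite
        intro m hm n hn
        by_contra hmn
        have hz : ∀ m, ((b.P (G m : Set I)).comp (q.comp (bw.M (μ m)))) (w j) ≠ 0 → j ∈ F m := by
          intro m hm
          by_contra hj
          apply hm
          show b.P (G m : Set I) (q (bw.M (μ m) (w j))) = 0
          rw [bw.M_basis (μ m) (hμ m), hμ0 m j hj, zero_smul, map_zero, map_zero]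
        exact (Finset.disjoint_left.mp (hF m n hmn)) (hz m hm) (hz n hn))
    exact ⟨V, hV⟩
  -- compressions
  have hU1 : ∀ m y, U (b.P (G m : Set I) y) = bw.M (l m) (i (b.P (G m : Set I) y)) := by
    intro m y
    refine (hU (b.P (G m : Set I) y)).unique ?_
    have h1 := hasSum_ite_eq m (bw.M (l m) (i (b.P (G m : Set I) y)))
    refine h1.congr_fun ?_
    intro n
    by_cases hn : n = m
    · subst hn
      rw [if_pos rfl, b.P_idem]
    · rw [if_neg hn, b.P_P, hGset n m hn, b.P_empty, map_zero, map_zero]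
  have hV1 : ∀ m v, b.P (G m : Set I) (V v) = b.P (G m : Set I) (q (bw.M (μ m) v)) := by
    intro m v
    refine ((hV v).mapL (b.P (G m : Set I))).unique ?_
    have h1 := hasSum_ite_eq m (b.P (G m : Set I) (q (bw.M (μ m) v)))
    refine h1.congr_fun ?_
    intro n
    by_cases hn : n = m
    · subst hn
      rw [if_pos rfl, b.P_idem]
    · rw [if_neg hn, b.P_P, hGset m n (Ne.symm hn), b.P_empty]
  refine ⟨U, V, fun hcomp => ?_⟩
  have hC0 : 0 ≤ C := (norm_nonneg _).trans (hz 0)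
  obtain ⟨G₀, hG₀⟩ := exists_tail_of_compact b (V.comp (Tp.comp U)) hcomp
    (c / (2 * (C * (b.K * C) + 1))) (by positivity)
  -- some block is disjoint from `G₀`
  obtain ⟨m, hm⟩ : ∃ m, Disjoint (G m) G₀ := by
    by_contra hcon
    push Not at hcon
    have h1 : ∀ m, ∃ k, k ∈ G m ∧ k ∈ G₀ := by
      intro m
      have := hcon m
      rw [Finset.not_disjoint_iff] at this
      exact this
    choose k hk1 hk2 using h1
    have hinj : Function.Injective k := by
      intro m n hmn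
      by_contra hne
      exact (Finset.disjoint_left.mp (hG m n hne)) (hk1 m) (hmn ▸ hk1 n)
    have hinf := Set.infinite_range_of_injective hinj
    exact hinf (G₀.finite_toSet.subset (by rintro _ ⟨m, rfl⟩; exact Finset.mem_coe.mpr (hk2 m)))
  have h1 := hG₀ (G m : Set I) (by rw [Finset.disjoint_coe]; exact hm)
    (b.P (G m : Set I) (z m))
  have h2 : b.P (G m : Set I) ((V.comp (Tp.comp U)) (b.P (G m : Set I) (z m))) =
      b.P (G m : Set I) (q (bw.M (μ m) (Tp (bw.M (l m) (i (b.P (G m : Set I) (z m))))))) := by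
    show b.P (G m : Set I) (V (Tp (U (b.P (G m : Set I) (z m))))) = _
    rw [hV1, hU1]
  rw [h2] at h1
  have h3 := hbig m
  have h4 : ‖f m (b.P (G m : Set I) (q (bw.M (μ m) (Tp (bw.M (l m)
      (i (b.P (G m : Set I) (z m))))))))‖ ≤ C * (c / (2 * (C * (b.K * C) + 1)) * (b.K * C)) := by
    refine ((f m).le_opNorm _).trans (mul_le_mul (hf m) (h1.trans ?_) (norm_nonneg _) hC0)
    apply mul_le_mul_of_nonneg_left _ (by positivity)
    exact (b.norm_P_apply_le _ _).trans (mul_le_mul_of_nonneg_left (hz m) hbK)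
  have h5 : C * (c / (2 * (C * (b.K * C) + 1)) * (b.K * C)) ≤ c / 2 := by
    have h6 : C * (c / (2 * (C * (b.K * C) + 1)) * (b.K * C)) =
        (c / 2) * ((C * (b.K * C)) / (C * (b.K * C) + 1)) := by
      have : (C * (b.K * C) + 1) ≠ 0 := by positivity
      field_simp
    rw [h6]
    have h7 : (C * (b.K * C)) / (C * (b.K * C) + 1) ≤ 1 := by
      rw [div_le_one (by positivity)]
      linarith
    calc _ ≤ (c / 2) * 1 := mul_le_mul_of_nonneg_left h7 (by positivity)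
      _ = c / 2 := mul_one _
  linarith

end

end Pool.Agent.H658_UB
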