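import Mathlib
import Pool.Agent.H658_UB.Gauge
import Pool.Agent.H658_UB.Cube

set_option autoImplicit false

/-!
The basis vectors on which the diagonal of `i ∘ q` (with `q` into and `i` out of `ℓ_1`, `ℓ_2` or
`c_0`) is bounded away from zero are equivalent to the unit vectors.
-/

namespace Pool.Agent.H658_UB

open Filter Topology Pool.Helper799.Te

section finite

variable {𝕜 : Type*} [RCLike 𝕜]
variable {ι κ E : Type*} [Fintype ι] [DecidableEq ι]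

omit [DecidableEq ι] in
theorem minkowski_sqrt (t : Finset κ) (a : ι → κ → ℝ) :
    Real.sqrt (∑ j, (∑ k ∈ t, a j k) ^ 2) ≤ ∑ k ∈ t, Real.sqrt (∑ j, (a j k) ^ 2) := by
  have h := norm_sum_le t (fun k => (WithLp.toLp 2 (fun j => a j k) : EuclideanSpace ℝ ι))
  have h1 : ∀ k, ‖(WithLp.toLp 2 (fun j => a j k) : EuclideanSpace ℝ ι)‖ =
      Real.sqrt (∑ j, (a j k) ^ 2) := by
    intro k
    rw [EuclideanSpace.norm_eq]
    simp
  have h2 : ‖∑ k ∈ t, (WithLp.toLp 2 (fun j => a j k) : EuclideanSpace ℝ ι)‖ =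
      Real.sqrt (∑ j, (∑ k ∈ t, a j k) ^ 2) := by
    rw [EuclideanSpace.norm_eq]
    simp
  rw [h2] at h
  simpa only [h1] using h

theorem lemmaK (t : Finset κ) (α : ι → E → 𝕜) (h : ι → κ → 𝕜) (ν : E → ℝ) (u : κ → E)
    (C₁ C₂ C₃ : ℝ) (hC₁ : 0 ≤ C₁) (hC₂ : 0 ≤ C₂) (hC₃ : 0 < C₃)
    (H1 : ∀ x (ε : ι → Bool), ∑ k ∈ t, ‖∑ j, ((sb (ε j) : ℝ) : 𝕜) * (α j x * h j k)‖ ≤ C₁ * ν x)
    (H2 : ∀ k ∈ t, ν (u k) ≤ C₂)
    (H3 : ∀ j, 1 / 4 ≤ ‖∑ k ∈ t, h j k * α j (u k)‖)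
    (H4 : ∀ j, ∀ k ∈ t, ‖α j (u k)‖ ≤ C₃) (x : E) :
    ∑ j, ‖α j x‖ ≤ (4 * ((4 * C₃) * ((32 / 9) * (C₁ * C₂)))) * ((32 / 9) * (C₁ * ν x)) := by
  -- square function
  have ha : ∀ x, ∑ k ∈ t, Real.sqrt (∑ j, ‖α j x * h j k‖ ^ 2) ≤ (32 / 9) * (C₁ * ν x) := by
    intro x
    have h1 : ∑ k ∈ t, (9 / 32) * Real.sqrt (∑ j, ‖α j x * h j k‖ ^ 2) ≤ C₁ * ν x := by
      calc _ ≤ ∑ k ∈ t, Av (fun ε : ι → Bool =>
            ‖∑ j, ((sb (ε j) : ℝ) : 𝕜) * (α j x * h j k)‖) :=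
            Finset.sum_le_sum fun k _ => khinC (fun j => α j x * h j k)
        _ = Av (fun ε : ι → Bool => ∑ k ∈ t,
            ‖∑ j, ((sb (ε j) : ℝ) : 𝕜) * (α j x * h j k)‖) := (Av_sum _ _).symm
        _ ≤ Av (fun _ : ι → Bool => C₁ * ν x) := Av_mono fun ε => H1 x ε
        _ = _ := Av_const _
    rw [← Finset.mul_sum] at h1
    linarith
  -- lower bound for the rows of h
  have hb : ∀ j, 1 / (4 * C₃) ≤ ∑ k ∈ t, ‖h j k‖ := by
    intro j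
    rw [div_le_iff₀ (by positivity)]
    have h1 : ‖∑ k ∈ t, h j k * α j (u k)‖ ≤ ∑ k ∈ t, ‖h j k‖ * C₃ := by
      refine (norm_sum_le _ _).trans (Finset.sum_le_sum fun k hk => ?_)
      rw [norm_mul]
      exact mul_le_mul_of_nonneg_left (H4 j k hk) (norm_nonneg _)
    rw [← Finset.sum_mul] at h1
    have := H3 j
    linarith
  have hc : ∀ x, Real.sqrt (∑ j, ‖α j x‖ ^ 2) ≤ (4 * C₃) * ((32 / 9) * (C₁ * ν x)) := by
    intro x
    have h1 : 1 / (4 * C₃) * Real.sqrt (∑ j, ‖α j x‖ ^ 2) ≤ (32 / 9) * (C₁ * ν x) := by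
      calc _ = Real.sqrt ((1 / (4 * C₃)) ^ 2 * ∑ j, ‖α j x‖ ^ 2) := by
            rw [Real.sqrt_mul (by positivity), Real.sqrt_sq (by positivity)]
        _ ≤ Real.sqrt (∑ j, (∑ k ∈ t, ‖α j x * h j k‖) ^ 2) := by
            apply Real.sqrt_le_sqrt
            rw [Finset.mul_sum]
            apply Finset.sum_le_sum
            intro j _
            rw [← mul_pow]
            apply pow_le_pow_left₀ (by positivity)
            have h2 : ∑ k ∈ t, ‖α j x * h j k‖ = (∑ k ∈ t, ‖h j k‖) * ‖α j x‖ := by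
              rw [Finset.sum_mul]
              apply Finset.sum_congr rfl
              intro k _
              rw [norm_mul, mul_comm]
            rw [h2]
            exact mul_le_mul_of_nonneg_right (hb j) (norm_nonneg _)
        _ ≤ ∑ k ∈ t, Real.sqrt (∑ j, ‖α j x * h j k‖ ^ 2) := minkowski_sqrt t _
        _ ≤ _ := ha x
    have h3 : Real.sqrt (∑ j, ‖α j x‖ ^ 2) =
        (4 * C₃) * (1 / (4 * C₃) * Real.sqrt (∑ j, ‖α j x‖ ^ 2)) := by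
      field_simp
    rw [h3]
    exact mul_le_mul_of_nonneg_left h1 (by positivity)
  have hd : (1 / 4) * ∑ j, ‖α j x‖ ≤
      ∑ k ∈ t, ∑ j, ‖α j x * h j k‖ * ‖α j (u k)‖ := by
    rw [Finset.sum_comm, Finset.mul_sum]
    apply Finset.sum_le_sum
    intro j _
    have h1 : ‖∑ k ∈ t, h j k * α j (u k)‖ ≤ ∑ k ∈ t, ‖h j k‖ * ‖α j (u k)‖ := by
      refine (norm_sum_le _ _).trans (le_of_eq ?_)
      apply Finset.sum_congr rfl
      intro k _
      rw [norm_mul]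
    have h2 : ∑ k ∈ t, ‖α j x * h j k‖ * ‖α j (u k)‖ =
        (∑ k ∈ t, ‖h j k‖ * ‖α j (u k)‖) * ‖α j x‖ := by
      rw [Finset.sum_mul]
      apply Finset.sum_congr rfl
      intro k _
      rw [norm_mul]
      ring
    rw [h2]
    exact mul_le_mul_of_nonneg_right ((H3 j).trans h1) (norm_nonneg _)
  have he : ∑ k ∈ t, ∑ j, ‖α j x * h j k‖ * ‖α j (u k)‖ ≤
      ∑ k ∈ t, Real.sqrt (∑ j, ‖α j x * h j k‖ ^ 2) *
        ((4 * C₃) * ((32 / 9) * (C₁ * C₂))) := by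
    apply Finset.sum_le_sum
    intro k hk
    refine (Real.sum_mul_le_sqrt_mul_sqrt _ _ _).trans ?_
    apply mul_le_mul_of_nonneg_left _ (Real.sqrt_nonneg _)
    refine (hc (u k)).trans ?_
    have := H2 k hk
    gcongr
  rw [← Finset.sum_mul] at he
  have hf : 0 ≤ (4 * C₃) * ((32 / 9) * (C₁ * C₂)) := by positivity
  have h1 := mul_le_mul_of_nonneg_right (ha x) hf
  have h2 := hd.trans (he.trans h1)
  linarith

theorem lemmaK2 (t : Finset κ) (α : ι → 𝕜) (h : ι → κ → 𝕜) (M c : ℝ)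
    (H1 : ∀ ε : ι → Bool, ∑ k ∈ t, ‖∑ j, Cube.sk 𝕜 (ε j) * (α j * h j k)‖ ^ 2 ≤ M)
    (H3 : ∀ j, c ≤ ∑ k ∈ t, ‖h j k‖ ^ 2) : c * ∑ j, ‖α j‖ ^ 2 ≤ M := by
  have h1 : ∑ ε : ι → Bool, ∑ k ∈ t, ‖∑ j, Cube.sk 𝕜 (ε j) * (α j * h j k)‖ ^ 2 ≤
      2 ^ Fintype.card ι * M := by
    refine (Finset.sum_le_sum fun ε _ => H1 ε).trans (le_of_eq ?_)
    rw [Finset.sum_const, Finset.card_univ, Fintype.card_fun, Fintype.card_bool, nsmul_eq_mul]
    push_cast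
    rfl
  rw [Finset.sum_comm] at h1
  simp only [Cube.sum_cube_norm_sq] at h1
  rw [← Finset.mul_sum] at h1
  have h2 := le_of_mul_le_mul_left h1 (by positivity)
  refine le_trans ?_ h2
  rw [Finset.sum_comm, Finset.mul_sum]
  apply Finset.sum_le_sum
  intro j _
  have h3 : ∑ k ∈ t, ‖α j * h j k‖ ^ 2 = (∑ k ∈ t, ‖h j k‖ ^ 2) * ‖α j‖ ^ 2 := by
    rw [Finset.sum_mul]
    apply Finset.sum_congr rfl
    intro k _
    rw [norm_mul, mul_pow, mul_comm]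
  rw [h3]
  exact mul_le_mul_of_nonneg_right (H3 j) (sq_nonneg _)

end finite

section

variable {𝕜 : Type*} [RCLike 𝕜]
variable {Y : Type*} [NormedAddCommGroup Y] [NormedSpace 𝕜 Y] [CompleteSpace Y]
variable {e : ℕ → Y} (b : UBD 𝕜 e)
variable {J : Type} {W : Type*} [NormedAddCommGroup W] [NormedSpace 𝕜 W] [CompleteSpace W]
variable {w : J → W} (bw : UBD 𝕜 w)

/-- coefficients are controlled in the gauge -/
theorem exists_gauge_cf (p : Kd) (he : IsKd 𝕜 p e) :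
    ∃ D : ℝ, 0 < D ∧ ∀ (t : Finset ℕ) (v : Y), NN p t (fun k => ‖b.cf k v‖) ≤ D * ‖v‖ := by
  obtain ⟨C, hC, he⟩ := he
  have hK : 0 < b.K := zero_lt_one.trans_le b.one_le
  refine ⟨C * b.K, by positivity, fun t v => ?_⟩
  refine (he t (fun k => b.cf k v)).2.trans ?_
  rw [← b.P_finset, mul_assoc]
  exact mul_le_mul_of_nonneg_left (b.norm_P_apply_le _ _) hC.le

omit [CompleteSpace Y] in
theorem exists_unimod (z : 𝕜) : ∃ θ : 𝕜, ‖θ‖ ≤ 1 ∧ θ * z = (‖z‖ : 𝕜) := by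
  by_cases h0 : z = 0
  · exact ⟨0, by simp, by simp [h0]⟩
  · refine ⟨(starRingEnd 𝕜) z / (‖z‖ : 𝕜), ?_, ?_⟩
    · rw [norm_div, RCLike.norm_conj, RCLike.norm_ofReal, abs_of_nonneg (norm_nonneg _),
        div_self (norm_ne_zero_iff.mpr h0)]
    · have h1 : ((‖z‖ : ℝ) : 𝕜) ≠ 0 := by
        rw [RCLike.ofReal_ne_zero]; exact norm_ne_zero_iff.mpr h0
      rw [div_mul_eq_mul_div, RCLike.conj_mul, div_eq_iff h1, sq]

omit [CompleteSpace Y] in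
/-- functionals on `c_0` are summable -/
theorem dual_inf (he : IsKd 𝕜 Kd.inf e) :
    ∃ D : ℝ, 0 < D ∧ ∀ (t : Finset ℕ) (F : Y →L[𝕜] 𝕜), ∑ k ∈ t, ‖F (e k)‖ ≤ D * ‖F‖ := by
  obtain ⟨C, hC, he⟩ := he
  refine ⟨C, hC, fun t F => ?_⟩
  choose θ hθ1 hθ2 using fun k => exists_unimod (F (e k))
  have h1 : F (∑ k ∈ t, θ k • e k) = ((∑ k ∈ t, ‖F (e k)‖ : ℝ) : 𝕜) := by
    rw [map_sum, RCLike.ofReal_sum]
    apply Finset.sum_congr rfl
    intro k _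
    rw [map_smul, smul_eq_mul, hθ2]
  have h2 : ‖F (∑ k ∈ t, θ k • e k)‖ = ∑ k ∈ t, ‖F (e k)‖ := by
    rw [h1, RCLike.norm_ofReal, abs_of_nonneg (Finset.sum_nonneg fun _ _ => norm_nonneg _)]
  rw [← h2]
  refine (F.le_opNorm _).trans ?_
  rw [mul_comm]
  apply mul_le_mul_of_nonneg_right _ (norm_nonneg _)
  refine (he t θ).1.trans ?_
  have h3 : NN Kd.inf t (fun k => ‖θ k‖) ≤ 1 := by
    simp only [NN]
    have : (t.sup fun k => ‖‖θ k‖‖₊) ≤ 1 := by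
      apply Finset.sup_le
      intro k _
      rw [← NNReal.coe_le_coe]
      simpa using hθ1 k
    exact_mod_cast this
  calc C * NN Kd.inf t (fun k => ‖θ k‖) ≤ C * 1 := mul_le_mul_of_nonneg_left h3 hC.le
    _ = C := mul_one _

omit [CompleteSpace Y] in
/-- functionals on `ℓ_2` are square summable -/
theorem dual_two (he : IsKd 𝕜 Kd.two e) :
    ∃ D : ℝ, 0 < D ∧ ∀ (t : Finset ℕ) (F : Y →L[𝕜] 𝕜),
      ∑ k ∈ t, ‖F (e k)‖ ^ 2 ≤ (D * ‖F‖) ^ 2 := by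
  obtain ⟨C, hC, he⟩ := he
  refine ⟨C, hC, fun t F => ?_⟩
  set S := ∑ k ∈ t, ‖F (e k)‖ ^ 2 with hS
  have hS0 : 0 ≤ S := Finset.sum_nonneg fun _ _ => sq_nonneg _
  have h1 : F (∑ k ∈ t, (starRingEnd 𝕜) (F (e k)) • e k) = ((S : ℝ) : 𝕜) := by
    rw [map_sum, hS, RCLike.ofReal_sum]
    apply Finset.sum_congr rfl
    intro k _
    rw [map_smul, smul_eq_mul, RCLike.conj_mul, RCLike.ofReal_pow]
  have h2 : S ≤ ‖F‖ * (C * Real.sqrt S) := by
    calc S = ‖F (∑ k ∈ t, (starRingEnd 𝕜) (F (e k)) • e k)‖ := by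
          rw [h1, RCLike.norm_ofReal, abs_of_nonneg hS0]
      _ ≤ ‖F‖ * ‖∑ k ∈ t, (starRingEnd 𝕜) (F (e k)) • e k‖ := F.le_opNorm _
      _ ≤ _ := by
          apply mul_le_mul_of_nonneg_left _ (norm_nonneg _)
          refine (he t _).1.trans (le_of_eq ?_)
          simp [NN, hS]
  by_cases h0 : S = 0
  · rw [h0]; positivity
  · have h3 : 0 < Real.sqrt S := Real.sqrt_pos.mpr (lt_of_le_of_ne hS0 (Ne.symm h0))
    have h4 : Real.sqrt S * Real.sqrt S = S := Real.mul_self_sqrt hS0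
    have h5 : Real.sqrt S ≤ C * ‖F‖ := by
      have : Real.sqrt S * Real.sqrt S ≤ (C * ‖F‖) * Real.sqrt S := by
        rw [h4]; linarith
      exact le_of_mul_le_mul_right this h3
    calc S = Real.sqrt S ^ 2 := by rw [sq, h4]
      _ ≤ (C * ‖F‖) ^ 2 := pow_le_pow_left₀ h3.le h5 2

/-- bounds for the coefficient functionals -/
theorem exists_cf_bound {J : Type} {W : Type*} [NormedAddCommGroup W] [NormedSpace 𝕜 W]
    {w : J → W} (bw : UBD 𝕜 w) (hw : SemiNormalized w) :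
    ∃ D : ℝ, 0 < D ∧ (∀ j, ‖bw.cf j‖ ≤ D) ∧ ∀ j, ‖w j‖ ≤ D := by
  obtain ⟨c, C, hc, h⟩ := hw
  have hK : 0 < bw.K := zero_lt_one.trans_le bw.one_le
  refine ⟨max (bw.K / c) C, lt_max_of_lt_left (by positivity), fun j => ?_, fun j => ?_⟩
  · refine le_max_of_le_left ?_
    rw [le_div_iff₀ hc]
    exact (mul_le_mul_of_nonneg_left (h j).1 (norm_nonneg _)).trans (bw.cf_bound j)
  · exact le_max_of_le_right (h j).2

/-- finite sections of the diagonal entries of `i ∘ q` -/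
theorem exists_section (i : Y →L[𝕜] W) (q : W →L[𝕜] Y) (s : Finset J)
    (hs : ∀ j ∈ s, 1 / 2 ≤ ‖bw.cf j (i (q (w j)))‖) :
    ∃ t : Finset ℕ, ∀ j ∈ s, 1 / 4 ≤ ‖∑ k ∈ t, b.cf k (q (w j)) * bw.cf j (i (e k))‖ := by
  have h1 : ∀ᶠ t in (atTop : Filter (Finset ℕ)), ∀ j ∈ s,
      1 / 4 ≤ ‖∑ k ∈ t, b.cf k (q (w j)) * bw.cf j (i (e k))‖ := by
    rw [Finset.eventually_all]
    intro j hj
    have h2 : HasSum (fun k => b.cf k (q (w j)) * bw.cf j (i (e k))) (bw.cf j (i (q (w j)))) := by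
      have h3 := ((b.hsum (q (w j))).mapL i).mapL (bw.cf j)
      refine h3.congr_fun ?_
      intro k
      rw [map_smul, map_smul, smul_eq_mul]
    have h4 : Tendsto (fun t : Finset ℕ => ‖∑ k ∈ t, b.cf k (q (w j)) * bw.cf j (i (e k))‖) atTop
        (𝓝 ‖bw.cf j (i (q (w j)))‖) := h2.norm
    have h5 : (1 / 4 : ℝ) < ‖bw.cf j (i (q (w j)))‖ := by
      have := hs j hj
      linarith
    exact (h4.eventually (lt_mem_nhds h5)).mono fun t ht => le_of_lt ht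
  exact h1.exists

end

end Pool.Agent.H658_UB
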