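import Mathlib
import Pool.Agent.H658_UB.BPart

set_option autoImplicit false
set_option maxHeartbeats 400000

/-!
The basis vectors on which the diagonal of `i ∘ q` (with `q` into and `i` out of `ℓ_1`, `ℓ_2` or
`c_0`) is bounded away from zero are equivalent to the unit vectors.
-/

namespace Pool.Agent.H658_UB

open Filter Topology Pool.Helper799.Te

section

variable {𝕜 : Type*} [RCLike 𝕜]
variable {Y : Type*} [NormedAddCommGroup Y] [NormedSpace 𝕜 Y] [CompleteSpace Y]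
variable {e : ℕ → Y} (b : UBD 𝕜 e)
variable {J : Type} {W : Type*} [NormedAddCommGroup W] [NormedSpace 𝕜 W] [CompleteSpace W]
variable {w : J → W} (bw : UBD 𝕜 w)

omit [CompleteSpace W] in
theorem signed_sum_le (B : Set J) (s : Finset B) (ε : s → Bool) (x : W) :
    ‖∑ j : s, Cube.sk 𝕜 (ε j) • (bw.cf j x • w j)‖ ≤ bw.K * ‖x‖ := by
  classical
  have h := bw.bd (s.map (Function.Embedding.subtype _))
    (fun j => if hj : ∃ h : j ∈ B, (⟨j, h⟩ : B) ∈ s then Cube.sk 𝕜 (ε ⟨⟨j, hj.1⟩, hj.2⟩) else 0)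
    (fun j => by
      split_ifs with h
      · exact Cube.norm_sk_le _
      · simp) x
  rw [Finset.sum_map, ← Finset.sum_coe_sort s] at h
  refine (le_of_eq ?_).trans h
  congr 1
  apply Finset.sum_congr rfl
  intro j _
  have hj : ∃ h : (j : B).1 ∈ B, (⟨(j : B).1, h⟩ : B) ∈ s := ⟨j.1.2, j.2⟩
  show _ = ((if hj : ∃ h : (j : B).1 ∈ B, (⟨(j : B).1, h⟩ : B) ∈ s then
    Cube.sk 𝕜 (ε ⟨⟨(j : B).1, hj.1⟩, hj.2⟩) else 0) * bw.cf (j : B).1 x) • w (j : B).1
  rw [dif_pos hj, smul_smul]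

omit [CompleteSpace Y] [CompleteSpace W] in
theorem exists_signed_dual (i : Y →L[𝕜] W) (B : Set J) (s : Finset B) (ε : s → Bool)
    (f : W →L[𝕜] 𝕜) : ∃ F : Y →L[𝕜] 𝕜, ‖F‖ ≤ ‖f‖ * (bw.K * ‖i‖) ∧
      ∀ y, F y = ∑ j : s, Cube.sk 𝕜 (ε j) * (f (w j) * bw.cf j (i y)) := by
  set F : Y →L[𝕜] 𝕜 :=
    (f.comp (∑ j : s, Cube.sk 𝕜 (ε j) • ((bw.cf j).smulRight (w j)))).comp i with hF
  have h1 : ∀ y, F y = f (∑ j : s, Cube.sk 𝕜 (ε j) • (bw.cf j (i y) • w j)) := by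
    intro y
    rw [hF]
    simp [ContinuousLinearMap.sum_apply]
  refine ⟨F, ?_, fun y => ?_⟩
  · apply ContinuousLinearMap.opNorm_le_bound _
      (mul_nonneg (norm_nonneg _) (mul_nonneg bw.K_nonneg (norm_nonneg _)))
    intro y
    rw [h1]
    refine (f.le_opNorm _).trans ?_
    rw [mul_assoc]
    apply mul_le_mul_of_nonneg_left _ (norm_nonneg _)
    refine (signed_sum_le bw B s ε (i y)).trans ?_
    rw [mul_assoc]
    exact mul_le_mul_of_nonneg_left (i.le_opNorm y) bw.K_nonneg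
  · rw [h1, map_sum]
    apply Finset.sum_congr rfl
    intro j _
    rw [map_smul, map_smul, smul_eq_mul, smul_eq_mul]
    ring

/-- signed sums and coefficients of the image -/
theorem signed_coeff (q : W →L[𝕜] Y) (B : Set J) (s : Finset B) (ε : s → Bool) (x : W) (k : ℕ) :
    ∑ j : s, Cube.sk 𝕜 (ε j) * (bw.cf j x * b.cf k (q (w j))) =
      b.cf k (q (∑ j : s, Cube.sk 𝕜 (ε j) • (bw.cf j x • w j))) := by
  rw [map_sum, map_sum]
  apply Finset.sum_congr rfl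
  intro j _
  rw [map_smul, map_smul, map_smul, map_smul, smul_eq_mul, smul_eq_mul]

theorem norm_q_signed (q : W →L[𝕜] Y) (B : Set J) (s : Finset B) (ε : s → Bool) (x : W) :
    ‖q (∑ j : s, Cube.sk 𝕜 (ε j) • (bw.cf j x • w j))‖ ≤ ‖q‖ * (bw.K * ‖x‖) :=
  (q.le_opNorm _).trans (mul_le_mul_of_nonneg_left (signed_sum_le bw B s ε x) (norm_nonneg _))

/-- the sum of the coefficients of a finite sum -/
theorem cf_sum (B : Set J) (s : Finset B) (a : B → 𝕜) (j : B) (hj : j ∈ s) :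
    bw.cf j (∑ k ∈ s, a k • w k) = a j := by
  classical
  rw [map_sum, Finset.sum_eq_single j]
  · rw [map_smul, bw.self, smul_eq_mul, mul_one]
  · intro k _ hkj
    rw [map_smul, bw.ne j k (fun h => hkj (Subtype.ext h.symm)), smul_zero]
  · intro h; exact absurd hj h

theorem exists_norming (v : W) : ∃ f : W →L[𝕜] 𝕜, ‖f‖ ≤ 1 ∧ ‖f v‖ = ‖v‖ := by
  obtain ⟨f, hf1, hf2⟩ := exists_dual_vector'' 𝕜 v
  exact ⟨f, hf1, by rw [hf2]; simp⟩

include b in
theorem bpart_one (he : IsKd 𝕜 Kd.one e) (hw : SemiNormalized w) (i : Y →L[𝕜] W) (q : W →L[𝕜] Y)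
    (B : Set J) (hB : ∀ j ∈ B, 1 / 2 ≤ ‖bw.cf j (i (q (w j)))‖) :
    IsKd 𝕜 Kd.one (fun j : B => w j) := by
  classical
  obtain ⟨Dg, hDg, hg⟩ := exists_gauge_cf b Kd.one he
  obtain ⟨De, hDe, he1, he2⟩ := exists_cf_bound b (he.semiNormalized _)
  obtain ⟨Dw, hDw, hw1, hw2⟩ := exists_cf_bound bw hw
  have hK : 0 ≤ bw.K := bw.K_nonneg
  set C₁ := Dg * (‖q‖ * bw.K) with hC₁
  set C₂ := ‖i‖ * De with hC₂
  set C₃ := Dw * (‖i‖ * De) + 1 with hC₃
  set C := (4 * ((4 * C₃) * ((32 / 9) * (C₁ * C₂)))) * ((32 / 9) * C₁) with hC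
  have hC₁0 : 0 ≤ C₁ := by positivity
  have hC₂0 : 0 ≤ C₂ := by positivity
  have hC₃0 : 0 < C₃ := by positivity
  have hC0 : 0 ≤ C := by positivity
  have key : ∀ (s : Finset B) (x : W), ∑ j : s, ‖bw.cf j x‖ ≤ C * ‖x‖ := by
    intro s x
    obtain ⟨t, ht⟩ := exists_section b bw i q (s.map (Function.Embedding.subtype _)) (by
      intro j hj
      obtain ⟨j', -, rfl⟩ := Finset.mem_map.mp hj
      exact hB _ j'.2)
    have h := lemmaK (𝕜 := 𝕜) (ι := s) t (fun (j : s) (x : W) => bw.cf j x)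
      (fun j k => b.cf k (q (w j))) (fun x => ‖x‖) (fun k => i (e k)) C₁ C₂ C₃ hC₁0 hC₂0 hC₃0
      (by
        intro x ε
        have h1 := hg t (q (∑ j : s, Cube.sk 𝕜 (ε j) • (bw.cf j x • w j)))
        simp only [NN, abs_norm] at h1
        have h2 : ∀ k ∈ t, ‖∑ j : s, ((sb (ε j) : ℝ) : 𝕜) * (bw.cf j x * b.cf k (q (w j)))‖ =
            ‖b.cf k (q (∑ j : s, Cube.sk 𝕜 (ε j) • (bw.cf j x • w j)))‖ := by
          intro k _
          rw [← signed_coeff]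
          rfl
        rw [Finset.sum_congr rfl h2]
        refine h1.trans ?_
        rw [hC₁, mul_assoc]
        refine mul_le_mul_of_nonneg_left ((norm_q_signed bw q B s ε x).trans (le_of_eq ?_)) hDg.le
        ring)
      (by
        intro k _
        exact (i.le_opNorm _).trans (mul_le_mul_of_nonneg_left (he2 k) (norm_nonneg _)))
      (by
        intro j
        exact ht j (Finset.mem_map.mpr ⟨j.1, j.2, rfl⟩))
      (by
        intro j k _
        have h1 : ‖bw.cf j (i (e k))‖ ≤ Dw * (‖i‖ * De) := by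
          refine ((bw.cf j).le_opNorm _).trans (mul_le_mul (hw1 j) ?_ (norm_nonneg _) hDw.le)
          exact (i.le_opNorm _).trans (mul_le_mul_of_nonneg_left (he2 k) (norm_nonneg _))
        linarith) x
    refine h.trans (le_of_eq ?_)
    rw [hC]
    ring
  refine ⟨max Dw (C + 1), lt_max_of_lt_left hDw, fun s a => ⟨?_, ?_⟩⟩
  · simp only [NN, abs_norm]
    refine (norm_sum_le _ _).trans ?_
    rw [Finset.mul_sum]
    apply Finset.sum_le_sum
    intro j _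
    rw [norm_smul, mul_comm]
    exact mul_le_mul_of_nonneg_right ((hw2 j).trans (le_max_left _ _)) (norm_nonneg _)
  · simp only [NN, abs_norm]
    have h := key s (∑ k ∈ s, a k • w k)
    have h2 : ∑ j : s, ‖bw.cf j (∑ k ∈ s, a k • w k)‖ = ∑ j ∈ s, ‖a j‖ := by
      rw [Finset.sum_coe_sort s (fun j : B => ‖bw.cf j (∑ k ∈ s, a k • w k)‖)]
      exact Finset.sum_congr rfl fun j hj => by rw [cf_sum bw B s a j hj]
    rw [h2] at h
    refine h.trans (mul_le_mul_of_nonneg_right ?_ (norm_nonneg _))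
    exact (le_max_right _ _).trans' (by linarith)

include b in
theorem bpart_inf (he : IsKd 𝕜 Kd.inf e) (hw : SemiNormalized w) (i : Y →L[𝕜] W) (q : W →L[𝕜] Y)
    (B : Set J) (hB : ∀ j ∈ B, 1 / 2 ≤ ‖bw.cf j (i (q (w j)))‖) :
    IsKd 𝕜 Kd.inf (fun j : B => w j) := by
  classical
  obtain ⟨Dd, hDd, hd⟩ := dual_inf he
  obtain ⟨De, hDe, he1, he2⟩ := exists_cf_bound b (he.semiNormalized _)
  obtain ⟨Dw, hDw, hw1, hw2⟩ := exists_cf_bound bw hw
  have hK : 0 ≤ bw.K := bw.K_nonneg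
  set C₁ := Dd * (bw.K * ‖i‖) with hC₁
  set C₂ := De * ‖q‖ with hC₂
  set C₃ := De * (‖q‖ * Dw) + 1 with hC₃
  set C := (4 * ((4 * C₃) * ((32 / 9) * (C₁ * C₂)))) * ((32 / 9) * C₁) with hC
  have hC₁0 : 0 ≤ C₁ := by positivity
  have hC₂0 : 0 ≤ C₂ := by positivity
  have hC₃0 : 0 < C₃ := by positivity
  have hC0 : 0 ≤ C := by positivity
  have key : ∀ (s : Finset B) (f : W →L[𝕜] 𝕜), ∑ j : s, ‖f (w j)‖ ≤ C * ‖f‖ := by
    intro s f
    obtain ⟨t, ht⟩ := exists_section b bw i q (s.map (Function.Embedding.subtype _)) (by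
      intro j hj
      obtain ⟨j', -, rfl⟩ := Finset.mem_map.mp hj
      exact hB _ j'.2)
    have h := lemmaK (𝕜 := 𝕜) (ι := s) t (fun (j : s) (f : W →L[𝕜] 𝕜) => f (w j))
      (fun j k => bw.cf j (i (e k))) (fun f => ‖f‖) (fun k => (b.cf k).comp q) C₁ C₂ C₃
      hC₁0 hC₂0 hC₃0
      (by
        intro f ε
        obtain ⟨F, hF1, hF2⟩ := exists_signed_dual bw i B s ε f
        have h1 := hd t F
        have h2 : ∀ k ∈ t, ‖∑ j : s, ((sb (ε j) : ℝ) : 𝕜) * (f (w j) * bw.cf j (i (e k)))‖ =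
            ‖F (e k)‖ := by
          intro k _
          rw [hF2]
          rfl
        rw [Finset.sum_congr rfl h2]
        refine h1.trans ?_
        rw [hC₁, mul_assoc]
        refine mul_le_mul_of_nonneg_left (hF1.trans (le_of_eq ?_)) hDd.le
        ring)
      (by
        intro k _
        exact (ContinuousLinearMap.opNorm_comp_le _ _).trans
          (mul_le_mul_of_nonneg_right (he1 k) (norm_nonneg _)))
      (by
        intro j
        have h1 := ht j (Finset.mem_map.mpr ⟨j.1, j.2, rfl⟩)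
        refine h1.trans (le_of_eq ?_)
        congr 1
        apply Finset.sum_congr rfl
        intro k _
        show _ = bw.cf j (i (e k)) * b.cf k (q (w j))
        rw [mul_comm])
      (by
        intro j k _
        have h1 : ‖b.cf k (q (w j))‖ ≤ De * (‖q‖ * Dw) := by
          refine ((b.cf k).le_opNorm _).trans (mul_le_mul (he1 k) ?_ (norm_nonneg _) hDe.le)
          exact (q.le_opNorm _).trans (mul_le_mul_of_nonneg_left (hw2 j) (norm_nonneg _))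
        show ‖b.cf k (q (w j))‖ ≤ _
        linarith) f
    refine h.trans (le_of_eq ?_)
    rw [hC]
    ring
  refine ⟨max Dw (C + 1), lt_max_of_lt_left hDw, fun s a => ⟨?_, ?_⟩⟩
  · obtain ⟨f, hf1, hf2⟩ := exists_norming (𝕜 := 𝕜) (∑ j ∈ s, a j • w j)
    rw [← hf2, map_sum]
    have h1 := key s f
    rw [Finset.sum_coe_sort s (fun j : B => ‖f (w j)‖)] at h1
    have h2 : ∀ j ∈ s, ‖f (a j • w j)‖ ≤ NN Kd.inf s (fun j => ‖a j‖) * ‖f (w j)‖ := by
      intro j hj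
      rw [map_smul, norm_smul]
      apply mul_le_mul_of_nonneg_right _ (norm_nonneg _)
      have := le_NN Kd.inf hj (fun j => ‖a j‖)
      rwa [abs_norm] at this
    refine (norm_sum_le _ _).trans ((Finset.sum_le_sum h2).trans ?_)
    rw [← Finset.mul_sum, mul_comm]
    apply mul_le_mul_of_nonneg_right _ (NN_nonneg _ _ _)
    calc ∑ j ∈ s, ‖f (w j)‖ ≤ C * ‖f‖ := h1
      _ ≤ C * 1 := mul_le_mul_of_nonneg_left hf1 hC0
      _ ≤ max Dw (C + 1) := le_max_of_le_right (by linarith)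
  · simp only [NN]
    have h0 : 0 ≤ max Dw (C + 1) * ‖∑ j ∈ s, a j • w j‖ := by positivity
    rw [← Real.coe_toNNReal _ h0, NNReal.coe_le_coe]
    apply Finset.sup_le
    intro j hj
    rw [← NNReal.coe_le_coe, Real.coe_toNNReal _ h0]
    simp only [nnnorm_norm, coe_nnnorm]
    have h1 : ‖bw.cf j (∑ k ∈ s, a k • w k)‖ ≤ Dw * ‖∑ k ∈ s, a k • w k‖ :=
      ((bw.cf j).le_opNorm _).trans (mul_le_mul_of_nonneg_right (hw1 j) (norm_nonneg _))
    rw [cf_sum bw B s a j hj] at h1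
    exact h1.trans (mul_le_mul_of_nonneg_right (le_max_left _ _) (norm_nonneg _))

include b in
theorem bpart_two (he : IsKd 𝕜 Kd.two e) (hw : SemiNormalized w) (i : Y →L[𝕜] W) (q : W →L[𝕜] Y)
    (B : Set J) (hB : ∀ j ∈ B, 1 / 2 ≤ ‖bw.cf j (i (q (w j)))‖) :
    IsKd 𝕜 Kd.two (fun j : B => w j) := by
  classical
  obtain ⟨Dg, hDg, hg⟩ := exists_gauge_cf b Kd.two he
  obtain ⟨Dd, hDd, hd⟩ := dual_two he
  obtain ⟨Dw, hDw, hw1, hw2⟩ := exists_cf_bound bw hw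
  have hK : 0 ≤ bw.K := bw.K_nonneg
  -- square sums of coefficients
  have hg2 : ∀ (t : Finset ℕ) (v : Y), ∑ k ∈ t, ‖b.cf k v‖ ^ 2 ≤ (Dg * ‖v‖) ^ 2 := by
    intro t v
    have h := hg t v
    simp only [NN] at h
    exact (Real.sqrt_le_left (by positivity)).mp h
  set G := Dg * (‖q‖ * Dw) + 1 with hG
  set H := Dd * (Dw * ‖i‖) + 1 with hH
  have hG0 : 0 < G := by positivity
  have hH0 : 0 < H := by positivity
  -- the two families of coefficients
  have hrow : ∀ (j : J) (t : Finset ℕ), ∑ k ∈ t, ‖b.cf k (q (w j))‖ ^ 2 ≤ G ^ 2 := by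
    intro j t
    refine (hg2 t (q (w j))).trans (pow_le_pow_left₀ (by positivity) ?_ 2)
    have : Dg * ‖q (w j)‖ ≤ Dg * (‖q‖ * Dw) := by
      apply mul_le_mul_of_nonneg_left _ hDg.le
      exact (q.le_opNorm _).trans (mul_le_mul_of_nonneg_left (hw2 j) (norm_nonneg _))
    linarith
  have hcol : ∀ (j : J) (t : Finset ℕ), ∑ k ∈ t, ‖bw.cf j (i (e k))‖ ^ 2 ≤ H ^ 2 := by
    intro j t
    have h1 := hd t ((bw.cf j).comp i)
    refine h1.trans (pow_le_pow_left₀ (by positivity) ?_ 2)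
    have : Dd * ‖(bw.cf j).comp i‖ ≤ Dd * (Dw * ‖i‖) := by
      apply mul_le_mul_of_nonneg_left _ hDd.le
      exact (ContinuousLinearMap.opNorm_comp_le _ _).trans
        (mul_le_mul_of_nonneg_right (hw1 j) (norm_nonneg _))
    linarith
  have hprod : ∀ (j : J) (t : Finset ℕ),
      1 / 4 ≤ ‖∑ k ∈ t, b.cf k (q (w j)) * bw.cf j (i (e k))‖ →
      (1 / (4 * H)) ^ 2 ≤ ∑ k ∈ t, ‖b.cf k (q (w j))‖ ^ 2 ∧
      (1 / (4 * G)) ^ 2 ≤ ∑ k ∈ t, ‖bw.cf j (i (e k))‖ ^ 2 := by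
    intro j t h
    have h1 : ‖∑ k ∈ t, b.cf k (q (w j)) * bw.cf j (i (e k))‖ ≤
        Real.sqrt (∑ k ∈ t, ‖b.cf k (q (w j))‖ ^ 2) *
        Real.sqrt (∑ k ∈ t, ‖bw.cf j (i (e k))‖ ^ 2) := by
      refine (norm_sum_le _ _).trans ?_
      simp only [norm_mul]
      exact Real.sum_mul_le_sqrt_mul_sqrt _ _ _
    set A := Real.sqrt (∑ k ∈ t, ‖b.cf k (q (w j))‖ ^ 2) with hA
    set A' := Real.sqrt (∑ k ∈ t, ‖bw.cf j (i (e k))‖ ^ 2) with hA'
    have hAA : A ^ 2 = ∑ k ∈ t, ‖b.cf k (q (w j))‖ ^ 2 :=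
      Real.sq_sqrt (Finset.sum_nonneg fun _ _ => sq_nonneg _)
    have hAA' : A' ^ 2 = ∑ k ∈ t, ‖bw.cf j (i (e k))‖ ^ 2 :=
      Real.sq_sqrt (Finset.sum_nonneg fun _ _ => sq_nonneg _)
    have hA0 : 0 ≤ A := Real.sqrt_nonneg _
    have hA'0 : 0 ≤ A' := Real.sqrt_nonneg _
    have hAG : A ≤ G := by
      rw [hA]
      exact Real.sqrt_le_iff.mpr ⟨hG0.le, hrow j t⟩
    have hAH : A' ≤ H := by
      rw [hA']
      exact Real.sqrt_le_iff.mpr ⟨hH0.le, hcol j t⟩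
    rw [← hAA, ← hAA']
    constructor
    · apply pow_le_pow_left₀ (by positivity)
      rw [div_le_iff₀ (by positivity)]
      have : A * A' ≤ A * H := mul_le_mul_of_nonneg_left hAH hA0
      linarith
    · apply pow_le_pow_left₀ (by positivity)
      rw [div_le_iff₀ (by positivity)]
      have : A * A' ≤ G * A' := mul_le_mul_of_nonneg_right hAG hA'0
      linarith
  -- lower estimate
  set M₁ := Dg * (‖q‖ * bw.K) with hM₁
  have key1 : ∀ (s : Finset B) (x : W), ∑ j : s, ‖bw.cf j x‖ ^ 2 ≤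
      ((4 * H) * M₁ * ‖x‖) ^ 2 := by
    intro s x
    obtain ⟨t, ht⟩ := exists_section b bw i q (s.map (Function.Embedding.subtype _)) (by
      intro j hj
      obtain ⟨j', -, rfl⟩ := Finset.mem_map.mp hj
      exact hB _ j'.2)
    have h := lemmaK2 (𝕜 := 𝕜) (ι := s) t (fun j : s => bw.cf j x)
      (fun j k => b.cf k (q (w j))) ((M₁ * ‖x‖) ^ 2) ((1 / (4 * H)) ^ 2)
      (by
        intro ε
        have h2 : ∀ k ∈ t, ‖∑ j : s, Cube.sk 𝕜 (ε j) * (bw.cf j x * b.cf k (q (w j)))‖ ^ 2 =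
            ‖b.cf k (q (∑ j : s, Cube.sk 𝕜 (ε j) • (bw.cf j x • w j)))‖ ^ 2 := by
          intro k _
          rw [← signed_coeff]
        rw [Finset.sum_congr rfl h2]
        refine (hg2 t _).trans (pow_le_pow_left₀ (by positivity) ?_ 2)
        rw [hM₁, mul_assoc]
        refine mul_le_mul_of_nonneg_left ((norm_q_signed bw q B s ε x).trans (le_of_eq ?_)) hDg.le
        ring)
      (by
        intro j
        exact (hprod j t (ht j (Finset.mem_map.mpr ⟨j.1, j.2, rfl⟩))).1)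
    have h3 : ∑ j : s, ‖bw.cf j x‖ ^ 2 =
        (4 * H) ^ 2 * ((1 / (4 * H)) ^ 2 * ∑ j : s, ‖bw.cf j x‖ ^ 2) := by
      field_simp
    rw [h3]
    calc _ ≤ (4 * H) ^ 2 * (M₁ * ‖x‖) ^ 2 := mul_le_mul_of_nonneg_left h (by positivity)
      _ = _ := by ring
  -- dual estimate
  set M₂ := Dd * (bw.K * ‖i‖) with hM₂
  have key2 : ∀ (s : Finset B) (f : W →L[𝕜] 𝕜), ∑ j : s, ‖f (w j)‖ ^ 2 ≤
      ((4 * G) * M₂ * ‖f‖) ^ 2 := by
    intro s f
    obtain ⟨t, ht⟩ := exists_section b bw i q (s.map (Function.Embedding.subtype _)) (by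
      intro j hj
      obtain ⟨j', -, rfl⟩ := Finset.mem_map.mp hj
      exact hB _ j'.2)
    have h := lemmaK2 (𝕜 := 𝕜) (ι := s) t (fun j : s => f (w j))
      (fun j k => bw.cf j (i (e k))) ((M₂ * ‖f‖) ^ 2) ((1 / (4 * G)) ^ 2)
      (by
        intro ε
        obtain ⟨F, hF1, hF2⟩ := exists_signed_dual bw i B s ε f
        have h2 : ∀ k ∈ t, ‖∑ j : s, Cube.sk 𝕜 (ε j) * (f (w j) * bw.cf j (i (e k)))‖ ^ 2 =
            ‖F (e k)‖ ^ 2 := by
          intro k _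
          rw [hF2]
        rw [Finset.sum_congr rfl h2]
        refine (hd t F).trans (pow_le_pow_left₀ (by positivity) ?_ 2)
        rw [hM₂, mul_assoc]
        refine mul_le_mul_of_nonneg_left (hF1.trans (le_of_eq ?_)) hDd.le
        ring)
      (by
        intro j
        exact (hprod j t (ht j (Finset.mem_map.mpr ⟨j.1, j.2, rfl⟩))).2)
    have h3 : ∑ j : s, ‖f (w j)‖ ^ 2 =
        (4 * G) ^ 2 * ((1 / (4 * G)) ^ 2 * ∑ j : s, ‖f (w j)‖ ^ 2) := by
      field_simp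
    rw [h3]
    calc _ ≤ (4 * G) ^ 2 * (M₂ * ‖f‖) ^ 2 := mul_le_mul_of_nonneg_left h (by positivity)
      _ = _ := by ring
  refine ⟨max ((4 * H) * M₁ + 1) ((4 * G) * M₂ + 1), lt_max_of_lt_left (by positivity),
    fun s a => ⟨?_, ?_⟩⟩
  · obtain ⟨f, hf1, hf2⟩ := exists_norming (𝕜 := 𝕜) (∑ j ∈ s, a j • w j)
    rw [← hf2, map_sum]
    have h1 := key2 s f
    rw [Finset.sum_coe_sort s (fun j : B => ‖f (w j)‖ ^ 2)] at h1
    have h2 : ‖∑ j ∈ s, f (a j • w j)‖ ≤ ∑ j ∈ s, ‖a j‖ * ‖f (w j)‖ := by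
      refine (norm_sum_le _ _).trans (le_of_eq ?_)
      apply Finset.sum_congr rfl
      intro j _
      rw [map_smul, norm_smul]
    refine h2.trans ((Real.sum_mul_le_sqrt_mul_sqrt _ _ _).trans ?_)
    rw [mul_comm]
    have h3 : Real.sqrt (∑ j ∈ s, ‖f (w j)‖ ^ 2) ≤ (4 * G) * M₂ + 1 := by
      rw [Real.sqrt_le_iff]
      refine ⟨by positivity, h1.trans (pow_le_pow_left₀ (by positivity) ?_ 2)⟩
      have : (4 * G) * M₂ * ‖f‖ ≤ (4 * G) * M₂ * 1 :=
        mul_le_mul_of_nonneg_left hf1 (by positivity)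
      linarith
    show Real.sqrt (∑ j ∈ s, ‖f (w j)‖ ^ 2) * Real.sqrt (∑ j ∈ s, ‖a j‖ ^ 2) ≤
      _ * Real.sqrt (∑ j ∈ s, ‖a j‖ ^ 2)
    exact mul_le_mul_of_nonneg_right (h3.trans (le_max_right _ _)) (Real.sqrt_nonneg _)
  · show Real.sqrt (∑ j ∈ s, ‖a j‖ ^ 2) ≤ _
    have h := key1 s (∑ k ∈ s, a k • w k)
    have h2 : ∑ j : s, ‖bw.cf j (∑ k ∈ s, a k • w k)‖ ^ 2 = ∑ j ∈ s, ‖a j‖ ^ 2 := by
      rw [Finset.sum_coe_sort s (fun j : B => ‖bw.cf j (∑ k ∈ s, a k • w k)‖ ^ 2)]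
      exact Finset.sum_congr rfl fun j hj => by rw [cf_sum bw B s a j hj]
    rw [h2] at h
    have h3 : Real.sqrt (∑ j ∈ s, ‖a j‖ ^ 2) ≤ (4 * H) * M₁ * ‖∑ k ∈ s, a k • w k‖ :=
      Real.sqrt_le_iff.mpr ⟨by positivity, h⟩
    refine h3.trans (mul_le_mul_of_nonneg_right ?_ (norm_nonneg _))
    exact (le_max_left _ _).trans' (by linarith)

include b in
/-- the three cases together -/
theorem bpart (p : Kd) (he : IsKd 𝕜 p e) (hw : SemiNormalized w) (i : Y →L[𝕜] W) (q : W →L[𝕜] Y)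
    (B : Set J) (hB : ∀ j ∈ B, 1 / 2 ≤ ‖bw.cf j (i (q (w j)))‖) :
    IsKd 𝕜 p (fun j : B => w j) := by
  cases p
  · exact bpart_one b bw he hw i q B hB
  · exact bpart_two b bw he hw i q B hB
  · exact bpart_inf b bw he hw i q B hB

end

end Pool.Agent.H658_UB
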