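import Mathlib
import Pool.Agent.H658_UB.Split

set_option autoImplicit false
set_option maxHeartbeats 400000

/-!
If `X` has a unique unconditional basis up to permutation, so does `X × 𝕜 ^ c`.
-/

namespace Pool.Agent.H658_UB

open Filter Topology

section

variable {𝕜 : Type*} [RCLike 𝕜]
variable {E : Type*} [NormedAddCommGroup E] [NormedSpace 𝕜 E]
variable {J I K : Type}

/-- closed hyperplanes are isomorphic, normalized case -/
theorem ker_equiv_ker_aux (f g : E →L[𝕜] 𝕜) (u : E) (hf : f u = 1) (hg : g u = 1) :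
    Nonempty (f.ker ≃L[𝕜] g.ker) := by
  have h1 : ∀ (f g : E →L[𝕜] 𝕜), f u = 1 → g u = 1 → ∀ x : f.ker,
      ((ContinuousLinearMap.id 𝕜 E - g.smulRight u).comp f.ker.subtypeL) x ∈ g.ker := by
    intro f g _ hg x
    show g ((x : E) - g (x : E) • u) = 0
    rw [map_sub, map_smul, hg, smul_eq_mul, mul_one, sub_self]
  refine ⟨ContinuousLinearEquiv.equivOfInverse
    (((ContinuousLinearMap.id 𝕜 E - g.smulRight u).comp f.ker.subtypeL).codRestrict g.ker
      (h1 f g hf hg))
    (((ContinuousLinearMap.id 𝕜 E - f.smulRight u).comp g.ker.subtypeL).codRestrict f.ker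
      (h1 g f hg hf)) ?_ ?_⟩
  · intro x
    apply Subtype.ext
    show ((x : E) - g (x : E) • u) - f ((x : E) - g (x : E) • u) • u = x
    have hx : f (x : E) = 0 := x.2
    rw [map_sub, map_smul, hf, hx, smul_eq_mul, mul_one, zero_sub, neg_smul, sub_neg_eq_add,
      sub_add_cancel]
  · intro x
    apply Subtype.ext
    show ((x : E) - f (x : E) • u) - g ((x : E) - f (x : E) • u) • u = x
    have hx : g (x : E) = 0 := x.2
    rw [map_sub, map_smul, hg, hx, smul_eq_mul, mul_one, zero_sub, neg_smul, sub_neg_eq_add,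
      sub_add_cancel]

theorem exists_common_nonzero (f g : E →L[𝕜] 𝕜) (hf : ∃ x, f x ≠ 0) (hg : ∃ x, g x ≠ 0) :
    ∃ u, f u ≠ 0 ∧ g u ≠ 0 := by
  obtain ⟨x, hx⟩ := hf
  obtain ⟨y, hy⟩ := hg
  by_cases h1 : g x = 0
  · by_cases h2 : f y = 0
    · refine ⟨x + y, ?_, ?_⟩
      · rw [map_add, h2, add_zero]; exact hx
      · rw [map_add, h1, zero_add]; exact hy
    · exact ⟨y, h2, hy⟩
  · exact ⟨x, hx, h1⟩

theorem ker_equiv_ker (f g : E →L[𝕜] 𝕜) (hf : ∃ x, f x ≠ 0) (hg : ∃ x, g x ≠ 0) :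
    Nonempty (f.ker ≃L[𝕜] g.ker) := by
  obtain ⟨u, hu1, hu2⟩ := exists_common_nonzero f g hf hg
  have h1 : ((f u)⁻¹ • f).ker = f.ker := by
    ext x
    rw [LinearMap.mem_ker, LinearMap.mem_ker]
    show (f u)⁻¹ * f x = 0 ↔ f x = 0
    rw [mul_eq_zero]
    constructor
    · rintro (h | h)
      · exact absurd h (inv_ne_zero hu1)
      · exact h
    · intro h; exact Or.inr h
  have h2 : ((g u)⁻¹ • g).ker = g.ker := by
    ext x
    rw [LinearMap.mem_ker, LinearMap.mem_ker]
    show (g u)⁻¹ * g x = 0 ↔ g x = 0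
    rw [mul_eq_zero]
    constructor
    · rintro (h | h)
      · exact absurd h (inv_ne_zero hu2)
      · exact h
    · intro h; exact Or.inr h
  obtain ⟨T⟩ := ker_equiv_ker_aux ((f u)⁻¹ • f) ((g u)⁻¹ • g) u
    (by show (f u)⁻¹ * f u = 1; exact inv_mul_cancel₀ hu1)
    (by show (g u)⁻¹ * g u = 1; exact inv_mul_cancel₀ hu2)
  rw [h1, h2] at T
  exact ⟨T⟩

theorem HasUTAP.of_canonical [CompleteSpace E] {x : I → E} [Countable I] (hx : IsUB 𝕜 x)
    (hxs : SemiNormalized x)
    (h : ∀ (J : Type) (_ : Countable J) (w : J → E), IsUB 𝕜 w → SemiNormalized w →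
      PermEquiv 𝕜 w x) : HasUTAP 𝕜 E := by
  refine ⟨⟨I, inferInstance, x, hx, hxs⟩, ?_⟩
  intro J I hJ hI y z hy hys hz hzs
  exact (h J hJ y hy hys).trans (h I hI z hz hzs).symm

/-- one-element families of nonzero vectors are equivalent -/
theorem permEquiv_unique {F F' : Type*} [NormedAddCommGroup F] [NormedSpace 𝕜 F]
    [NormedAddCommGroup F'] [NormedSpace 𝕜 F'] [Finite J] [Finite I] (σ : J ≃ I)
    (x : J → F) (y : I → F') : PermEquiv 𝕜 x y := by
  refine ⟨σ, fun a => ?_⟩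
  have h1 : Summable (fun j => a j • x j) := Summable.of_finite
  have h2 : Summable (fun j => a j • y (σ j)) := Summable.of_finite
  exact ⟨fun _ => h2, fun _ => h1⟩

theorem scalar_isUB : IsUB 𝕜 (fun _ : Unit => (1 : 𝕜)) := by
  intro v
  refine ⟨fun _ => v, ?_, fun a ha => ?_⟩
  · have : HasSum (fun _ : Unit => v • (1 : 𝕜)) (∑ _j : Unit, v • (1 : 𝕜)) := hasSum_fintype _
    simpa using this
  · have h1 : HasSum (fun j : Unit => a j • (1 : 𝕜)) v := ha
    have h2 : HasSum (fun j : Unit => a j • (1 : 𝕜)) (∑ j : Unit, a j • (1 : 𝕜)) :=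
      hasSum_fintype _
    have h3 := h1.unique h2
    funext j
    simpa using h3.symm

theorem scalar_semiNormalized : SemiNormalized (fun _ : Unit => (1 : 𝕜)) :=
  ⟨1, 1, one_pos, fun _ => by simp⟩

/-- adding one dimension -/
theorem HasUTAP.prod_scalar [CompleteSpace E] (h : HasUTAP 𝕜 E) : HasUTAP 𝕜 (E × 𝕜) := by
  classical
  obtain ⟨⟨I, hI, x, hx, hxs⟩, h2⟩ := h
  apply HasUTAP.of_canonical (hx.sumFam scalar_isUB) (hxs.sumFam scalar_semiNormalized)
  intro J hJ w hw hws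
  obtain ⟨bw⟩ := hw.exists_ubd
  -- there is at least one index
  have hne : Nonempty J := by
    by_contra hne
    rw [not_nonempty_iff] at hne
    have h3 := bw.ext (v := ((0 : E), (1 : 𝕜))) (v' := 0) (fun j => hne.elim j)
    have h4 := congrArg Prod.snd h3
    simp at h4
  obtain ⟨j0⟩ := hne
  set S : Set J := {j0}ᶜ with hS
  have hker : Zs bw S = (bw.cf j0).ker := by
    ext v
    rw [mem_Zs, LinearMap.mem_ker, hS, compl_compl]
    have h3 : bw.P {j0} v = bw.cf j0 v • w j0 := by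
      have := bw.P_finset {j0} v
      simpa using this
    rw [h3]
    constructor
    · intro h4
      have h5 := congrArg (bw.cf j0) h4
      rw [map_smul, bw.self, smul_eq_mul, mul_one, map_zero] at h5
      exact h5
    · intro h4
      have h5 : bw.cf j0 v = 0 := h4
      rw [h5, zero_smul]
  -- isomorphism with E
  have hT : Nonempty (Zs bw S ≃L[𝕜] E) := by
    obtain ⟨T⟩ := ker_equiv_ker (bw.cf j0) (ContinuousLinearMap.snd 𝕜 E 𝕜)
      ⟨w j0, by rw [bw.self]; exact one_ne_zero⟩ ⟨(0, 1), by simp⟩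
    rw [hker]
    have T2 : (ContinuousLinearMap.snd 𝕜 E 𝕜).ker ≃L[𝕜] E :=
      ContinuousLinearEquiv.equivOfInverse
        ((ContinuousLinearMap.fst 𝕜 E 𝕜).comp (ContinuousLinearMap.snd 𝕜 E 𝕜).ker.subtypeL)
        ((ContinuousLinearMap.inl 𝕜 E 𝕜).codRestrict _ (fun v => by simp))
        (fun v => by
          apply Subtype.ext
          have hv : (v : E × 𝕜).2 = 0 := v.2
          apply Prod.ext
          · rfl
          · exact hv.symm)
        (fun v => rfl)
    exact ⟨T.trans T2⟩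
  obtain ⟨T⟩ := hT
  have h3 := h2 S I inferInstance hI _ x ((isUB_subFam bw S).map T)
    ((semiNormalized_subFam bw S hws).map T) hx hxs
  have h4 : PermEquiv 𝕜 (fun j : S => w j) x :=
    (permEquiv_subFam bw S).symm.trans ((permEquiv_map T (subFam bw S)).symm.trans h3)
  have h5 : PermEquiv 𝕜 (fun j : (Sᶜ : Set J) => w j) (fun _ : Unit => (1 : 𝕜)) := by
    have hSc : Sᶜ = {j0} := by rw [hS, compl_compl]
    have : Finite (Sᶜ : Set J) := by rw [hSc]; infer_instance
    apply permEquiv_unique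
    have hu : Unique (Sᶜ : Set J) := by rw [hSc]; infer_instance
    exact Equiv.ofUnique _ _
  exact permEquiv_of_split S h4 h5

theorem HasUTAP.prod_fin [CompleteSpace E] (h : HasUTAP 𝕜 E) (c : ℕ) :
    HasUTAP 𝕜 (E × (Fin c → 𝕜)) := by
  induction c with
  | zero => exact h.map (ContinuousLinearEquiv.prodUnique 𝕜 E (Fin 0 → 𝕜)).symm
  | succ c ih =>
    have h1 := ih.prod_scalar
    have T : (Fin (c + 1) → 𝕜) ≃L[𝕜] (Fin c → 𝕜) × 𝕜 :=
      ContinuousLinearEquiv.ofFinrankEq (by simp)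
    exact h1.map ((ContinuousLinearEquiv.prodAssoc 𝕜 E (Fin c → 𝕜) 𝕜).trans
      ((ContinuousLinearEquiv.refl 𝕜 E).prodCongr T.symm))

end

end Pool.Agent.H658_UB
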