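import Mathlib
import Pool.Agent.H658_UB.Hyper
import Pool.Agent.H658_UB.Gauge

set_option autoImplicit false
set_option maxHeartbeats 400000

/-!
Sums of families of kind `p`; the case where `ℓ_p` factors through `X`.
-/

namespace Pool.Agent.H658_UB

open Filter Topology

section

variable {𝕜 : Type*} [RCLike 𝕜]
variable {E E' E'' : Type*} [NormedAddCommGroup E] [NormedSpace 𝕜 E]
  [NormedAddCommGroup E'] [NormedSpace 𝕜 E'] [NormedAddCommGroup E''] [NormedSpace 𝕜 E'']
variable {J I K L : Type} (p : Kd)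

theorem IsKd.sumFam {y : I → E'} {z : K → E''} (hy : IsKd 𝕜 p y) (hz : IsKd 𝕜 p z) :
    IsKd 𝕜 p (sumFam y z) := by
  classical
  obtain ⟨C, hC, hy⟩ := hy
  obtain ⟨C', hC', hz⟩ := hz
  refine ⟨C + C', by positivity, fun s a => ?_⟩
  have hs : s = s.toLeft.map Function.Embedding.inl ∪ s.toRight.map Function.Embedding.inr := by
    ext x
    rcases x with x | x
    · simp
    · simp
  have hsum : ∑ j ∈ s, a j • H658_UB.sumFam y z j =
      (∑ i ∈ s.toLeft, a (Sum.inl i) • y i, ∑ k ∈ s.toRight, a (Sum.inr k) • z k) := by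
    have h1 : ∑ j ∈ s, a j • H658_UB.sumFam y z j =
        ∑ j ∈ s.toLeft.disjSum s.toRight, a j • H658_UB.sumFam y z j := by
      rw [Finset.toLeft_disjSum_toRight]
    rw [h1, Finset.sum_disjSum]
    apply Prod.ext
    · rw [Prod.fst_add, Prod.fst_sum, Prod.fst_sum]
      simp [H658_UB.sumFam]
    · rw [Prod.snd_add, Prod.snd_sum, Prod.snd_sum]
      simp [H658_UB.sumFam]
  have hN1 : NN p s (fun j => ‖a j‖) ≤ NN p s.toLeft (fun i => ‖a (Sum.inl i)‖) +
      NN p s.toRight (fun k => ‖a (Sum.inr k)‖) := by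
    conv_lhs => rw [hs]
    refine (NN_union_le p _ _ _).trans ?_
    rw [NN_map, NN_map]
    rfl
  have hN2 : NN p s.toLeft (fun i => ‖a (Sum.inl i)‖) ≤ NN p s (fun j => ‖a j‖) := by
    have h1 := NN_mono p (s := s.toLeft.map Function.Embedding.inl) (t := s)
      (by intro x hx; simp only [Finset.mem_map, Finset.mem_toLeft] at hx
          obtain ⟨i, hi, rfl⟩ := hx; exact hi) (fun j => ‖a j‖)
    rw [NN_map] at h1
    exact h1
  have hN3 : NN p s.toRight (fun i => ‖a (Sum.inr i)‖) ≤ NN p s (fun j => ‖a j‖) := by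
    have h1 := NN_mono p (s := s.toRight.map Function.Embedding.inr) (t := s)
      (by intro x hx; simp only [Finset.mem_map, Finset.mem_toRight] at hx
          obtain ⟨i, hi, rfl⟩ := hx; exact hi) (fun j => ‖a j‖)
    rw [NN_map] at h1
    exact h1
  have hy' := hy s.toLeft (fun i => a (Sum.inl i))
  have hz' := hz s.toRight (fun i => a (Sum.inr i))
  have hn0 := NN_nonneg p s (fun j => ‖a j‖)
  rw [hsum]
  constructor
  · rw [Prod.norm_def]
    apply max_le
    · calc _ ≤ C * NN p s.toLeft (fun i => ‖a (Sum.inl i)‖) := hy'.1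
        _ ≤ C * NN p s (fun j => ‖a j‖) := mul_le_mul_of_nonneg_left hN2 hC.le
        _ ≤ _ := mul_le_mul_of_nonneg_right (by linarith) hn0
    · calc _ ≤ C' * NN p s.toRight (fun i => ‖a (Sum.inr i)‖) := hz'.1
        _ ≤ C' * NN p s (fun j => ‖a j‖) := mul_le_mul_of_nonneg_left hN3 hC'.le
        _ ≤ _ := mul_le_mul_of_nonneg_right (by linarith) hn0
  · refine hN1.trans ?_
    rw [add_mul]
    apply add_le_add
    · refine hy'.2.trans (mul_le_mul_of_nonneg_left ?_ hC.le)
      exact norm_fst_le (∑ i ∈ s.toLeft, a (Sum.inl i) • y i, ∑ k ∈ s.toRight, a (Sum.inr k) • z k)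
    · refine hz'.2.trans (mul_le_mul_of_nonneg_left ?_ hC'.le)
      exact norm_snd_le (∑ i ∈ s.toLeft, a (Sum.inl i) • y i, ∑ k ∈ s.toRight, a (Sum.inr k) • z k)

/-- the square of `ℓ_p` -/
theorem square_equiv [CompleteSpace E] {e : ℕ → E} (b : UBD 𝕜 e) (he : IsKd 𝕜 p e) :
    Nonempty ((E × E) ≃L[𝕜] E) := by
  have σ : ℕ ≃ ℕ ⊕ ℕ := Equiv.natSumNatEquivNat.symm
  have h1 : IsUB 𝕜 (fun n => sumFam e e (σ n)) := (b.isUB.sumFam b.isUB).reindex σ
  obtain ⟨b1⟩ := h1.exists_ubd
  have h2 : IsKd 𝕜 p (fun n => sumFam e e (σ n)) := (he.sumFam p he).comp p σ σ.injective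
  obtain ⟨T, -⟩ := IsKd.exists_equiv p b1 b h2 he
  exact ⟨T⟩

/-- if `ℓ_p` factors through `X` then `X ⊕ ℓ_p` is isomorphic to `X` -/
theorem prod_equiv_of_factor [CompleteSpace E] [CompleteSpace E'] {e : ℕ → E'} (b : UBD 𝕜 e)
    (he : IsKd 𝕜 p e) (U : E' →L[𝕜] E) (V : E →L[𝕜] E') (h : ∀ y, V (U y) = y) :
    Nonempty (E ≃L[𝕜] E × E') := by
  obtain ⟨T⟩ := square_equiv p b he
  have T1 : E ≃L[𝕜] E' × V.ker := ContinuousLinearEquiv.equivOfRightInverse V U h
  refine ⟨?_⟩
  have T2 : (E' × V.ker) ≃L[𝕜] ((E' × E') × V.ker) := T.symm.prodCongr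
    (ContinuousLinearEquiv.refl 𝕜 V.ker)
  have T3 : ((E' × E') × V.ker) ≃L[𝕜] E' × (E' × V.ker) := ContinuousLinearEquiv.prodAssoc 𝕜 _ _ _
  have T4 : (E' × (E' × V.ker)) ≃L[𝕜] ((E' × V.ker) × E') := ContinuousLinearEquiv.prodComm 𝕜 _ _
  have T5 : ((E' × V.ker) × E') ≃L[𝕜] (E × E') := T1.symm.prodCongr
    (ContinuousLinearEquiv.refl 𝕜 E')
  exact T1.trans (T2.trans (T3.trans (T4.trans T5)))

theorem PermEquiv.sumFam_congr_right {F : Type*} [NormedAddCommGroup F] [NormedSpace 𝕜 F]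
    [CompleteSpace E] [CompleteSpace E'] [CompleteSpace F]
    (x : J → E) {y : I → E'} {z : K → F} (h : PermEquiv 𝕜 y z) :
    PermEquiv 𝕜 (sumFam x y) (sumFam x z) := by
  obtain ⟨π, hπ⟩ := h
  refine ⟨Equiv.sumCongr (Equiv.refl J) π, fun a => ?_⟩
  rw [summable_sumFam_iff]
  have h1 : Summable (fun s => a s • sumFam x z (Equiv.sumCongr (Equiv.refl J) π s)) ↔
      Summable (fun j => a (Sum.inl j) • x j) ∧ Summable (fun i => a (Sum.inr i) • z (π i)) := by
    have h2 := summable_sumFam_iff x (fun i => z (π i)) a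
    rw [← h2]
    have h3 : (fun s => a s • sumFam x z (Equiv.sumCongr (Equiv.refl J) π s)) =
        fun s => a s • sumFam x (fun i => z (π i)) s := by
      funext s
      rcases s with s | s
      · rfl
      · rfl
    rw [h3]
  rw [h1, hπ]

/-- moving the first summand to the middle -/
theorem permEquiv_left_comm [CompleteSpace E] [CompleteSpace E'] [CompleteSpace E'']
    (x : J → E) (y : I → E') (z : K → E'') :
    PermEquiv 𝕜 (sumFam x (sumFam y z)) (sumFam y (sumFam x z)) := by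
  refine ⟨(Equiv.sumAssoc J I K).symm.trans (((Equiv.sumComm J I).sumCongr (Equiv.refl K)).trans
    (Equiv.sumAssoc I J K)), fun a => ?_⟩
  rw [← ((Equiv.sumAssoc I J K).symm.trans (((Equiv.sumComm I J).sumCongr (Equiv.refl K)).trans
    (Equiv.sumAssoc J I K))).summable_iff (f := fun s => a s • sumFam y (sumFam x z)
      (((Equiv.sumAssoc J I K).symm.trans (((Equiv.sumComm J I).sumCongr (Equiv.refl K)).trans
    (Equiv.sumAssoc I J K))) s))]
  rw [summable_sumFam_iff, summable_sumFam_iff]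
  rw [summable_sumType_iff, summable_sumType_iff]
  have h1 : Summable (fun i : I => a (Sum.inr (Sum.inl i)) • sumFam y (sumFam x z) (Sum.inl i)) ↔
      Summable (fun i => a (Sum.inr (Sum.inl i)) • y i) := by
    constructor
    · intro h
      have := h.mapL (ContinuousLinearMap.fst 𝕜 E' (E × E''))
      simpa [sumFam] using this
    · intro h
      have := h.mapL (ContinuousLinearMap.inl 𝕜 E' (E × E''))
      simpa [sumFam] using this
  have h2 : Summable (fun j : J => a (Sum.inl j) • sumFam y (sumFam x z) (Sum.inr (Sum.inl j))) ↔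
      Summable (fun j => a (Sum.inl j) • x j) := by
    constructor
    · intro h
      have := h.mapL ((ContinuousLinearMap.fst 𝕜 E E'').comp (ContinuousLinearMap.snd 𝕜 E' (E × E'')))
      simpa [sumFam] using this
    · intro h
      have := h.mapL ((ContinuousLinearMap.inr 𝕜 E' (E × E'')).comp (ContinuousLinearMap.inl 𝕜 E E''))
      simpa [sumFam] using this
  have h3 : Summable (fun k : K => a (Sum.inr (Sum.inr k)) •
      sumFam y (sumFam x z) (Sum.inr (Sum.inr k))) ↔
      Summable (fun k => a (Sum.inr (Sum.inr k)) • z k) := by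
    constructor
    · intro h
      have := h.mapL ((ContinuousLinearMap.snd 𝕜 E E'').comp (ContinuousLinearMap.snd 𝕜 E' (E × E'')))
      simpa [sumFam] using this
    · intro h
      have := h.mapL ((ContinuousLinearMap.inr 𝕜 E' (E × E'')).comp (ContinuousLinearMap.inr 𝕜 E E''))
      simpa [sumFam] using this
  constructor
  · rintro ⟨ha, hb, hc⟩
    exact ⟨h1.mpr hb, h2.mpr ha, h3.mpr hc⟩
  · rintro ⟨ha, hb, hc⟩
    exact ⟨h2.mp hb, h1.mp ha, h3.mp hc⟩

/-- the unit vectors of `𝕜 ^ c` -/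
def unitFam (𝕜 : Type*) [RCLike 𝕜] (c : ℕ) : Fin c → (Fin c → 𝕜) := fun i => Pi.single i 1

theorem sum_unitFam {c : ℕ} (s : Finset (Fin c)) (a : Fin c → 𝕜) (i : Fin c) :
    (∑ j ∈ s, a j • unitFam 𝕜 c j) i = if i ∈ s then a i else 0 := by
  rw [Finset.sum_apply]
  simp only [unitFam, Pi.smul_apply, Pi.single_apply, smul_eq_mul, mul_ite, mul_one, mul_zero]
  rw [Finset.sum_ite_eq]

theorem unitFam_isUB (c : ℕ) : IsUB 𝕜 (unitFam 𝕜 c) := by
  intro v
  have h0 : ∀ a : Fin c → 𝕜, HasSum (fun j => a j • unitFam 𝕜 c j) a := by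
    intro a
    have h1 : HasSum (fun j => a j • unitFam 𝕜 c j) (∑ j, a j • unitFam 𝕜 c j) :=
      hasSum_fintype _
    have h2 : ∑ j, a j • unitFam 𝕜 c j = a := by
      funext i
      rw [sum_unitFam]
      simp
    rwa [h2] at h1
  exact ⟨v, h0 v, fun a ha => (h0 a).unique ha⟩

theorem unitFam_isKd (c : ℕ) : IsKd 𝕜 p (unitFam 𝕜 c) := by
  refine ⟨(c : ℝ) + 1, by positivity, fun s a => ?_⟩
  have hn0 := NN_nonneg p s (fun j => ‖a j‖)
  have h1 : ‖∑ j ∈ s, a j • unitFam 𝕜 c j‖ ≤ NN p s (fun j => ‖a j‖) := by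
    rw [pi_norm_le_iff_of_nonneg hn0]
    intro i
    rw [sum_unitFam]
    split_ifs with hi
    · have := le_NN p hi (fun j => ‖a j‖)
      rwa [abs_norm] at this
    · rw [norm_zero]; exact hn0
  constructor
  · refine h1.trans ?_
    have : (0 : ℝ) ≤ c := Nat.cast_nonneg _
    nlinarith
  · refine (NN_le_sum p s _).trans ?_
    have h2 : ∀ j ∈ s, |‖a j‖| ≤ ‖∑ j ∈ s, a j • unitFam 𝕜 c j‖ := by
      intro j hj
      rw [abs_norm]
      have h3 := norm_le_pi_norm (∑ j ∈ s, a j • unitFam 𝕜 c j) j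
      rw [sum_unitFam, if_pos hj] at h3
      exact h3
    refine (Finset.sum_le_sum h2).trans ?_
    rw [Finset.sum_const, nsmul_eq_mul]
    apply mul_le_mul_of_nonneg_right _ (norm_nonneg _)
    have h4 : s.card ≤ c := by
      have := Finset.card_le_univ s
      simpa using this
    have h5 : (s.card : ℝ) ≤ c := by exact_mod_cast h4
    linarith

end

end Pool.Agent.H658_UB
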