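import Mathlib
import Pool.Agent.H658_UB.Localize

set_option autoImplicit false

/-!
If `A` is a set of indices of a basis `w` on which the diagonal of `Tp` is bounded away from zero,
and `ℓ_p` factors through the span of `(w j)` for `j ∈ A`, then the identity of `ℓ_p` factors
through `Tp`.
-/

namespace Pool.Agent.H658_UB

open Filter Topology

section

variable {𝕜 : Type*} [RCLike 𝕜]
variable {Y : Type*} [NormedAddCommGroup Y] [NormedSpace 𝕜 Y] [CompleteSpace Y]
variable {e : ℕ → Y} (b : UBD 𝕜 e) (p : Kd)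
variable {J : Type} {W : Type*} [NormedAddCommGroup W] [NormedSpace 𝕜 W] [CompleteSpace W]
variable {w : J → W} (bw : UBD 𝕜 w)

theorem transfer (he : IsKd 𝕜 p e) (A : Set J) (Tp : W →L[𝕜] W)
    (hTp : ∀ j ∈ A, 1 / 2 ≤ ‖bw.cf j (Tp (w j))‖) (i : Y →L[𝕜] W) (q : W →L[𝕜] Y)
    (hR : ¬ TV b (q.comp ((bw.P A).comp i))) :
    ∃ (S₁ : Y →L[𝕜] W) (S₂ : W →L[𝕜] Y), ∀ y, S₂ (Tp (S₁ y)) = y := by
  classical
  obtain ⟨T₁, T₂, hT⟩ := exists_factor_of_not_TV b p he _ hR
  set U : Y →L[𝕜] W := (bw.P A).comp (i.comp T₁) with hUdef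
  set V : W →L[𝕜] Y := T₂.comp q with hVdef
  have hVU : ∀ y, V (U y) = y := fun y => hT y
  have hU : ∀ y j, j ∉ A → bw.cf j (U y) = 0 := fun y j hj => bw.cf_P_of_notMem hj _
  obtain ⟨k, F, hk, hF', hFA, hbig⟩ := exists_localization b p bw he A U V hU hVU
  have hF : ∀ m n, m ≠ n → Disjoint (F m) (F n) := by
    intro m n hmn
    rcases lt_or_gt_of_ne hmn with h | h
    · exact hF' m n h
    · exact (hF' n m h).symm
  choose l μ hl hμ hl0 hμ0 hlμ using fun m => exists_mult bw (F m) Tp
    (fun j hj => hTp j (hFA m j hj)) (fun j => bw.cf j (U (e (k m))))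
    (fun j => b.cf (k m) (V (w j))) (hbig m)
  obtain ⟨C, hC, he1⟩ := he
  have hek : IsKd 𝕜 p (fun m => e (k m)) := IsKd.comp p ⟨C, hC, he1⟩ k hk.injective
  obtain ⟨C₂, hC₂, he2⟩ := hek
  have hbK := b.K_nonneg
  have hwK := bw.K_nonneg
  -- the first operator
  have hN1 : ∀ (s : Finset ℕ) (y : Y), NN p s (fun m => ‖b.cf m y‖) ≤ C * (b.K * ‖y‖) := by
    intro s y
    refine (he1 s (fun m => b.cf m y)).2.trans (mul_le_mul_of_nonneg_left ?_ hC.le)
    rw [← b.P_finset]
    exact b.norm_P_apply_le _ _
  obtain ⟨U', hU'⟩ : ∃ U' : Y →L[𝕜] W, ∀ m, U' (e m) = bw.M (l m) (U (e (k m))) := by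
    obtain ⟨U', hU', -⟩ := exists_sumOp (E := Y) (E' := W)
      (fun m => (b.cf m).smulRight (bw.M (l m) (U (e (k m)))))
      (bw.K * (‖U‖ * (C₂ * (C * b.K)))) (by positivity) (fun s y => by
        simp only [ContinuousLinearMap.smulRight_apply]
        have h1 := Cube.diag_bound (𝕜 := 𝕜) (ι := s) U (fun m : s => b.cf m y • e (k m))
          (fun m : s => bw.M (l m)) (C₂ * (C * (b.K * ‖y‖))) bw.K hwK (fun ε => by
            have h2 := (he2 s (fun m => if hm : m ∈ s then
              Cube.sk 𝕜 (ε ⟨m, hm⟩) * b.cf m y else 0)).1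
            have h3 : ∑ j ∈ s, (if hm : j ∈ s then Cube.sk 𝕜 (ε ⟨j, hm⟩) * b.cf j y else 0) •
                e (k j) = ∑ m : s, Cube.sk 𝕜 (ε m) • (b.cf m y • e (k m)) := by
              rw [← Finset.sum_coe_sort s]
              apply Finset.sum_congr rfl
              intro m _
              rw [dif_pos m.2, smul_smul]
            rw [h3] at h2
            refine h2.trans (mul_le_mul_of_nonneg_left ?_ hC₂.le)
            refine (le_of_eq ?_).trans (hN1 s y)
            apply NN_congr
            intro m hm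
            rw [dif_pos hm, norm_mul, Cube.norm_sk, one_mul])
          (fun ε z => sum_M_disjoint bw (fun m : s => F m)
            (fun m n hmn => hF m n (fun h => hmn (Subtype.ext h))) (fun m : s => l m)
            (fun m => hl m) (fun m => hl0 m) ε z)
        have h4 : ∑ m : s, bw.M (l m) (U (b.cf m y • e (k m))) =
            ∑ m ∈ s, b.cf m y • bw.M (l m) (U (e (k m))) := by
          rw [← Finset.sum_coe_sort s]
          apply Finset.sum_congr rfl
          intro m _
          rw [map_smul, map_smul]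
        rw [h4] at h1
        refine h1.trans (le_of_eq ?_)
        ring) (Set.range e) b.dense_span (by
        rintro _ ⟨n, rfl⟩
        apply summable_of_ne_finset_zero (s := {n})
        intro j hj
        rw [Finset.mem_singleton] at hj
        simp [b.ne j n hj])
    refine ⟨U', fun m => ?_⟩
    have h1 := hU' (e m)
    have h2 : HasSum (fun n => ((b.cf n).smulRight (bw.M (l n) (U (e (k n))))) (e m))
        (bw.M (l m) (U (e (k m)))) := by
      have := hasSum_ite_eq m (bw.M (l m) (U (e (k m))))
      refine this.congr_fun ?_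
      intro n
      by_cases hn : n = m
      · subst hn; simp [b.self]
      · simp [hn, b.ne n m hn]
    exact h1.unique h2
  -- the second operator
  obtain ⟨V', hV'⟩ : ∃ V' : W →L[𝕜] Y, ∀ z m, b.cf m (V' z) = b.cf (k m) (V (bw.M (μ m) z)) := by
    obtain ⟨V', hV', -⟩ := exists_sumOp (E := W) (E' := Y)
      (fun m => ((b.cf (k m)).comp (V.comp (bw.M (μ m)))).smulRight (e m))
      (C * (C₂ * ((C₂ * (C₂ * b.K)) * (‖V‖ * bw.K)))) (by positivity) (fun s z => by
        simp only [ContinuousLinearMap.smulRight_apply, ContinuousLinearMap.comp_apply]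
        refine (he1 s (fun m => b.cf (k m) (V (bw.M (μ m) z)))).1.trans ?_
        have h0 := (he2 s (fun m => b.cf (k m) (V (bw.M (μ m) z)))).2
        have h1 := Cube.diag_bound (𝕜 := 𝕜) (ι := s) V (fun m : s => bw.M (μ m) z)
          (fun m : s => (b.cf (k m)).smulRight (e (k m))) (bw.K * ‖z‖) (C₂ * (C₂ * b.K))
          (by positivity)
          (fun ε => sum_M_disjoint bw (fun m : s => F m)
            (fun m n hmn => hF m n (fun h => hmn (Subtype.ext h))) (fun m : s => μ m)
            (fun m => hμ m) (fun m => hμ0 m) ε z)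
          (fun ε v => by
            have h2 := (he2 s (fun m => if hm : m ∈ s then
              Cube.sk 𝕜 (ε ⟨m, hm⟩) * b.cf (k m) v else 0)).1
            have h3 : ∑ j ∈ s, (if hm : j ∈ s then Cube.sk 𝕜 (ε ⟨j, hm⟩) * b.cf (k j) v
                else 0) • e (k j) =
                ∑ m : s, Cube.sk 𝕜 (ε m) • ((b.cf (k m)).smulRight (e (k m))) v := by
              rw [← Finset.sum_coe_sort s]
              apply Finset.sum_congr rfl
              intro m _
              rw [dif_pos m.2, ContinuousLinearMap.smulRight_apply, smul_smul]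
            rw [h3] at h2
            refine h2.trans ?_
            rw [mul_assoc, mul_assoc]
            refine mul_le_mul_of_nonneg_left ?_ hC₂.le
            have h5 : NN p s (fun j => ‖if hm : j ∈ s then Cube.sk 𝕜 (ε ⟨j, hm⟩) * b.cf (k j) v
                else 0‖) = NN p s (fun m => ‖b.cf (k m) v‖) := by
              apply NN_congr
              intro m hm
              rw [dif_pos hm, norm_mul, Cube.norm_sk, one_mul]
            rw [h5]
            refine (he2 s (fun m => b.cf (k m) v)).2.trans
              (mul_le_mul_of_nonneg_left ?_ hC₂.le)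
            have h6 : ∑ m ∈ s, b.cf (k m) v • e (k m) =
                ∑ j ∈ s.map ⟨k, hk.injective⟩, b.cf j v • e j := by
              rw [Finset.sum_map]; rfl
            rw [h6, ← b.P_finset]
            exact b.norm_P_apply_le _ _)
        have h4 : ∑ m : s, ((b.cf (k m)).smulRight (e (k m))) (V (bw.M (μ m) z)) =
            ∑ m ∈ s, b.cf (k m) (V (bw.M (μ m) z)) • e (k m) := by
          rw [← Finset.sum_coe_sort s]
          rfl
        rw [h4] at h1
        calc C * NN p s (fun m => ‖b.cf (k m) (V (bw.M (μ m) z))‖)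
            ≤ C * (C₂ * ‖∑ m ∈ s, b.cf (k m) (V (bw.M (μ m) z)) • e (k m)‖) :=
              mul_le_mul_of_nonneg_left h0 hC.le
          _ ≤ C * (C₂ * (C₂ * (C₂ * b.K) * (‖V‖ * (bw.K * ‖z‖)))) := by gcongr
          _ = _ := by ring) (Set.range w) bw.dense_span (by
        rintro _ ⟨j, rfl⟩
        apply summable_of_hasFiniteSupport
        apply Set.Subsingleton.finite
        intro m hm n hn
        by_contra hmn
        have hz : ∀ m, (((b.cf (k m)).comp (V.comp (bw.M (μ m)))).smulRight (e m)) (w j) ≠ 0 →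
            j ∈ F m := by
          intro m hm
          by_contra hj
          apply hm
          rw [ContinuousLinearMap.smulRight_apply, ContinuousLinearMap.comp_apply,
            ContinuousLinearMap.comp_apply, bw.M_basis (μ m) (hμ m), hμ0 m j hj]
          simp
        exact (Finset.disjoint_left.mp (hF m n hmn)) (hz m hm) (hz n hn))
    refine ⟨V', fun z m => ?_⟩
    exact b.cf_eq m (V' z) (fun m => b.cf (k m) (V (bw.M (μ m) z))) (hV' z)
  -- the diagonal
  have hdiag : ∀ m, 1 / 4 ≤ ‖b.cf m ((V'.comp (Tp.comp U')) (e m))‖ := by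
    intro m
    have h1 : b.cf m ((V'.comp (Tp.comp U')) (e m)) =
        b.cf (k m) (V (bw.M (μ m) (Tp (bw.M (l m) (U (e (k m))))))) := by
      show b.cf m (V' (Tp (U' (e m)))) = _
      rw [hV', hU']
    have h2 : bw.M (l m) (U (e (k m))) =
        ∑ j ∈ F m, (l m j * bw.cf j (U (e (k m)))) • w j := by
      have h3 := bw.M_hasSum (l m) (hl m) (U (e (k m)))
      have h4 : HasSum (fun j => (l m j * bw.cf j (U (e (k m)))) • w j)
          (∑ j ∈ F m, (l m j * bw.cf j (U (e (k m)))) • w j) := by
        apply hasSum_sum_of_ne_finset_zero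
        intro j hj
        rw [hl0 m j hj, zero_mul, zero_smul]
      exact h3.unique h4
    have h5 : ∀ v, bw.M (μ m) v = ∑ i ∈ F m, (μ m i * bw.cf i v) • w i := by
      intro v
      have h3 := bw.M_hasSum (μ m) (hμ m) v
      have h4 : HasSum (fun j => (μ m j * bw.cf j v) • w j)
          (∑ i ∈ F m, (μ m i * bw.cf i v) • w i) := by
        apply hasSum_sum_of_ne_finset_zero
        intro j hj
        rw [hμ0 m j hj, zero_mul, zero_smul]
      exact h3.unique h4
    have h6 : b.cf (k m) (V (bw.M (μ m) (Tp (bw.M (l m) (U (e (k m))))))) =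
        ∑ i ∈ F m, ∑ j ∈ F m, (μ m i * l m j) *
          (b.cf (k m) (V (w i)) * bw.cf j (U (e (k m))) * bw.cf i (Tp (w j))) := by
      rw [h5, map_sum, map_sum]
      apply Finset.sum_congr rfl
      intro i _
      rw [map_smul, map_smul, h2, map_sum, map_sum, smul_eq_mul, Finset.mul_sum, Finset.sum_mul]
      apply Finset.sum_congr rfl
      intro j _
      rw [map_smul, map_smul, smul_eq_mul]
      ring
    rw [h1, h6]
    exact hlμ m
  have hnTV := not_TV_of_diag b p ⟨C, hC, he1⟩ (V'.comp (Tp.comp U')) (1 / 4) (by norm_num) hdiag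
  obtain ⟨T₃, T₄, hT'⟩ := exists_factor_of_not_TV b p ⟨C, hC, he1⟩ _ hnTV
  exact ⟨U'.comp T₃, T₄.comp V', fun y => hT' y⟩

end

end Pool.Agent.H658_UB
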