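import Mathlib
import Pool.Agent.H658_UB.Transfer
import Pool.Agent.H658_UB.KdSum

set_option autoImplicit false
set_option maxHeartbeats 400000

/-!
Operators with vanishing tails; the complement of the part of the basis equivalent to `ℓ_p`.
-/

namespace Pool.Agent.H658_UB

open Filter Topology

section

variable {𝕜 : Type*} [RCLike 𝕜]
variable {Y : Type*} [NormedAddCommGroup Y] [NormedSpace 𝕜 Y] [CompleteSpace Y]
variable {e : ℕ → Y} (b : UBD 𝕜 e) (p : Kd)

theorem TV_mono_bound (R : Y →L[𝕜] Y) (m n : ℕ) (h : n ≤ m) :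
    ‖(b.P (Set.Ici m)).comp (R.comp (b.P (Set.Ici m)))‖ ≤
      b.K * b.K * ‖(b.P (Set.Ici n)).comp (R.comp (b.P (Set.Ici n)))‖ := by
  have h1 : (b.P (Set.Ici m)).comp (R.comp (b.P (Set.Ici m))) =
      (b.P (Set.Ici m)).comp (((b.P (Set.Ici n)).comp (R.comp (b.P (Set.Ici n)))).comp
        (b.P (Set.Ici m))) := by
    ext v
    show b.P (Set.Ici m) (R (b.P (Set.Ici m) v)) =
      b.P (Set.Ici m) (b.P (Set.Ici n) (R (b.P (Set.Ici n) (b.P (Set.Ici m) v))))
    have h2 : Set.Ici n ∩ Set.Ici m = Set.Ici m :=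
      Set.inter_eq_right.mpr (Set.Ici_subset_Ici.mpr h)
    rw [b.P_P (Set.Ici n) (Set.Ici m), h2, b.P_P (Set.Ici m) (Set.Ici n), Set.inter_comm, h2]
  rw [h1]
  have hK := b.K_nonneg
  calc _ ≤ ‖b.P (Set.Ici m)‖ * (‖(b.P (Set.Ici n)).comp (R.comp (b.P (Set.Ici n)))‖ *
        ‖b.P (Set.Ici m)‖) := by
        refine (ContinuousLinearMap.opNorm_comp_le _ _).trans ?_
        exact mul_le_mul_of_nonneg_left (ContinuousLinearMap.opNorm_comp_le _ _) (norm_nonneg _)
    _ ≤ b.K * (‖(b.P (Set.Ici n)).comp (R.comp (b.P (Set.Ici n)))‖ * b.K) := by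
        apply mul_le_mul (b.norm_P_le _) _ (by positivity) hK
        exact mul_le_mul_of_nonneg_left (b.norm_P_le _) (norm_nonneg _)
    _ = _ := by ring

theorem TV.add {R R' : Y →L[𝕜] Y} (h : TV b R) (h' : TV b R') : TV b (R + R') := by
  intro δ hδ
  have hK : 0 < b.K := zero_lt_one.trans_le b.one_le
  obtain ⟨n, hn⟩ := h (δ / (2 * (b.K * b.K))) (by positivity)
  obtain ⟨n', hn'⟩ := h' (δ / (2 * (b.K * b.K))) (by positivity)
  refine ⟨max n n', ?_⟩
  have h1 := TV_mono_bound b R (max n n') n (le_max_left _ _)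
  have h2 := TV_mono_bound b R' (max n n') n' (le_max_right _ _)
  have h3 : (b.P (Set.Ici (max n n'))).comp ((R + R').comp (b.P (Set.Ici (max n n')))) =
      (b.P (Set.Ici (max n n'))).comp (R.comp (b.P (Set.Ici (max n n')))) +
      (b.P (Set.Ici (max n n'))).comp (R'.comp (b.P (Set.Ici (max n n')))) := by
    ext v
    show b.P _ (R _ + R' _) = b.P _ (R _) + b.P _ (R' _)
    rw [map_add]
  rw [h3]
  have h4 : b.K * b.K * ‖(b.P (Set.Ici n)).comp (R.comp (b.P (Set.Ici n)))‖ < δ / 2 := by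
    calc _ < b.K * b.K * (δ / (2 * (b.K * b.K))) := mul_lt_mul_of_pos_left hn (by positivity)
      _ = δ / 2 := by field_simp
  have h5 : b.K * b.K * ‖(b.P (Set.Ici n')).comp (R'.comp (b.P (Set.Ici n')))‖ < δ / 2 := by
    calc _ < b.K * b.K * (δ / (2 * (b.K * b.K))) := mul_lt_mul_of_pos_left hn' (by positivity)
      _ = δ / 2 := by field_simp
  calc _ ≤ _ := norm_add_le _ _
    _ < δ := by linarith

theorem TV_of_rank_one (g : Y →L[𝕜] 𝕜) (z : Y) : TV b (g.smulRight z) := by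
  intro δ hδ
  have hK : 0 < b.K := zero_lt_one.trans_le b.one_le
  obtain ⟨N, hN⟩ := exists_tail_nat b z (δ / (2 * ((‖g‖ + 1) * b.K))) (by positivity)
  refine ⟨N, ?_⟩
  have h1 : ‖(b.P (Set.Ici N)).comp ((g.smulRight z).comp (b.P (Set.Ici N)))‖ ≤ δ / 2 := by
    apply ContinuousLinearMap.opNorm_le_bound _ (by positivity)
    intro v
    show ‖b.P (Set.Ici N) (g (b.P (Set.Ici N) v) • z)‖ ≤ _
    rw [map_smul, norm_smul]
    calc _ ≤ (‖g‖ * (b.K * ‖v‖)) * (δ / (2 * ((‖g‖ + 1) * b.K))) := by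
          apply mul_le_mul _ (hN N le_rfl _ le_rfl).le (norm_nonneg _) (by positivity)
          exact (g.le_opNorm _).trans (mul_le_mul_of_nonneg_left (b.norm_P_apply_le _ _)
            (norm_nonneg _))
      _ ≤ ((‖g‖ + 1) * (b.K * ‖v‖)) * (δ / (2 * ((‖g‖ + 1) * b.K))) := by
          gcongr
          linarith
      _ = δ / 2 * ‖v‖ := by field_simp
  linarith

theorem TV_zero : TV b 0 := by
  intro δ hδ
  refine ⟨0, ?_⟩
  have : (b.P (Set.Ici 0)).comp ((0 : Y →L[𝕜] Y).comp (b.P (Set.Ici 0))) = 0 := by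
    ext v; simp
  rw [this, norm_zero]
  exact hδ

theorem TV_sum {ι : Type*} (s : Finset ι) (R : ι → Y →L[𝕜] Y) (h : ∀ i ∈ s, TV b (R i)) :
    TV b (∑ i ∈ s, R i) := by
  classical
  induction s using Finset.induction_on with
  | empty => simpa using TV_zero b
  | insert i s hi ih =>
    rw [Finset.sum_insert hi]
    exact (h i (Finset.mem_insert_self _ _)).add b
      (ih fun j hj => h j (Finset.mem_insert_of_mem hj))

/-- the fixed space of an operator with vanishing tails is finite dimensional -/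
theorem finiteDimensional_of_TV (he : IsKd 𝕜 p e) (R : Y →L[𝕜] Y) (hR : TV b R)
    (C : Submodule 𝕜 Y) (hC : ∀ c ∈ C, R c = c) : FiniteDimensional 𝕜 C := by
  obtain ⟨n, hn⟩ := hR 1 one_pos
  let T : C →ₗ[𝕜] (Fin n → 𝕜) := LinearMap.pi (fun k => ((b.cf k).toLinearMap).comp C.subtype)
  apply FiniteDimensional.of_injective T
  rw [← LinearMap.ker_eq_bot, LinearMap.ker_eq_bot']
  intro c hc
  have h1 : ∀ k < n, b.cf k (c : Y) = 0 := fun k hk => congrFun hc ⟨k, hk⟩
  have h2 : b.P (Set.Ici n) (c : Y) = c := by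
    apply b.ext
    intro k
    rw [b.cf_P]
    by_cases hk : k ∈ Set.Ici n
    · rw [if_pos hk]
    · rw [if_neg hk, h1 k (not_le.mp hk)]
  have h3 : ((b.P (Set.Ici n)).comp (R.comp (b.P (Set.Ici n)))) (c : Y) = c := by
    show b.P (Set.Ici n) (R (b.P (Set.Ici n) (c : Y))) = c
    rw [h2, hC c c.2, h2]
  have h4 := ((b.P (Set.Ici n)).comp (R.comp (b.P (Set.Ici n)))).le_opNorm (c : Y)
  rw [h3] at h4
  by_contra hne
  have h5 : 0 < ‖(c : Y)‖ := by
    rw [norm_pos_iff]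
    exact fun h => hne (Subtype.ext h)
  have h6 : ‖(b.P (Set.Ici n)).comp (R.comp (b.P (Set.Ici n)))‖ * ‖(c : Y)‖ < 1 * ‖(c : Y)‖ :=
    mul_lt_mul_of_pos_right hn h5
  linarith

end

section iso

variable {𝕜 : Type*} [RCLike 𝕜]
variable {X Y : Type*} [NormedAddCommGroup X] [NormedSpace 𝕜 X] [CompleteSpace X]
  [NormedAddCommGroup Y] [NormedSpace 𝕜 Y] [CompleteSpace Y]

/-- if `PS` is a projection of `X ⊕ Y` whose compression of the projection onto `X` has norm less
than one, then the kernel of `PS` is isomorphic to `X ⊕ (Y ∩ ker PS)` -/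
theorem ker_equiv_prod (PS : (X × Y) →L[𝕜] (X × Y)) (hPS : ∀ v, PS (PS v) = PS v)
    (hN : ‖PS.comp (((ContinuousLinearMap.inl 𝕜 X Y).comp
      (ContinuousLinearMap.fst 𝕜 X Y)).comp PS)‖ < 1) :
    Nonempty ((X × (PS.comp (ContinuousLinearMap.inr 𝕜 X Y)).ker) ≃L[𝕜] PS.ker) := by
  set Tp : (X × Y) →L[𝕜] (X × Y) := (ContinuousLinearMap.inl 𝕜 X Y).comp
    (ContinuousLinearMap.fst 𝕜 X Y) with hTp
  set N := PS.comp (Tp.comp PS) with hNdef
  obtain ⟨u, hu⟩ : IsUnit (1 - N) := isUnit_one_sub_of_norm_lt_one hN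
  set T : (X × Y) →L[𝕜] (X × Y) := (↑(u⁻¹) : (X × Y) →L[𝕜] (X × Y)) with hT
  have hT1 : ∀ v, (1 - N) (T v) = v := by
    intro v
    have h1 : (1 - N) * T = 1 := by rw [← hu]; exact u.mul_inv
    exact congrArg (fun f : (X × Y) →L[𝕜] (X × Y) => f v) h1
  have hT2 : ∀ v, T ((1 - N) v) = v := by
    intro v
    have h1 : T * (1 - N) = 1 := by rw [← hu]; exact u.inv_mul
    exact congrArg (fun f : (X × Y) →L[𝕜] (X × Y) => f v) h1
  have hcomm1 : ∀ v, PS ((1 - N) v) = (1 - N) (PS v) := by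
    intro v
    show PS (v - PS (Tp (PS v))) = PS v - PS (Tp (PS (PS v)))
    rw [map_sub, hPS, hPS]
  have hcomm : ∀ v, PS (T v) = T (PS v) := by
    intro v
    have h1 := hcomm1 (T v)
    rw [hT1] at h1
    rw [h1, hT2]
  set Q : (X × Y) →L[𝕜] (X × Y) := (ContinuousLinearMap.inr 𝕜 X Y).comp
    (ContinuousLinearMap.snd 𝕜 X Y) with hQ
  have hQTp : ∀ v, Q v = v - Tp v := by
    intro v
    apply Prod.ext
    · show (0 : X) = v.1 - v.1
      rw [sub_self]
    · show v.2 = v.2 - 0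
      rw [sub_zero]
  set G : (X × Y) →L[𝕜] (X × Y) := Q.comp (T.comp PS) with hG
  -- `PS ∘ G = PS`
  have hPG : ∀ v, PS (G v) = PS v := by
    intro v
    show PS (Q (T (PS v))) = PS v
    rw [hQTp, map_sub]
    have h1 : PS (Tp (T (PS v))) = N (T (PS v)) := by
      show _ = PS (Tp (PS (T (PS v))))
      rw [hcomm, hPS]
    have h2 : PS (T (PS v)) = T (PS v) := by rw [hcomm, hPS]
    rw [h1, h2]
    exact hT1 (PS v)
  have hGG : ∀ v, G (G v) = G v := by
    intro v
    show Q (T (PS (G v))) = Q (T (PS v))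
    rw [hPG]
  have hker : ∀ v, PS v = 0 → G v = 0 := by
    intro v hv
    show Q (T (PS v)) = 0
    rw [hv, map_zero, map_zero]
  have hG1 : ∀ v, (G v).1 = 0 := fun v => rfl
  -- the two maps
  let C := (PS.comp (ContinuousLinearMap.inr 𝕜 X Y)).ker
  let f : (X × C) →L[𝕜] (X × Y) :=
    ((ContinuousLinearMap.id 𝕜 (X × Y) - G).comp (ContinuousLinearMap.inl 𝕜 X Y)).comp
      (ContinuousLinearMap.fst 𝕜 X C) +
    ((ContinuousLinearMap.inr 𝕜 X Y).comp C.subtypeL).comp (ContinuousLinearMap.snd 𝕜 X C)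
  have hf : ∀ v : X × C, f v = ((v.1, (0 : Y)) - G (v.1, 0)) + ((0 : X), (v.2 : Y)) := fun v => rfl
  let g : (X × Y) →L[𝕜] Y := (ContinuousLinearMap.snd 𝕜 X Y).comp
    ((ContinuousLinearMap.id 𝕜 (X × Y) - G).comp Q)
  have hg : ∀ v : X × Y, g v = (((0 : X), v.2) - G ((0 : X), v.2)).2 := fun v => rfl
  have hf1 : ∀ v, f v ∈ PS.ker := by
    intro v
    show PS (f v) = 0
    rw [hf, map_add, map_sub, hPG, sub_self, zero_add]
    exact v.2.2
  have hg1 : ∀ v : PS.ker, (g.comp PS.ker.subtypeL) v ∈ C := by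
    intro v
    show PS ((0 : X), g v) = 0
    have h1 : ((0 : X), g v) = ((0 : X), (v : X × Y).2) - G ((0 : X), (v : X × Y).2) := by
      rw [hg]
      apply Prod.ext
      · show (0 : X) = 0 - (G ((0 : X), (v : X × Y).2)).1
        rw [hG1, sub_zero]
      · rfl
    rw [h1, map_sub, hPG, sub_self]
  refine ⟨ContinuousLinearEquiv.equivOfInverse (f.codRestrict _ hf1)
    (((ContinuousLinearMap.fst 𝕜 X Y).comp PS.ker.subtypeL).prod
      ((g.comp PS.ker.subtypeL).codRestrict C hg1)) ?_ ?_⟩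
  · rintro ⟨x, c⟩
    have hfv := hf (x, c)
    have hc : PS ((0 : X), (c : Y)) = 0 := c.2
    have hfst : (f (x, c)).1 = x := by
      rw [hfv]
      show x - (G (x, 0)).1 + 0 = x
      rw [hG1, sub_zero, add_zero]
    have hsnd : (f (x, c)).2 = -(G (x, 0)).2 + c := by
      rw [hfv]
      show (0 : Y) - (G (x, 0)).2 + (c : Y) = _
      rw [zero_sub]
    apply Prod.ext
    · exact hfst
    · apply Subtype.ext
      show g (f (x, c)) = c
      rw [hg, hsnd]
      have h1 : ((0 : X), -(G (x, 0)).2 + (c : Y)) = -(G (x, 0)) + ((0 : X), (c : Y)) := by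
        apply Prod.ext
        · show (0 : X) = -(G (x, 0)).1 + 0
          rw [hG1]; simp
        · rfl
      rw [h1, map_add, map_neg, hGG, hker _ hc, add_zero]
      show ((-(G (x, 0)) + ((0 : X), (c : Y))) - -(G (x, 0))).2 = c
      have h2 : (-(G (x, 0)) + ((0 : X), (c : Y))) - -(G (x, 0)) = ((0 : X), (c : Y)) := by abel
      rw [h2]
  · intro v
    apply Subtype.ext
    show f ((v : X × Y).1, ⟨g v, hg1 v⟩) = v
    rw [hf]
    have hv : PS (v : X × Y) = 0 := v.2
    have h1 : ((0 : X), g v) = ((0 : X), (v : X × Y).2) - G ((0 : X), (v : X × Y).2) := by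
      rw [hg]
      apply Prod.ext
      · show (0 : X) = 0 - (G ((0 : X), (v : X × Y).2)).1
        rw [hG1, sub_zero]
      · rfl
    show (((v : X × Y).1, (0 : Y)) - G ((v : X × Y).1, 0)) + ((0 : X), g v) = v
    rw [h1]
    have h2 : (v : X × Y) = ((v : X × Y).1, (0 : Y)) + ((0 : X), (v : X × Y).2) := by
      apply Prod.ext
      · show (v : X × Y).1 = (v : X × Y).1 + 0
        rw [add_zero]
      · show (v : X × Y).2 = 0 + (v : X × Y).2
        rw [zero_add]
    have h3 : G ((v : X × Y).1, 0) + G ((0 : X), (v : X × Y).2) = 0 := by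
      rw [← map_add, ← h2]
      exact hker _ hv
    have h4 : ((v : X × Y).1, (0 : Y)) - G ((v : X × Y).1, 0) +
        (((0 : X), (v : X × Y).2) - G ((0 : X), (v : X × Y).2)) =
        (((v : X × Y).1, (0 : Y)) + ((0 : X), (v : X × Y).2)) -
        (G ((v : X × Y).1, 0) + G ((0 : X), (v : X × Y).2)) := by abel
    rw [h4, h3, sub_zero]
    exact h2.symm

end iso

end Pool.Agent.H658_UB
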