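import Mathlib
import Pool.Agent.H658_UB.TvAlg
import Pool.Agent.H658_UB.BMain

set_option autoImplicit false
set_option maxHeartbeats 400000

/-!
Main theorem: if `X` has a unique unconditional basis up to permutation, so does `X × Y` for
`Y` one of `ℓ_1`, `ℓ_2`, `c_0`.
-/

namespace Pool.Agent.H658_UB

open Filter Topology

section

variable {𝕜 : Type*} [RCLike 𝕜]
variable {X Y : Type*} [NormedAddCommGroup X] [NormedSpace 𝕜 X] [CompleteSpace X]
  [NormedAddCommGroup Y] [NormedSpace 𝕜 Y] [CompleteSpace Y]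
variable {e : ℕ → Y} (b : UBD 𝕜 e) (p : Kd)

/-- kind `p` passes to the sub-basis inside its closed span -/
theorem IsKd.subFam {J : Type} {W : Type*} [NormedAddCommGroup W] [NormedSpace 𝕜 W]
    [CompleteSpace W] {w : J → W} (bw : UBD 𝕜 w) (S : Set J) (h : IsKd 𝕜 p (fun j : S => w j)) :
    IsKd 𝕜 p (subFam bw S) := by
  obtain ⟨C, hC, h⟩ := h
  refine ⟨C, hC, fun s a => ?_⟩
  have h2 : ((∑ j ∈ s, a j • H658_UB.subFam bw S j : Zs bw S) : W) = ∑ j ∈ s, a j • w j := by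
    rw [Submodule.coe_sum]
    rfl
  have h3 : ‖∑ j ∈ s, a j • H658_UB.subFam bw S j‖ =
      ‖((∑ j ∈ s, a j • H658_UB.subFam bw S j : Zs bw S) : W)‖ := rfl
  rw [h3, h2]
  exact h s a

/-- the projection onto the closed span of a sub-basis, with values in that span -/
theorem exists_proj_Zs {J : Type} {W : Type*} [NormedAddCommGroup W] [NormedSpace 𝕜 W]
    [CompleteSpace W] {w : J → W} (bw : UBD 𝕜 w) (S : Set J) :
    ∃ T : W →L[𝕜] Zs bw S, ∀ v, ((T v : Zs bw S) : W) = bw.P S v := by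
  refine ⟨(bw.P S).codRestrict (Zs bw S) (fun v => ?_), fun v => rfl⟩
  rw [mem_Zs, bw.P_P, Set.compl_inter_self, bw.P_empty]

/-- maps in and out of the span of a part of the basis of kind `p` -/
theorem exists_in_out {J : Type} {W : Type*} [NormedAddCommGroup W] [NormedSpace 𝕜 W]
    [CompleteSpace W] {w : J → W} (bw : UBD 𝕜 w) (b : UBD 𝕜 e) (he : IsKd 𝕜 p e) (B : Set J)
    (hB : IsKd 𝕜 p (fun j : B => w j)) (σ : B ≃ ℕ) :
    ∃ (i : Y →L[𝕜] W) (q : W →L[𝕜] Y), (∀ n, i (e n) = w (σ.symm n)) ∧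
      (∀ j : B, q (w j) = e (σ j)) ∧ ∀ j, j ∉ B → q (w j) = 0 := by
  obtain ⟨i, hi⟩ := IsKd.exists_map p (w := e) (y := fun n => w (σ.symm n)) b he
    (hB.comp p σ.symm σ.symm.injective)
  obtain ⟨bz⟩ := by
    have := Zs_complete bw B
    exact (isUB_subFam bw B).exists_ubd
  have hcz := Zs_complete bw B
  obtain ⟨q₀, hq₀⟩ := IsKd.exists_map p (w := subFam bw B) (y := fun j => e (σ j)) bz
    (hB.subFam p bw B) (he.comp p σ σ.injective)
  obtain ⟨T, hT⟩ := exists_proj_Zs bw B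
  refine ⟨i, q₀.comp T, hi, fun j => ?_, fun j hj => ?_⟩
  · show q₀ (T (w j)) = e (σ j)
    have h1 : T (w j) = subFam bw B j := by
      apply Subtype.ext
      rw [hT, bw.P_basis_of_mem j.2]
      rfl
    rw [h1, hq₀]
  · show q₀ (T (w j)) = 0
    have h1 : T (w j) = 0 := by
      apply Subtype.ext
      rw [hT, bw.P_basis_of_notMem hj]
      rfl
    rw [h1, map_zero]

include b in
theorem main_case_two (he : IsKd 𝕜 p e) (hX : HasUTAP 𝕜 X)
    (hnf : ¬ ∃ (U : Y →L[𝕜] X) (V : X →L[𝕜] Y), ∀ y, V (U y) = y) : HasUTAP 𝕜 (X × Y) := by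
  classical
  have hX' := hX
  obtain ⟨⟨I, hI, x, hx, hxs⟩, -⟩ := hX'
  apply HasUTAP.of_canonical (hx.sumFam b.isUB) (hxs.sumFam (he.semiNormalized p))
  intro J hJ w hw hws
  obtain ⟨bw⟩ := hw.exists_ubd
  set i : Y →L[𝕜] X × Y := ContinuousLinearMap.inr 𝕜 X Y with hi
  set q : (X × Y) →L[𝕜] Y := ContinuousLinearMap.snd 𝕜 X Y with hq
  set Tp : (X × Y) →L[𝕜] (X × Y) := (ContinuousLinearMap.inl 𝕜 X Y).comp
    (ContinuousLinearMap.fst 𝕜 X Y) with hTp
  -- no factorization through `Tp`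
  have hnT : ∀ (S₁ : Y →L[𝕜] X × Y) (S₂ : (X × Y) →L[𝕜] Y), ¬ ∀ y, S₂ (Tp (S₁ y)) = y := by
    intro S₁ S₂ h
    exact hnf ⟨(ContinuousLinearMap.fst 𝕜 X Y).comp S₁, S₂.comp (ContinuousLinearMap.inl 𝕜 X Y), h⟩
  have hdec : ∀ v : X × Y, Tp v + i (q v) = v := by
    intro v
    apply Prod.ext
    · show v.1 + 0 = v.1
      rw [add_zero]
    · show 0 + v.2 = v.2
      rw [zero_add]
  set B : Set J := {j | 1 / 2 ≤ ‖bw.cf j (i (q (w j)))‖} with hBdef
  have hB : IsKd 𝕜 p (fun j : B => w j) := bpart b bw p he hws i q B (fun j hj => hj)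
  have hA : ∀ j ∈ Bᶜ, 1 / 2 ≤ ‖bw.cf j (Tp (w j))‖ := by
    intro j hj
    have h1 : ‖bw.cf j (i (q (w j)))‖ < 1 / 2 := not_le.mp hj
    have h2 : bw.cf j (Tp (w j)) + bw.cf j (i (q (w j))) = 1 := by
      rw [← map_add, hdec, bw.self]
    have h3 : ‖(1 : 𝕜)‖ ≤ ‖bw.cf j (Tp (w j))‖ + ‖bw.cf j (i (q (w j)))‖ := by
      rw [← h2]; exact norm_add_le _ _
    rw [norm_one] at h3
    linarith
  -- the part of the basis outside `B` contributes an operator with vanishing tails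
  have hTV1 : TV b (q.comp ((bw.P Bᶜ).comp i)) := by
    by_contra hcon
    obtain ⟨S₁, S₂, h⟩ := transfer b p bw he Bᶜ Tp hA i q hcon
    exact hnT S₁ S₂ h
  have hTV2 : ∀ F : Set J, F.Finite → TV b (q.comp ((bw.P F).comp i)) := by
    intro F hF
    have h1 : q.comp ((bw.P F).comp i) =
        ∑ j ∈ hF.toFinset, ((bw.cf j).comp i).smulRight (q (w j)) := by
      ext v
      rw [ContinuousLinearMap.sum_apply]
      have h2 : bw.P F (i v) = ∑ j ∈ hF.toFinset, bw.cf j (i v) • w j := by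
        rw [← bw.P_finset, hF.coe_toFinset]
      show q (bw.P F (i v)) = _
      rw [h2, map_sum]
      apply Finset.sum_congr rfl
      intro j _
      rw [map_smul]
      rfl
    rw [h1]
    exact TV_sum b _ _ fun j _ => TV_of_rank_one b _ _
  -- `B` is infinite
  have hBinf : B.Infinite := by
    intro hBfin
    have h1 := hTV1.add b (hTV2 B hBfin)
    have h2 : q.comp ((bw.P Bᶜ).comp i) + q.comp ((bw.P B).comp i) =
        ContinuousLinearMap.id 𝕜 Y := by
      ext v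
      show q (bw.P Bᶜ (i v)) + q (bw.P B (i v)) = v
      rw [← map_add, add_comm, bw.P_compl]
      rfl
    rw [h2] at h1
    exact not_TV_of_diag b p he _ 1 one_pos (fun n => by simp [b.self]) h1
  have hBinf' : Infinite B := hBinf.to_subtype
  obtain ⟨σ⟩ : Nonempty (B ≃ ℕ) := by
    obtain ⟨_⟩ := nonempty_denumerable B
    exact ⟨Denumerable.eqv B⟩
  obtain ⟨iB, qB, hiB, hqB, hqB0⟩ := exists_in_out p bw b he B hB σ
  -- the compression to `B` has vanishing tails
  have hTV3 : TV b (qB.comp (Tp.comp iB)) := by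
    by_contra hcon
    obtain ⟨S₁, S₂, h⟩ := exists_factor_of_not_TV b p he _ hcon
    exact hnT (iB.comp S₁) (S₂.comp qB) h
  obtain ⟨n, hn⟩ := hTV3 (1 / (‖iB‖ * ‖qB‖ + 1)) (by positivity)
  set S : Set J := {j | ∃ h : j ∈ B, n ≤ σ ⟨j, h⟩} with hSdef
  have hSB : S ⊆ B := fun j hj => hj.1
  have hPS : bw.P S = iB.comp ((b.P (Set.Ici n)).comp qB) := by
    apply ContinuousLinearMap.ext_on bw.dense_span
    rintro _ ⟨j, rfl⟩
    show bw.P S (w j) = iB (b.P (Set.Ici n) (qB (w j)))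
    by_cases hj : j ∈ B
    · have h1 : qB (w j) = e (σ ⟨j, hj⟩) := hqB ⟨j, hj⟩
      rw [h1]
      by_cases hn' : n ≤ σ ⟨j, hj⟩
      · rw [bw.P_basis_of_mem (S := S) ⟨hj, hn'⟩, b.P_basis_of_mem (Set.mem_Ici.mpr hn'), hiB,
          Equiv.symm_apply_apply]
      · have h2 : j ∉ S := fun h => hn' h.2
        rw [bw.P_basis_of_notMem h2, b.P_basis_of_notMem (fun h => hn' (Set.mem_Ici.mp h)),
          map_zero]
    · have h2 : j ∉ S := fun h => hj (hSB h)
      rw [bw.P_basis_of_notMem h2, hqB0 j hj, map_zero, map_zero]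
  have hNn : ‖(bw.P S).comp (Tp.comp (bw.P S))‖ < 1 := by
    have h1 : (bw.P S).comp (Tp.comp (bw.P S)) =
        iB.comp (((b.P (Set.Ici n)).comp ((qB.comp (Tp.comp iB)).comp (b.P (Set.Ici n)))).comp
          qB) := by
      rw [hPS]
      rfl
    rw [h1]
    have h2 : ‖iB‖ * ‖qB‖ * (1 / (‖iB‖ * ‖qB‖ + 1)) < 1 := by
      rw [mul_one_div, div_lt_one (by positivity)]
      linarith
    calc _ ≤ ‖iB‖ * (‖(b.P (Set.Ici n)).comp ((qB.comp (Tp.comp iB)).comp
          (b.P (Set.Ici n)))‖ * ‖qB‖) := by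
          refine (ContinuousLinearMap.opNorm_comp_le _ _).trans ?_
          exact mul_le_mul_of_nonneg_left (ContinuousLinearMap.opNorm_comp_le _ _) (norm_nonneg _)
      _ ≤ ‖iB‖ * ((1 / (‖iB‖ * ‖qB‖ + 1)) * ‖qB‖) := by
          apply mul_le_mul_of_nonneg_left _ (norm_nonneg _)
          exact mul_le_mul_of_nonneg_right hn.le (norm_nonneg _)
      _ = ‖iB‖ * ‖qB‖ * (1 / (‖iB‖ * ‖qB‖ + 1)) := by ring
      _ < 1 := h2
  -- finiteness of `B \ S`
  have hfin : (B \ S).Finite := by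
    have h1 : (B \ S) ⊆ (fun m : ℕ => ((σ.symm m : B) : J)) '' (Set.Iio n) := by
      intro j hj
      refine ⟨σ ⟨j, hj.1⟩, ?_, by simp⟩
      show σ ⟨j, hj.1⟩ < n
      by_contra hcon
      exact hj.2 ⟨hj.1, not_lt.mp hcon⟩
    exact ((Set.finite_Iio n).image _).subset h1
  have hSinf : S.Infinite := by
    intro hS
    apply hBinf
    have : B = (B \ S) ∪ S := (Set.diff_union_of_subset hSB).symm
    rw [this]
    exact hfin.union hS
  -- the complement
  obtain ⟨T₁⟩ := ker_equiv_prod (bw.P S) (fun v => bw.P_idem S v) hNn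
  set C := ((bw.P S).comp (ContinuousLinearMap.inr 𝕜 X Y)).ker with hC
  have hCfin : FiniteDimensional 𝕜 C := by
    have h1 := hTV1.add b (hTV2 (B \ S) hfin)
    refine finiteDimensional_of_TV b p he _ h1 C ?_
    intro c hc
    have h2 : bw.P S (i c) = 0 := hc
    have h3 : bw.P Bᶜ (i c) + bw.P (B \ S) (i c) = i c := by
      rw [← bw.P_union]
      · have h4 : Bᶜ ∪ (B \ S) = Sᶜ := by
          ext j
          simp only [Set.mem_union, Set.mem_compl_iff, Set.mem_sdiff]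
          constructor
          · rintro (h | h)
            · exact fun h' => h (hSB h')
            · exact h.2
          · intro h
            by_cases hj : j ∈ B
            · exact Or.inr ⟨hj, h⟩
            · exact Or.inl hj
        rw [h4]
        have h5 := bw.P_compl S (i c)
        rw [h2, zero_add] at h5
        exact h5
      · rw [Set.disjoint_left]
        intro j hj hj'
        exact hj hj'.1
    show q (bw.P Bᶜ (i c)) + q (bw.P (B \ S) (i c)) = c
    rw [← map_add, h3]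
    rfl
  set d := Module.finrank 𝕜 C with hd
  have T₂ : C ≃L[𝕜] (Fin d → 𝕜) := ContinuousLinearEquiv.ofFinrankEq (by simp [hd])
  -- the basis of the complement
  have hZeq : Zs bw Sᶜ = (bw.P S).ker := by
    unfold Zs
    rw [compl_compl]
  have T₃ : Zs bw Sᶜ ≃L[𝕜] X × (Fin d → 𝕜) := by
    rw [hZeq]
    exact T₁.symm.trans ((ContinuousLinearEquiv.refl 𝕜 X).prodCongr T₂)
  have hXd := hX.prod_fin d
  have h1 : PermEquiv 𝕜 (fun j : (Sᶜ : Set J) => w j) (sumFam x (unitFam 𝕜 d)) := by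
    have h2 := hXd.2 (Sᶜ : Set J) (I ⊕ Fin d) inferInstance inferInstance _
      (sumFam x (unitFam 𝕜 d)) ((isUB_subFam bw Sᶜ).map T₃)
      ((semiNormalized_subFam bw Sᶜ hws).map T₃) (hx.sumFam (unitFam_isUB d))
      (hxs.sumFam ((unitFam_isKd p d).semiNormalized p))
    exact (permEquiv_subFam bw Sᶜ).symm.trans
      ((permEquiv_map T₃ (subFam bw Sᶜ)).symm.trans h2)
  have hS : IsKd 𝕜 p (fun j : S => w j) :=
    hB.comp p (fun j : S => (⟨j, hSB j.2⟩ : B)) (fun a b h => by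
      apply Subtype.ext
      exact congrArg (fun z : B => (z : J)) h)
  have hSinf' : Infinite S := hSinf.to_subtype
  obtain ⟨τ⟩ : Nonempty (S ≃ ℕ) := by
    obtain ⟨_⟩ := nonempty_denumerable S
    exact ⟨Denumerable.eqv S⟩
  have h2 : PermEquiv 𝕜 (fun j : S => w j) e := hS.permEquiv p he τ
  have h3 : PermEquiv 𝕜 w (sumFam e (sumFam x (unitFam 𝕜 d))) := permEquiv_of_split S h2 h1
  have h4 : PermEquiv 𝕜 (sumFam e (sumFam x (unitFam 𝕜 d)))
      (sumFam x (sumFam e (unitFam 𝕜 d))) := permEquiv_left_comm e x (unitFam 𝕜 d)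
  obtain ⟨ρ⟩ : Nonempty ((ℕ ⊕ Fin d) ≃ ℕ) := by
    obtain ⟨_⟩ := nonempty_denumerable (ℕ ⊕ Fin d)
    exact ⟨Denumerable.eqv (ℕ ⊕ Fin d)⟩
  have h5 : PermEquiv 𝕜 (sumFam e (unitFam 𝕜 d)) e :=
    (he.sumFam p (unitFam_isKd p d)).permEquiv p he ρ
  exact h3.trans (h4.trans (PermEquiv.sumFam_congr_right x h5))

include b in
/-- **Main theorem.** -/
theorem main_theorem (he : IsKd 𝕜 p e) (hX : HasUTAP 𝕜 X) : HasUTAP 𝕜 (X × Y) := by
  by_cases h : ∃ (U : Y →L[𝕜] X) (V : X →L[𝕜] Y), ∀ y, V (U y) = y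
  · obtain ⟨U, V, hUV⟩ := h
    obtain ⟨T⟩ := prod_equiv_of_factor p b he U V hUV
    exact hX.map T
  · exact main_case_two b p he hX h

end

end Pool.Agent.H658_UB
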