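import Mathlib
import Pool.Agent.H658_UB.Assemble

set_option autoImplicit false
set_option maxHeartbeats 400000

/-!
If all operators `V ∘ Tp ∘ U` on `Y` are compact then so are the relevant parts of the basis
projections.
-/

namespace Pool.Agent.H658_UB

open Filter Topology

section

variable {𝕜 : Type*} [RCLike 𝕜]
variable {J : Type} {W : Type*} [NormedAddCommGroup W] [NormedSpace 𝕜 W] [CompleteSpace W]
variable {w : J → W} (bw : UBD 𝕜 w)

/-- the set of indices of a finite set in a given set, as a finite set -/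
theorem exists_finset_inter (A : Set J) (s : Finset J) :
    ∃ F : Finset J, (F : Set J) = A ∩ (s : Set J) := by
  classical
  refine ⟨s.filter (fun j => j ∈ A), ?_⟩
  ext j
  simp only [Finset.coe_filter, Set.mem_inter_iff, Finset.mem_coe, Set.mem_ofPred_eq]
  exact and_comm

/-- finite approximation of a projection against a functional -/
theorem exists_approx_one (A : Set J) (η : W →L[𝕜] 𝕜) (y : W) (ε : ℝ)
    (hε : 0 < ε) : ∃ F : Finset J, (F : Set J) ⊆ A ∧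
      ‖η (bw.P A y)‖ - ε ≤ ‖η (bw.P (F : Set J) y)‖ := by
  obtain ⟨s, hs⟩ := exists_finset_approx bw A y (ε / (‖η‖ + 1)) (by positivity)
  obtain ⟨F, hF⟩ := exists_finset_inter A s
  refine ⟨F, by rw [hF]; exact Set.inter_subset_left, ?_⟩
  rw [hF]
  have h1 := hs s (Finset.Subset.refl s)
  have h2 : ‖η (bw.P A y) - η (bw.P (A ∩ (s : Set J)) y)‖ ≤ ε := by
    rw [← map_sub]
    calc _ ≤ ‖η‖ * ‖bw.P A y - bw.P (A ∩ (s : Set J)) y‖ := η.le_opNorm _
      _ ≤ (‖η‖ + 1) * (ε / (‖η‖ + 1)) := by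
          apply mul_le_mul (by linarith) h1.le (norm_nonneg _) (by positivity)
      _ = ε := by field_simp
  have h3 := norm_sub_norm_le (η (bw.P A y)) (η (bw.P (A ∩ (s : Set J)) y))
  linarith

/-- finite approximation of a sandwiched operator -/
theorem exists_sandwich (A : Set J) (R : W →L[𝕜] W) (η : W →L[𝕜] 𝕜) (y : W) (ε : ℝ)
    (hε : 0 < ε) : ∃ F : Finset J, (F : Set J) ⊆ A ∧
      ‖η (bw.P A (R (bw.P A y)))‖ - ε ≤
        ‖η (bw.P (F : Set J) (R (bw.P (F : Set J) y)))‖ := by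
  classical
  have hK : 0 < bw.K := zero_lt_one.trans_le bw.one_le
  obtain ⟨s₁, hs₁⟩ := exists_finset_approx bw A y (ε / (2 * (‖η‖ * (bw.K * ‖R‖) + 1)))
    (by positivity)
  obtain ⟨s₂, hs₂⟩ := exists_finset_approx bw A (R (bw.P A y)) (ε / (2 * (‖η‖ + 1)))
    (by positivity)
  obtain ⟨F, hF⟩ := exists_finset_inter A (s₁ ∪ s₂)
  refine ⟨F, by rw [hF]; exact Set.inter_subset_left, ?_⟩
  have h1 := hs₁ (s₁ ∪ s₂) Finset.subset_union_left
  have h2 := hs₂ (s₁ ∪ s₂) Finset.subset_union_right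
  rw [← hF] at h1 h2
  have e1 : η (bw.P A (R (bw.P A y))) - η (bw.P (F : Set J) (R (bw.P (F : Set J) y))) =
      η (bw.P A (R (bw.P A y)) - bw.P (F : Set J) (R (bw.P A y))) +
      η (bw.P (F : Set J) (R (bw.P A y - bw.P (F : Set J) y))) := by
    simp only [map_sub]
    ring
  have t1 : ‖η (bw.P A (R (bw.P A y)) - bw.P (F : Set J) (R (bw.P A y)))‖ ≤ ε / 2 := by
    calc _ ≤ ‖η‖ * ‖bw.P A (R (bw.P A y)) - bw.P (F : Set J) (R (bw.P A y))‖ := η.le_opNorm _
      _ ≤ (‖η‖ + 1) * (ε / (2 * (‖η‖ + 1))) :=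
          mul_le_mul (by linarith) h2.le (norm_nonneg _) (by positivity)
      _ = ε / 2 := by field_simp
  have t2 : ‖η (bw.P (F : Set J) (R (bw.P A y - bw.P (F : Set J) y)))‖ ≤ ε / 2 := by
    calc _ ≤ ‖η‖ * ‖bw.P (F : Set J) (R (bw.P A y - bw.P (F : Set J) y))‖ := η.le_opNorm _
      _ ≤ ‖η‖ * (bw.K * (‖R‖ * (ε / (2 * (‖η‖ * (bw.K * ‖R‖) + 1))))) := by
          apply mul_le_mul_of_nonneg_left _ (norm_nonneg _)
          refine (bw.norm_P_apply_le _ _).trans (mul_le_mul_of_nonneg_left ?_ hK.le)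
          exact (R.le_opNorm _).trans (mul_le_mul_of_nonneg_left h1.le (norm_nonneg _))
      _ = (‖η‖ * (bw.K * ‖R‖)) * (ε / (2 * (‖η‖ * (bw.K * ‖R‖) + 1))) := by ring
      _ ≤ (‖η‖ * (bw.K * ‖R‖) + 1) * (ε / (2 * (‖η‖ * (bw.K * ‖R‖) + 1))) :=
          mul_le_mul_of_nonneg_right (by linarith) (by positivity)
      _ = ε / 2 := by field_simp
  have h3 := norm_sub_norm_le (η (bw.P A (R (bw.P A y))))
    (η (bw.P (F : Set J) (R (bw.P (F : Set J) y))))
  rw [e1] at h3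
  have h4 := norm_add_le (η (bw.P A (R (bw.P A y)) - bw.P (F : Set J) (R (bw.P A y))))
    (η (bw.P (F : Set J) (R (bw.P A y - bw.P (F : Set J) y))))
  linarith

/-- two averages in a row -/
theorem exists_avg_two (F : Finset J) (S : W →L[𝕜] W) (hS : ∀ j ∈ F, 1 / 2 ≤ ‖bw.cf j (S (w j))‖)
    (R : W →L[𝕜] W) (z : W) (f : W →L[𝕜] 𝕜) :
    ∃ l μ l' μ' : J → 𝕜, (∀ j, ‖l j‖ ≤ 1) ∧ (∀ j, ‖μ j‖ ≤ 1) ∧ (∀ j, ‖l' j‖ ≤ 1) ∧
      (∀ j, ‖μ' j‖ ≤ 1) ∧ (∀ j, j ∉ F → l j = 0) ∧ (∀ j, j ∉ F → μ j = 0) ∧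
      (∀ j, j ∉ F → l' j = 0) ∧ (∀ j, j ∉ F → μ' j = 0) ∧
      (1 / 4) * ‖f (bw.P (F : Set J) (R (bw.P (F : Set J) z)))‖ ≤
        ‖f (bw.M μ (S (bw.M l (R (bw.M μ' (S (bw.M l' z)))))))‖ := by
  obtain ⟨l', μ', h1, h2, h3, h4, h5⟩ := exists_avg bw F S hS z
    (f.comp ((bw.P (F : Set J)).comp R))
  obtain ⟨l, μ, g1, g2, g3, g4, g5⟩ := exists_avg bw F S hS (R (bw.M μ' (S (bw.M l' z)))) f
  refine ⟨l, μ, l', μ', g1, g2, h1, h2, g3, g4, h3, h4, ?_⟩
  have h6 : (1 / 2) * ‖f (bw.P (F : Set J) (R (bw.P (F : Set J) z)))‖ ≤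
      ‖f (bw.P (F : Set J) (R (bw.M μ' (S (bw.M l' z)))))‖ := h5
  linarith

theorem M_P_of_subset {F : Finset J} {B : Set J} (hF : (F : Set J) ⊆ B) (l : J → 𝕜)
    (hl : ∀ j, ‖l j‖ ≤ 1) (hl0 : ∀ j, j ∉ F → l j = 0) (v : W) :
    bw.M l (bw.P B v) = bw.M l v := by
  classical
  apply bw.ext
  intro j
  rw [bw.cf_M l hl, bw.cf_M l hl]
  by_cases hj : j ∈ F
  · rw [bw.cf_P_of_mem (hF (Finset.mem_coe.mpr hj))]
  · rw [hl0 j hj, zero_mul, zero_mul]

theorem P_M_of_subset {F : Finset J} {B : Set J} (hF : (F : Set J) ⊆ B) (l : J → 𝕜)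
    (hl : ∀ j, ‖l j‖ ≤ 1) (hl0 : ∀ j, j ∉ F → l j = 0) (v : W) :
    bw.P B (bw.M l v) = bw.M l v := by
  classical
  apply bw.ext
  intro j
  by_cases hj : j ∈ F
  · rw [bw.cf_P_of_mem (hF (Finset.mem_coe.mpr hj))]
  · rw [bw.cf_P, bw.cf_M l hl, hl0 j hj, zero_mul]
    split_ifs <;> rfl

variable {Y : Type*} [NormedAddCommGroup Y] [NormedSpace 𝕜 Y] [CompleteSpace Y]
variable {I : Type} {e : I → Y} (b : UBD 𝕜 e)

include b in
/-- **Step A.** -/
theorem step_A (Tp : W →L[𝕜] W)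
    (hc : ∀ (U : Y →L[𝕜] W) (V : W →L[𝕜] Y), IsCompactOperator (V.comp (Tp.comp U)))
    (A : Set J) (hA : ∀ j ∈ A, 1 / 2 ≤ ‖bw.cf j (Tp (w j))‖) (i : Y →L[𝕜] W) (q : W →L[𝕜] Y) :
    IsCompactOperator (q.comp ((bw.P A).comp i)) := by
  classical
  by_contra hcon
  have hK : 0 < b.K := zero_lt_one.trans_le b.one_le
  obtain ⟨δ, hδ, hblk⟩ := exists_blocks_of_not_compact b _ hcon
  obtain ⟨U, V, hUV⟩ := exists_assemble bw b Tp i q (δ / 4) b.K (by positivity) (by
    intro G F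
    have hcF : IsCompactOperator (q.comp ((bw.P (A ∩ (F : Set J))).comp i)) := by
      obtain ⟨F₁, hF₁⟩ := exists_finset_inter A F
      rw [← hF₁]
      have h1 := isCompactOperator_P_finset bw F₁
      have h2 : IsCompactOperator ((bw.P (F₁ : Set J)).comp i) := h1.comp_clm i
      exact h2.clm_comp q
    obtain ⟨G₂, hG₂⟩ := exists_tail_of_compact b _ hcF (δ / (4 * (b.K * b.K))) (by positivity)
    obtain ⟨G', z, f, hd, hz, hPz, hf, hPf, hbig⟩ := hblk (G ∪ G₂)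
    have hd1 : Disjoint G' G := hd.mono_right Finset.subset_union_left
    have hd2 : Disjoint G' G₂ := hd.mono_right Finset.subset_union_right
    have hbig' : δ ≤ ‖f (q (bw.P A (i z)))‖ := hbig
    have h1 : bw.P A (i z) = bw.P (A ∩ (F : Set J)) (i z) + bw.P (A \ (F : Set J)) (i z) := by
      rw [← bw.P_union, Set.inter_union_sdiff]
      exact Set.disjoint_sdiff_inter.symm
    have h2 : ‖f (q (bw.P (A ∩ (F : Set J)) (i z)))‖ ≤ δ / 4 := by
      rw [← hPf]
      have h3 := hG₂ (G' : Set I) (by rw [Finset.disjoint_coe]; exact hd2) z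
      have h3' : ‖b.P (G' : Set I) (q (bw.P (A ∩ (F : Set J)) (i z)))‖ ≤
        δ / (4 * (b.K * b.K)) * ‖z‖ := h3
      calc _ ≤ ‖f‖ * ‖b.P (G' : Set I) (q (bw.P (A ∩ (F : Set J)) (i z)))‖ := f.le_opNorm _
        _ ≤ b.K * (δ / (4 * (b.K * b.K)) * b.K) := by
            apply mul_le_mul hf _ (norm_nonneg _) hK.le
            exact h3'.trans (mul_le_mul_of_nonneg_left hz (by positivity))
        _ = δ / 4 := by field_simp
    have h4 : 3 * δ / 4 ≤ ‖f (q (bw.P (A \ (F : Set J)) (i z)))‖ := by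
      rw [h1, map_add, map_add] at hbig'
      have := norm_add_le (f (q (bw.P (A ∩ (F : Set J)) (i z))))
        (f (q (bw.P (A \ (F : Set J)) (i z))))
      linarith
    obtain ⟨F', hF', hF'2⟩ := exists_approx_one bw (A \ (F : Set J)) (f.comp q) (i z) (δ / 4)
      (by positivity)
    have h5 : δ / 2 ≤ ‖(f.comp q) (bw.P (F' : Set J) (i z))‖ := by
      have : ‖(f.comp q) (bw.P (A \ (F : Set J)) (i z))‖ =
        ‖f (q (bw.P (A \ (F : Set J)) (i z)))‖ := rfl
      linarith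
    obtain ⟨l, μ, hl, hμ, hl0, hμ0, hlμ⟩ := exists_avg bw F' Tp
      (fun j hj => hA j (hF' (Finset.mem_coe.mpr hj)).1) (i z) (f.comp q)
    refine ⟨G', F', l, μ, z, f, hd1, ?_, hl, hμ, hl0, hμ0, hz, hf, ?_⟩
    · rw [Finset.disjoint_left]
      intro j hj hj2
      exact (hF' (Finset.mem_coe.mpr hj)).2 (Finset.mem_coe.mpr hj2)
    · rw [hPz, hPf]
      have : ‖(f.comp q) (bw.M μ (Tp (bw.M l (i z))))‖ =
        ‖f (q (bw.M μ (Tp (bw.M l (i z)))))‖ := rfl
      linarith)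
  exact hUV (hc U V)

include b in
/-- **Step B.** -/
theorem step_B (Tp : W →L[𝕜] W)
    (hc : ∀ (U : Y →L[𝕜] W) (V : W →L[𝕜] Y), IsCompactOperator (V.comp (Tp.comp U)))
    (i : Y →L[𝕜] W) (q : W →L[𝕜] Y) (hdec : ∀ v, Tp v + i (q v) = v)
    (B : Set J) (hA : ∀ j ∈ Bᶜ, 1 / 2 ≤ ‖bw.cf j (Tp (w j))‖)
    (hB : ∀ j ∈ B, 1 / 2 ≤ ‖bw.cf j (i (q (w j)))‖) (hidem : ∀ v, Tp (Tp v) = Tp v) :
    IsCompactOperator ((bw.P B).comp (Tp.comp (bw.P B))) := by
  classical
  by_contra hcon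
  have hK : 0 < b.K := zero_lt_one.trans_le b.one_le
  have hKw : 0 < bw.K := zero_lt_one.trans_le bw.one_le
  set T := (bw.P B).comp (Tp.comp (bw.P B)) with hT
  have hTv : ∀ v, T v = bw.P B (Tp (bw.P B v)) := fun v => rfl
  have hRA := step_A bw b Tp hc Bᶜ hA i q
  set K₂ := (bw.P B).comp (i.comp ((q.comp ((bw.P Bᶜ).comp i)).comp (q.comp (bw.P B)))) with hK₂
  have hK₂c : IsCompactOperator K₂ := by
    have h1 : IsCompactOperator ((q.comp ((bw.P Bᶜ).comp i)).comp (q.comp (bw.P B))) :=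
      hRA.comp_clm _
    have h2 : IsCompactOperator (i.comp ((q.comp ((bw.P Bᶜ).comp i)).comp (q.comp (bw.P B)))) :=
      h1.clm_comp i
    exact h2.clm_comp (bw.P B)
  -- `T ∘ T = T - K₂`
  have hTT : ∀ v, T (T v) = T v - K₂ v := by
    intro v
    rw [hTv, hTv]
    show bw.P B (Tp (bw.P B (bw.P B (Tp (bw.P B v))))) = bw.P B (Tp (bw.P B v)) -
      bw.P B (i (q (bw.P Bᶜ (i (q (bw.P B v))))))
    rw [bw.P_idem]
    set u := bw.P B v with hu
    have h1 : bw.P Bᶜ u = 0 := by rw [hu, bw.P_P, Set.compl_inter_self, bw.P_empty]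
    have h2 : bw.P B (Tp u) = Tp u - bw.P Bᶜ (Tp u) := by
      rw [eq_sub_iff_add_eq, bw.P_compl]
    have h3 : bw.P Bᶜ (Tp u) = - bw.P Bᶜ (i (q u)) := by
      rw [eq_neg_iff_add_eq_zero, ← map_add, hdec, h1]
    have h4 : ∀ x, Tp x = x - i (q x) := fun x => by
      rw [eq_sub_iff_add_eq, hdec]
    have h5 : bw.P B (Tp (bw.P B (Tp u))) =
        bw.P B (Tp (Tp u)) - bw.P B (Tp (bw.P Bᶜ (Tp u))) := by
      conv_lhs => rw [h2]
      rw [map_sub, map_sub]
    rw [h5, hidem, h3, map_neg, map_neg, h4 (bw.P Bᶜ (i (q u))), map_sub, bw.P_P,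
      Set.inter_compl_self, bw.P_empty, zero_sub, neg_neg]
  obtain ⟨δ, hδ, hblk⟩ := exists_blocks_of_not_compact bw _ hcon
  -- bounds
  set cy := ‖q‖ * (bw.K * (‖T‖ * bw.K)) with hcy
  set cη := bw.K * (‖T‖ * (bw.K * ‖i‖)) with hcη
  set ct := ‖q‖ * (bw.K * (‖Tp‖ * bw.K)) with hct
  have hcy0 : 0 ≤ cy := by positivity
  have hcη0 : 0 ≤ cη := by positivity
  have hct0 : 0 ≤ ct := by positivity
  obtain ⟨U, V, hUV⟩ := exists_assemble bw b Tp i q (δ / 64) (max cy cη) (by positivity) (by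
    intro G F
    -- `F₁` contains the essential part of the image of `G`
    have hcG : IsCompactOperator (i.comp (b.P (G : Set I))) :=
      (isCompactOperator_P_finset b G).clm_comp i
    set ε₁ := δ / (64 * ((cη * ct * cy + (bw.K * (‖T‖ * bw.K)) * (ct * ‖i‖ * (b.K * cy))) + 1))
      with hε₁
    have hε₁0 : 0 < ε₁ := by positivity
    obtain ⟨F₁, hF₁⟩ := exists_tail_of_compact bw _ hcG ε₁ hε₁0
    set F₂ : Finset J := F ∪ F₁ with hF₂
    set D : Set J := B \ (F₂ : Set J) with hD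
    set N : Set J := B ∩ (F₂ : Set J) with hN
    have hNc : IsCompactOperator (bw.P N) := by
      obtain ⟨F₃, hF₃⟩ := exists_finset_inter B F₂
      rw [hN, ← hF₃]
      exact isCompactOperator_P_finset bw F₃
    have hsplit : ∀ v, bw.P B v = bw.P N v + bw.P D v := by
      intro v
      rw [← bw.P_union, hN, hD, Set.inter_union_sdiff]
      exact Set.disjoint_sdiff_inter.symm
    have hTB : ∀ v, T (bw.P B v) = T v := by
      intro v
      rw [hTv, hTv, bw.P_idem]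
    set X₀ : W →L[𝕜] W := K₂ + K₂.comp T + T.comp ((bw.P D).comp (T.comp ((bw.P N).comp T))) +
      T.comp ((bw.P N).comp (T.comp T)) with hX₀
    have hX₀c : IsCompactOperator X₀ := by
      have h1 : IsCompactOperator (K₂.comp T) := hK₂c.comp_clm T
      have h2 : IsCompactOperator ((bw.P N).comp T) := hNc.comp_clm T
      have h3 : IsCompactOperator (T.comp ((bw.P N).comp T)) := h2.clm_comp T
      have h4 : IsCompactOperator ((bw.P D).comp (T.comp ((bw.P N).comp T))) := h3.clm_comp _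
      have h5 : IsCompactOperator (T.comp ((bw.P D).comp (T.comp ((bw.P N).comp T)))) :=
        h4.clm_comp T
      have h6 : IsCompactOperator ((bw.P N).comp (T.comp T)) := hNc.comp_clm _
      have h7 : IsCompactOperator (T.comp ((bw.P N).comp (T.comp T))) := h6.clm_comp T
      exact ((hK₂c.add h1).add h5).add h7
    have hX₀v : ∀ v, T v = X₀ v + T (bw.P D (T (bw.P D (T v)))) := by
      intro v
      show T v = (K₂ v + K₂ (T v) + T (bw.P D (T (bw.P N (T v)))) + T (bw.P N (T (T v)))) +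
        T (bw.P D (T (bw.P D (T v))))
      have h1 : T (T (T v)) = T v - K₂ v - K₂ (T v) := by rw [hTT, hTT]
      have h2 : T (T (T v)) = T (bw.P N (T (T v))) + T (bw.P D (T (T v))) := by
        rw [← map_add, ← hsplit, hTB]
      have h3 : T (T v) = T (bw.P N (T v)) + T (bw.P D (T v)) := by
        rw [← map_add, ← hsplit, hTB]
      have h4 : T (bw.P D (T (T v))) = T (bw.P D (T (bw.P N (T v)))) +
          T (bw.P D (T (bw.P D (T v)))) := by
        conv_lhs => rw [h3]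
        rw [map_add, map_add]
      have h5 : T v = T (T (T v)) + K₂ v + K₂ (T v) := by
        rw [h1]; abel
      calc T v = T (T (T v)) + K₂ v + K₂ (T v) := h5
        _ = _ := by
          rw [h2, h4]
          abel
    obtain ⟨F₃, hF₃⟩ := exists_tail_of_compact bw X₀ hX₀c (δ / (2 * (bw.K * bw.K)))
      (by positivity)
    obtain ⟨F'', z, f, hd, hz, hPz, hf, hPf, hbig⟩ := hblk F₃
    have h1 : ‖f (X₀ z)‖ ≤ δ / 2 := by
      rw [← hPf]
      calc _ ≤ ‖f‖ * ‖bw.P (F'' : Set J) (X₀ z)‖ := f.le_opNorm _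
        _ ≤ bw.K * (δ / (2 * (bw.K * bw.K)) * bw.K) := by
            apply mul_le_mul hf _ (norm_nonneg _) hKw.le
            refine (hF₃ (F'' : Set J) (by rw [Finset.disjoint_coe]; exact hd) z).trans ?_
            exact mul_le_mul_of_nonneg_left hz (by positivity)
        _ = δ / 2 := by field_simp
    have h2 : δ / 2 ≤ ‖(f.comp T) (bw.P D (T (bw.P D (T z))))‖ := by
      show δ / 2 ≤ ‖f (T (bw.P D (T (bw.P D (T z)))))‖
      rw [hX₀v z, map_add] at hbig
      have := norm_add_le (f (X₀ z)) (f (T (bw.P D (T (bw.P D (T z))))))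
      linarith
    obtain ⟨F', hF'D, hF'2⟩ := exists_sandwich bw D T (f.comp T) (T z) (δ / 4) (by positivity)
    have hF'B : (F' : Set J) ⊆ B := hF'D.trans Set.sdiff_subset
    have hF'F₂ : Disjoint (F' : Set J) (F₂ : Set J) := by
      rw [Set.disjoint_left]
      intro j hj hj2
      exact (hF'D hj).2 hj2
    have hF'F₁ : Disjoint (F' : Set J) (F₁ : Set J) := hF'F₂.mono_right (by
      rw [Finset.coe_subset]; exact Finset.subset_union_right)
    obtain ⟨l, μ, l', μ', hl, hμ, hl', hμ', hl0, hμ0, hl'0, hμ'0, hlμ⟩ :=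
      exists_avg_two bw F' (i.comp q) (fun j hj => hB j (hF'B (Finset.mem_coe.mpr hj))) T (T z)
        (f.comp T)
    have h3 : δ / 16 ≤ ‖(f.comp T) (bw.M μ ((i.comp q) (bw.M l (T (bw.M μ' ((i.comp q)
        (bw.M l' (T z))))))))‖ := by
      linarith
    -- the vector, the functional and the operator on `Y`
    set y : Y := q (bw.M l' (T z)) with hy
    set η : Y →L[𝕜] 𝕜 := (f.comp T).comp ((bw.M μ).comp i) with hη
    set T₀ : Y →L[𝕜] Y := q.comp ((bw.M l).comp (Tp.comp ((bw.M μ').comp i))) with hT₀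
    have hMT : ∀ u, bw.M l (T (bw.M μ' u)) = bw.M l (Tp (bw.M μ' u)) := by
      intro u
      rw [hTv, M_P_of_subset bw hF'B l hl hl0, P_M_of_subset bw hF'B μ' hμ' hμ'0]
    have h4 : δ / 16 ≤ ‖η (T₀ y)‖ := by
      have h5 : η (T₀ y) = (f.comp T) (bw.M μ ((i.comp q) (bw.M l (T (bw.M μ' ((i.comp q)
        (bw.M l' (T z)))))))) := by
        show (f.comp T) (bw.M μ (i (q (bw.M l (Tp (bw.M μ' (i (q (bw.M l' (T z)))))))))) =
          (f.comp T) (bw.M μ (i (q (bw.M l (T (bw.M μ' (i (q (bw.M l' (T z))))))))))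
        rw [hMT]
      rw [h5]
      exact h3
    have hyn : ‖y‖ ≤ cy := by
      rw [hy, hcy]
      refine (q.le_opNorm _).trans (mul_le_mul_of_nonneg_left ?_ (norm_nonneg _))
      refine (bw.norm_M_apply_le l' hl' _).trans (mul_le_mul_of_nonneg_left ?_ hKw.le)
      exact (T.le_opNorm _).trans (mul_le_mul_of_nonneg_left hz (norm_nonneg _))
    have hMμi : ‖(bw.M μ).comp i‖ ≤ bw.K * ‖i‖ :=
      (ContinuousLinearMap.opNorm_comp_le _ _).trans
        (mul_le_mul_of_nonneg_right (bw.norm_M_le μ hμ) (norm_nonneg _))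
    have hfT : ‖f.comp T‖ ≤ bw.K * ‖T‖ :=
      (ContinuousLinearMap.opNorm_comp_le _ _).trans
        (mul_le_mul_of_nonneg_right hf (norm_nonneg _))
    have hηn : ‖η‖ ≤ cη := by
      rw [hη, hcη]
      calc _ ≤ ‖f.comp T‖ * ‖(bw.M μ).comp i‖ := ContinuousLinearMap.opNorm_comp_le _ _
        _ ≤ (bw.K * ‖T‖) * (bw.K * ‖i‖) :=
            mul_le_mul hfT hMμi (norm_nonneg _) (by positivity)
        _ = _ := by ring
    have hT₀' : ∀ u : W, ‖q (bw.M l (Tp (bw.M μ' u)))‖ ≤ ct * ‖u‖ := by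
      intro u
      calc _ ≤ ‖q‖ * ‖bw.M l (Tp (bw.M μ' u))‖ := q.le_opNorm _
        _ ≤ ‖q‖ * (bw.K * (‖Tp‖ * (bw.K * ‖u‖))) := by
            apply mul_le_mul_of_nonneg_left _ (norm_nonneg _)
            refine (bw.norm_M_apply_le l hl _).trans (mul_le_mul_of_nonneg_left ?_ hKw.le)
            refine (Tp.le_opNorm _).trans (mul_le_mul_of_nonneg_left ?_ (norm_nonneg _))
            exact bw.norm_M_apply_le μ' hμ' u
        _ = ct * ‖u‖ := by rw [hct]; ring
    -- the part of the vector in `G`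
    have h5 : ‖η (T₀ (b.P (G : Set I) y))‖ ≤ cη * ct * cy * ε₁ := by
      have h6 : T₀ (b.P (G : Set I) y) =
          q (bw.M l (Tp (bw.M μ' (bw.P (F' : Set J) (i (b.P (G : Set I) y)))))) := by
        rw [M_P_of_subset bw (le_refl (F' : Set J)) μ' hμ' hμ'0]
        rfl
      rw [h6]
      calc _ ≤ ‖η‖ * ‖q (bw.M l (Tp (bw.M μ' (bw.P (F' : Set J) (i (b.P (G : Set I) y))))))‖ :=
            η.le_opNorm _
        _ ≤ cη * (ct * (ε₁ * cy)) := by
            apply mul_le_mul hηn _ (norm_nonneg _) hcη0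
            refine (hT₀' _).trans (mul_le_mul_of_nonneg_left ?_ hct0)
            exact (hF₁ (F' : Set J) hF'F₁ y).trans (mul_le_mul_of_nonneg_left hyn hε₁0.le)
        _ = cη * ct * cy * ε₁ := by ring
    -- the part of the functional in `G`
    have h7 : ∀ u : Y, ‖η (b.P (G : Set I) u)‖ ≤ (bw.K * (‖T‖ * bw.K)) * (ε₁ * ‖u‖) := by
      intro u
      have h6 : η (b.P (G : Set I) u) =
          (f.comp T) (bw.M μ (bw.P (F' : Set J) (i (b.P (G : Set I) u)))) := by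
        rw [M_P_of_subset bw (le_refl (F' : Set J)) μ hμ hμ0]
        rfl
      rw [h6]
      calc _ ≤ ‖f.comp T‖ * ‖bw.M μ (bw.P (F' : Set J) (i (b.P (G : Set I) u)))‖ :=
            (f.comp T).le_opNorm _
        _ ≤ (bw.K * ‖T‖) * (bw.K * (ε₁ * ‖u‖)) := by
            apply mul_le_mul hfT _ (norm_nonneg _) (by positivity)
            refine (bw.norm_M_apply_le μ hμ _).trans (mul_le_mul_of_nonneg_left ?_ hKw.le)
            exact hF₁ (F' : Set J) hF'F₁ u
        _ = _ := by ring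
    have h8 : ‖η (b.P (G : Set I) (T₀ (b.P ((G : Set I)ᶜ) y)))‖ ≤
        (bw.K * (‖T‖ * bw.K)) * (ct * ‖i‖ * (b.K * cy)) * ε₁ := by
      refine (h7 _).trans ?_
      have h9 : ‖T₀ (b.P ((G : Set I)ᶜ) y)‖ ≤ ct * ‖i‖ * (b.K * cy) := by
        calc _ ≤ ct * ‖i (b.P ((G : Set I)ᶜ) y)‖ := hT₀' _
          _ ≤ ct * (‖i‖ * (b.K * cy)) := by
              apply mul_le_mul_of_nonneg_left _ hct0
              refine (i.le_opNorm _).trans (mul_le_mul_of_nonneg_left ?_ (norm_nonneg _))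
              exact (b.norm_P_apply_le _ _).trans (mul_le_mul_of_nonneg_left hyn hK.le)
          _ = _ := by ring
      calc _ ≤ (bw.K * (‖T‖ * bw.K)) * (ε₁ * (ct * ‖i‖ * (b.K * cy))) := by
            apply mul_le_mul_of_nonneg_left _ (by positivity)
            exact mul_le_mul_of_nonneg_left h9 hε₁0.le
        _ = _ := by ring
    have h10 : η (T₀ y) = η (T₀ (b.P (G : Set I) y)) +
        η (b.P (G : Set I) (T₀ (b.P ((G : Set I)ᶜ) y))) +
        η (b.P ((G : Set I)ᶜ) (T₀ (b.P ((G : Set I)ᶜ) y))) := by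
      rw [add_assoc, ← map_add, b.P_compl, ← map_add, ← map_add, b.P_compl]
    have h11 : (cη * ct * cy * ε₁) + (bw.K * (‖T‖ * bw.K)) * (ct * ‖i‖ * (b.K * cy)) * ε₁ ≤
        δ / 64 := by
      set s := cη * ct * cy + (bw.K * (‖T‖ * bw.K)) * (ct * ‖i‖ * (b.K * cy)) with hs
      have hs0 : 0 ≤ s := by positivity
      have h12 : (cη * ct * cy * ε₁) + (bw.K * (‖T‖ * bw.K)) * (ct * ‖i‖ * (b.K * cy)) * ε₁ =
          s * ε₁ := by rw [hs]; ring
      rw [h12, hε₁]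
      calc s * (δ / (64 * (s + 1))) ≤ (s + 1) * (δ / (64 * (s + 1))) :=
            mul_le_mul_of_nonneg_right (by linarith) (by positivity)
        _ = δ / 64 := by field_simp
    have h13 : δ / 32 ≤ ‖η (b.P ((G : Set I)ᶜ) (T₀ (b.P ((G : Set I)ᶜ) y)))‖ := by
      rw [h10] at h4
      have g1 := norm_add_le (η (T₀ (b.P (G : Set I) y)) +
        η (b.P (G : Set I) (T₀ (b.P ((G : Set I)ᶜ) y))))
        (η (b.P ((G : Set I)ᶜ) (T₀ (b.P ((G : Set I)ᶜ) y))))
      have g2 := norm_add_le (η (T₀ (b.P (G : Set I) y)))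
        (η (b.P (G : Set I) (T₀ (b.P ((G : Set I)ᶜ) y))))
      linarith
    obtain ⟨G', hG', hG'2⟩ := exists_sandwich b ((G : Set I)ᶜ) T₀ η y (δ / 64) (by positivity)
    refine ⟨G', F', μ', l, y, η, ?_, ?_, hμ', hl, hμ'0, hl0, hyn.trans (le_max_left _ _),
      hηn.trans (le_max_right _ _), ?_⟩
    · rw [Finset.disjoint_left]
      intro k hk hk2
      exact (hG' (Finset.mem_coe.mpr hk)) (Finset.mem_coe.mpr hk2)
    · rw [Finset.disjoint_left]
      intro j hj hj2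
      exact (Set.disjoint_left.mp hF'F₂) (Finset.mem_coe.mpr hj)
        (Finset.mem_coe.mpr (Finset.mem_union_left _ hj2))
    · show δ / 64 ≤ ‖η (b.P (G' : Set I) (T₀ (b.P (G' : Set I) y)))‖
      linarith)
  exact hUV (hc U V)

end

end Pool.Agent.H658_UB
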