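import Mathlib
import Pool.Agent.H658_UB.StepAB
import Pool.Agent.H658_UB.Main

set_option autoImplicit false
set_option maxHeartbeats 400000

/-!
If `X` and `Y` have unique unconditional bases up to permutation and every operator on `Y` which
factors through `X` is compact, then `X × Y` has a unique unconditional basis up to permutation.
-/

namespace Pool.Agent.H658_UB

open Filter Topology

section

variable {𝕜 : Type*} [RCLike 𝕜]
variable {X Y : Type*} [NormedAddCommGroup X] [NormedSpace 𝕜 X] [CompleteSpace X]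
  [NormedAddCommGroup Y] [NormedSpace 𝕜 Y] [CompleteSpace Y]

/-- if `PS` is a projection of `X ⊕ Y` whose compression of the projection onto `X` has norm less
than one, then `Y` is isomorphic to the direct sum of the range of `PS` and `Y ∩ ker PS` -/
theorem ran_prod_equiv (PS PR : (X × Y) →L[𝕜] (X × Y)) (hPS : ∀ v, PS (PS v) = PS v)
    (hR : ∀ v, PS v + PR v = v)
    (hN : ‖PS.comp (((ContinuousLinearMap.inl 𝕜 X Y).comp
      (ContinuousLinearMap.fst 𝕜 X Y)).comp PS)‖ < 1) :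
    Nonempty ((PR.ker × (PS.comp (ContinuousLinearMap.inr 𝕜 X Y)).ker) ≃L[𝕜] Y) := by
  set Tp : (X × Y) →L[𝕜] (X × Y) := (ContinuousLinearMap.inl 𝕜 X Y).comp
    (ContinuousLinearMap.fst 𝕜 X Y) with hTp
  set N := PS.comp (Tp.comp PS) with hNdef
  obtain ⟨u, hu⟩ : IsUnit (1 - N) := isUnit_one_sub_of_norm_lt_one hN
  set T : (X × Y) →L[𝕜] (X × Y) := (↑(u⁻¹) : (X × Y) →L[𝕜] (X × Y)) with hT
  have hT1 : ∀ v, (1 - N) (T v) = v := by
    intro v
    have h1 : (1 - N) * T = 1 := by rw [← hu]; exact u.mul_inv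
    exact congrArg (fun f : (X × Y) →L[𝕜] (X × Y) => f v) h1
  have hT2 : ∀ v, T ((1 - N) v) = v := by
    intro v
    have h1 : T * (1 - N) = 1 := by rw [← hu]; exact u.inv_mul
    exact congrArg (fun f : (X × Y) →L[𝕜] (X × Y) => f v) h1
  have hcomm1 : ∀ v, PS ((1 - N) v) = (1 - N) (PS v) := by
    intro v
    show PS (v - PS (Tp (PS v))) = PS v - PS (Tp (PS (PS v)))
    rw [map_sub, hPS, hPS]
  have hcomm : ∀ v, PS (T v) = T (PS v) := by
    intro v
    have h1 := hcomm1 (T v)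
    rw [hT1] at h1
    rw [h1, hT2]
  set Q : (X × Y) →L[𝕜] (X × Y) := (ContinuousLinearMap.inr 𝕜 X Y).comp
    (ContinuousLinearMap.snd 𝕜 X Y) with hQ
  have hQTp : ∀ v, Q v = v - Tp v := by
    intro v
    apply Prod.ext
    · show (0 : X) = v.1 - v.1
      rw [sub_self]
    · show v.2 = v.2 - 0
      rw [sub_zero]
  set G : (X × Y) →L[𝕜] (X × Y) := Q.comp (T.comp PS) with hG
  have hPG : ∀ v, PS (G v) = PS v := by
    intro v
    show PS (Q (T (PS v))) = PS v
    rw [hQTp, map_sub]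
    have h1 : PS (Tp (T (PS v))) = N (T (PS v)) := by
      show _ = PS (Tp (PS (T (PS v))))
      rw [hcomm, hPS]
    have h2 : PS (T (PS v)) = T (PS v) := by rw [hcomm, hPS]
    rw [h1, h2]
    exact hT1 (PS v)
  have hGG : ∀ v, G (G v) = G v := by
    intro v
    show Q (T (PS (G v))) = Q (T (PS v))
    rw [hPG]
  have hGP : ∀ v, G (PS v) = G v := by
    intro v
    show Q (T (PS (PS v))) = Q (T (PS v))
    rw [hPS]
  have hker : ∀ v, PS v = 0 → G v = 0 := by
    intro v hv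
    show Q (T (PS v)) = 0
    rw [hv, map_zero, map_zero]
  have hG1 : ∀ v, (G v).1 = 0 := fun v => rfl
  have hG2 : ∀ v, ((0 : X), (G v).2) = G v := fun v => Prod.ext rfl rfl
  have hPSPR : ∀ v, PR v = 0 → PS v = v := by
    intro v hv
    have h := hR v
    rw [hv, add_zero] at h
    exact h
  have hPRPS : ∀ v, PR (PS v) = 0 := by
    intro v
    have h := hR (PS v)
    rw [hPS] at h
    exact add_eq_left.mp h
  let C := (PS.comp (ContinuousLinearMap.inr 𝕜 X Y)).ker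
  let f : (PR.ker × C) →L[𝕜] Y :=
    ((ContinuousLinearMap.snd 𝕜 X Y).comp (G.comp PR.ker.subtypeL)).comp
      (ContinuousLinearMap.fst 𝕜 PR.ker C) +
    C.subtypeL.comp (ContinuousLinearMap.snd 𝕜 PR.ker C)
  have hf : ∀ v : PR.ker × C, f v = (G (v.1 : X × Y)).2 + (v.2 : Y) := fun v => rfl
  have hf' : ∀ v : PR.ker × C, ((0 : X), f v) = G (v.1 : X × Y) + ((0 : X), (v.2 : Y)) := by
    intro v
    rw [hf]
    apply Prod.ext
    · show (0 : X) = (G (v.1 : X × Y)).1 + 0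
      rw [hG1, add_zero]
    · rfl
  let g₁ : Y →L[𝕜] (X × Y) := PS.comp (ContinuousLinearMap.inr 𝕜 X Y)
  let g₂ : Y →L[𝕜] Y := (ContinuousLinearMap.snd 𝕜 X Y).comp
    ((ContinuousLinearMap.id 𝕜 (X × Y) - G).comp (ContinuousLinearMap.inr 𝕜 X Y))
  have hg₂ : ∀ y : Y, g₂ y = (((0 : X), y) - G ((0 : X), y)).2 := fun y => rfl
  have hg₂' : ∀ y : Y, ((0 : X), g₂ y) = ((0 : X), y) - G ((0 : X), y) := by
    intro y
    rw [hg₂]
    apply Prod.ext
    · show (0 : X) = 0 - (G ((0 : X), y)).1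
      rw [hG1, sub_zero]
    · rfl
  have h1 : ∀ y, g₁ y ∈ PR.ker := fun y => hPRPS _
  have h2 : ∀ y, g₂ y ∈ C := by
    intro y
    show PS ((0 : X), g₂ y) = 0
    rw [hg₂', map_sub, hPG, sub_self]
  refine ⟨ContinuousLinearEquiv.equivOfInverse f
    ((g₁.codRestrict _ h1).prod (g₂.codRestrict C h2)) ?_ ?_⟩
  · rintro ⟨h, c⟩
    have hc : PS ((0 : X), (c : Y)) = 0 := c.2
    have hh : PS (h : X × Y) = h := hPSPR _ h.2
    have hfv := hf' (h, c)
    apply Prod.ext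
    · apply Subtype.ext
      show PS ((0 : X), f (h, c)) = h
      rw [hfv, map_add, hPG, hc, add_zero, hh]
    · apply Subtype.ext
      show g₂ (f (h, c)) = c
      rw [hg₂, hfv, map_add, hGG, hker _ hc, add_zero, add_sub_cancel_left]
  · intro y
    show f (⟨g₁ y, h1 y⟩, ⟨g₂ y, h2 y⟩) = y
    have h3 := hf' (⟨g₁ y, h1 y⟩, ⟨g₂ y, h2 y⟩)
    have h4 : G (g₁ y) = G ((0 : X), y) := hGP _
    have h5 : ((0 : X), f (⟨g₁ y, h1 y⟩, ⟨g₂ y, h2 y⟩)) = ((0 : X), y) := by
      rw [h3]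
      show G (g₁ y) + ((0 : X), g₂ y) = ((0 : X), y)
      rw [hg₂', h4, add_sub_cancel]
    exact congrArg Prod.snd h5

/-- **Splitting theorem.** -/
theorem prod_of_compact (hX : HasUTAP 𝕜 X) (hY : HasUTAP 𝕜 Y)
    (hc : ∀ (U : Y →L[𝕜] X) (V : X →L[𝕜] Y), IsCompactOperator (fun y => V (U y))) :
    HasUTAP 𝕜 (X × Y) := by
  classical
  have hX' := hX
  have hY' := hY
  obtain ⟨⟨I, hI, x, hx, hxs⟩, -⟩ := hX'
  obtain ⟨⟨K, hK, y, hy, hys⟩, -⟩ := hY'
  obtain ⟨b⟩ := hy.exists_ubd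
  apply HasUTAP.of_canonical (hx.sumFam hy) (hxs.sumFam hys)
  intro J hJ w hw hws
  obtain ⟨bw⟩ := hw.exists_ubd
  set i : Y →L[𝕜] X × Y := ContinuousLinearMap.inr 𝕜 X Y with hi
  set q : (X × Y) →L[𝕜] Y := ContinuousLinearMap.snd 𝕜 X Y with hq
  set Tp : (X × Y) →L[𝕜] (X × Y) := (ContinuousLinearMap.inl 𝕜 X Y).comp
    (ContinuousLinearMap.fst 𝕜 X Y) with hTp
  have hc' : ∀ (U : Y →L[𝕜] X × Y) (V : (X × Y) →L[𝕜] Y),
      IsCompactOperator (V.comp (Tp.comp U)) := fun U V =>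
    hc ((ContinuousLinearMap.fst 𝕜 X Y).comp U) (V.comp (ContinuousLinearMap.inl 𝕜 X Y))
  have hdec : ∀ v : X × Y, Tp v + i (q v) = v := by
    intro v
    apply Prod.ext
    · show v.1 + 0 = v.1
      rw [add_zero]
    · show 0 + v.2 = v.2
      rw [zero_add]
  have hidem : ∀ v : X × Y, Tp (Tp v) = Tp v := fun v => rfl
  set B : Set J := {j | 1 / 2 ≤ ‖bw.cf j (i (q (w j)))‖} with hBdef
  have hB : ∀ j ∈ B, 1 / 2 ≤ ‖bw.cf j (i (q (w j)))‖ := fun j hj => hj
  have hA : ∀ j ∈ Bᶜ, 1 / 2 ≤ ‖bw.cf j (Tp (w j))‖ := by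
    intro j hj
    have h1 : ‖bw.cf j (i (q (w j)))‖ < 1 / 2 := not_le.mp hj
    have h2 : bw.cf j (Tp (w j)) + bw.cf j (i (q (w j))) = 1 := by
      rw [← map_add, hdec, bw.self]
    have h3 : ‖(1 : 𝕜)‖ ≤ ‖bw.cf j (Tp (w j))‖ + ‖bw.cf j (i (q (w j)))‖ := by
      rw [← h2]; exact norm_add_le _ _
    rw [norm_one] at h3
    linarith
  have hKw : 0 < bw.K := zero_lt_one.trans_le bw.one_le
  have hRA := step_A bw b Tp hc' Bᶜ hA i q
  have hT := step_B bw b Tp hc' i q hdec B hA hB hidem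
  obtain ⟨F, hF⟩ := exists_tail_of_compact bw _ hT (1 / (2 * bw.K)) (by positivity)
  set S : Set J := B \ (F : Set J) with hSdef
  have hSB : S ⊆ B := Set.sdiff_subset
  have hN : ‖(bw.P S).comp (Tp.comp (bw.P S))‖ < 1 := by
    have h1 : ‖(bw.P S).comp (Tp.comp (bw.P S))‖ ≤ 1 / 2 := by
      apply ContinuousLinearMap.opNorm_le_bound _ (by norm_num)
      intro v
      have h2 := hF S (by
        rw [Set.disjoint_left]
        intro j hj hj2
        exact hj.2 hj2) (bw.P S v)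
      have h3 : bw.P S (((bw.P B).comp (Tp.comp (bw.P B))) (bw.P S v)) =
          bw.P S (Tp (bw.P S v)) := by
        show bw.P S (bw.P B (Tp (bw.P B (bw.P S v)))) = _
        rw [bw.P_P, bw.P_P, Set.inter_eq_left.mpr hSB, Set.inter_eq_right.mpr hSB]
      rw [h3] at h2
      show ‖bw.P S (Tp (bw.P S v))‖ ≤ _
      refine h2.trans ?_
      calc 1 / (2 * bw.K) * ‖bw.P S v‖ ≤ 1 / (2 * bw.K) * (bw.K * ‖v‖) :=
            mul_le_mul_of_nonneg_left (bw.norm_P_apply_le _ _) (by positivity)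
        _ = 1 / 2 * ‖v‖ := by field_simp
    linarith
  obtain ⟨T₁⟩ := ker_equiv_prod (bw.P S) (fun v => bw.P_idem S v) hN
  obtain ⟨T₀⟩ := ran_prod_equiv (bw.P S) (bw.P Sᶜ) (fun v => bw.P_idem S v)
    (fun v => bw.P_compl S v) hN
  set C := ((bw.P S).comp (ContinuousLinearMap.inr 𝕜 X Y)).ker with hC
  have hCfin : FiniteDimensional 𝕜 C := by
    have h0 : IsCompactOperator (q.comp ((bw.P (B ∩ (F : Set J))).comp i)) := by
      obtain ⟨F₁, hF₁⟩ := exists_finset_inter B F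
      rw [← hF₁]
      have h1 := isCompactOperator_P_finset bw F₁
      have h2 : IsCompactOperator ((bw.P (F₁ : Set J)).comp i) := h1.comp_clm i
      exact h2.clm_comp q
    have h1 : IsCompactOperator (q.comp ((bw.P Bᶜ).comp i) +
      q.comp ((bw.P (B ∩ (F : Set J))).comp i) : Y →L[𝕜] Y) := hRA.add h0
    refine finiteDimensional_of_compact_fixed _ h1 C
      (ContinuousLinearMap.isClosed_ker ((bw.P S).comp (ContinuousLinearMap.inr 𝕜 X Y))) ?_
    intro c hc
    have h2 : bw.P S (i c) = 0 := hc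
    have h3 : bw.P Bᶜ (i c) + bw.P (B ∩ (F : Set J)) (i c) = i c := by
      rw [← bw.P_union]
      · have h4 : Bᶜ ∪ (B ∩ (F : Set J)) = Sᶜ := by
          ext j
          simp only [Set.mem_union, Set.mem_compl_iff, Set.mem_inter_iff, hSdef, Set.mem_sdiff]
          tauto
        rw [h4]
        have h5 := bw.P_compl S (i c)
        rw [h2, zero_add] at h5
        exact h5
      · rw [Set.disjoint_left]
        intro j hj hj'
        exact hj hj'.1
    show q (bw.P Bᶜ (i c)) + q (bw.P (B ∩ (F : Set J)) (i c)) = c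
    rw [← map_add, h3]
    rfl
  set d := Module.finrank 𝕜 C with hd
  have T₂ : C ≃L[𝕜] (Fin d → 𝕜) := ContinuousLinearEquiv.ofFinrankEq (by simp [hd])
  have hus : SemiNormalized (unitFam 𝕜 d) := (unitFam_isKd Kd.one d).semiNormalized Kd.one
  -- the basis outside `S`
  have hZeq : Zs bw Sᶜ = (bw.P S).ker := by
    unfold Zs
    rw [compl_compl]
  have T₃ : Zs bw Sᶜ ≃L[𝕜] X × (Fin d → 𝕜) := by
    rw [hZeq]
    exact T₁.symm.trans ((ContinuousLinearEquiv.refl 𝕜 X).prodCongr T₂)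
  have hXd := hX.prod_fin d
  have h1 : PermEquiv 𝕜 (fun j : (Sᶜ : Set J) => w j) (sumFam x (unitFam 𝕜 d)) := by
    have h2 := hXd.2 (Sᶜ : Set J) (I ⊕ Fin d) inferInstance inferInstance _
      (sumFam x (unitFam 𝕜 d)) ((isUB_subFam bw Sᶜ).map T₃)
      ((semiNormalized_subFam bw Sᶜ hws).map T₃) (hx.sumFam (unitFam_isUB d)) (hxs.sumFam hus)
    exact (permEquiv_subFam bw Sᶜ).symm.trans
      ((permEquiv_map T₃ (subFam bw Sᶜ)).symm.trans h2)
  -- the basis inside `S`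
  have T₄ : (Zs bw S × (Fin d → 𝕜)) ≃L[𝕜] Y :=
    ((ContinuousLinearEquiv.refl 𝕜 (Zs bw S)).prodCongr T₂.symm).trans T₀
  have hcs := Zs_complete bw S
  have h2 : PermEquiv 𝕜 (sumFam (subFam bw S) (unitFam 𝕜 d)) y := by
    have h3 := hY.2 (S ⊕ Fin d) K inferInstance inferInstance
      (fun s => T₄ (sumFam (subFam bw S) (unitFam 𝕜 d) s)) y
      (((isUB_subFam bw S).sumFam (unitFam_isUB d)).map T₄)
      (((semiNormalized_subFam bw S hws).sumFam hus).map T₄) hy hys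
    exact (permEquiv_map T₄ (sumFam (subFam bw S) (unitFam 𝕜 d))).symm.trans h3
  have h3 : PermEquiv 𝕜 w (sumFam (subFam bw S) (sumFam x (unitFam 𝕜 d))) :=
    permEquiv_of_split S (permEquiv_subFam bw S).symm h1
  have h4 : PermEquiv 𝕜 (sumFam (subFam bw S) (sumFam x (unitFam 𝕜 d)))
      (sumFam x (sumFam (subFam bw S) (unitFam 𝕜 d))) :=
    permEquiv_left_comm (subFam bw S) x (unitFam 𝕜 d)
  exact h3.trans (h4.trans (PermEquiv.sumFam_congr_right x h2))

end

end Pool.Agent.H658_UB
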