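import Mathlib
import Pool.Agent.H658_UB.Main

set_option autoImplicit false
set_option maxHeartbeats 400000

/-!
The unit vectors of `ℓ_1`, `ℓ_2` and `c_0`.
-/

namespace Pool.Agent.H658_UB

open Filter Topology
open scoped ZeroAtInfty ENNReal

section

variable (𝕜 : Type*) [RCLike 𝕜]

/-- the unit vectors of `ℓ_p` -/
noncomputable def lpUnit (p : ℝ≥0∞) : ℕ → lp (fun _ : ℕ => 𝕜) p := fun n => lp.single p n (1 : 𝕜)

theorem smul_lpUnit (p : ℝ≥0∞) (n : ℕ) (a : 𝕜) : a • lpUnit 𝕜 p n = lp.single p n a := by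
  unfold lpUnit
  rw [← lp.single_smul, smul_eq_mul, mul_one]

theorem lpUnit_isUB (p : ℝ≥0∞) [Fact (1 ≤ p)] (hp : p ≠ ⊤) : IsUB 𝕜 (lpUnit 𝕜 p) := by
  intro v
  refine ⟨fun n => v n, ?_, fun a ha => ?_⟩
  · show HasSum (fun n => v n • lpUnit 𝕜 p n) v
    simp only [smul_lpUnit]
    exact lp.hasSum_single hp v
  · have h1 : HasSum (fun n => a n • lpUnit 𝕜 p n) v := ha
    funext k
    have h2 := h1.mapL (lp.evalCLM 𝕜 (fun _ : ℕ => 𝕜) p k)
    have h3 : HasSum (fun n => (lp.evalCLM 𝕜 (fun _ : ℕ => 𝕜) p k) (a n • lpUnit 𝕜 p n)) (a k) := by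
      have := hasSum_ite_eq k (a k)
      refine this.congr_fun ?_
      intro n
      rw [smul_lpUnit]
      show (lp.single p n (a n) : lp (fun _ : ℕ => 𝕜) p) k = _
      by_cases hn : n = k
      · subst hn; simp
      · rw [lp.single_apply_ne _ _ _ (Ne.symm hn), if_neg hn]
    exact h3.unique h2

theorem lpUnit_isKd_one : IsKd 𝕜 Kd.one (lpUnit 𝕜 1) := by
  refine ⟨1, one_pos, fun s a => ?_⟩
  have h1 : ‖∑ j ∈ s, a j • lpUnit 𝕜 1 j‖ = ∑ j ∈ s, ‖a j‖ := by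
    simp only [smul_lpUnit]
    have h := lp.norm_sum_single (E := fun _ : ℕ => 𝕜) (p := 1) (by simp) a s
    simpa using h
  rw [h1]
  simp [NN]

theorem lpUnit_isKd_two : IsKd 𝕜 Kd.two (lpUnit 𝕜 2) := by
  refine ⟨1, one_pos, fun s a => ?_⟩
  have h1 : ‖∑ j ∈ s, a j • lpUnit 𝕜 2 j‖ ^ 2 = ∑ j ∈ s, ‖a j‖ ^ 2 := by
    simp only [smul_lpUnit]
    have h := lp.norm_sum_single (E := fun _ : ℕ => 𝕜) (p := 2) (by simp) a s
    simpa using h
  have h2 : ‖∑ j ∈ s, a j • lpUnit 𝕜 2 j‖ = Real.sqrt (∑ j ∈ s, ‖a j‖ ^ 2) := by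
    rw [← h1, Real.sqrt_sq (norm_nonneg _)]
  rw [h2]
  simp [NN]

/-- the unit vectors of `c_0` -/
noncomputable def c0Unit : ℕ → C₀(ℕ, 𝕜) := fun n =>
  { toFun := fun k => if k = n then 1 else 0
    continuous_toFun := continuous_of_discreteTopology
    zero_at_infty' := by
      rw [cocompact_eq_cofinite]
      apply tendsto_const_nhds.congr'
      have h1 : ∀ᶠ k in cofinite, k ∉ ({n} : Set ℕ) := (Set.finite_singleton n).compl_mem_cofinite
      filter_upwards [h1] with k hk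
      rw [if_neg (by simpa using hk)] }

theorem c0Unit_apply (n k : ℕ) : c0Unit 𝕜 n k = if k = n then 1 else 0 := rfl

/-- evaluation on `c_0` -/
theorem c0_norm_apply_le (f : C₀(ℕ, 𝕜)) (k : ℕ) : ‖f k‖ ≤ ‖f‖ :=
  f.toBCF.norm_coe_le_norm k

theorem c0_norm_le (f : C₀(ℕ, 𝕜)) (C : ℝ) (hC : 0 ≤ C) (h : ∀ k, ‖f k‖ ≤ C) : ‖f‖ ≤ C :=
  (BoundedContinuousFunction.norm_le hC).mpr h

theorem c0_sum_apply (s : Finset ℕ) (a : ℕ → 𝕜) (k : ℕ) :
    (∑ j ∈ s, a j • c0Unit 𝕜 j) k = if k ∈ s then a k else 0 := by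
  classical
  induction s using Finset.induction_on with
  | empty => simp
  | insert i s hi ih =>
    rw [Finset.sum_insert hi, ZeroAtInftyContinuousMap.add_apply, ih,
      ZeroAtInftyContinuousMap.smul_apply, c0Unit_apply]
    by_cases hk : k = i
    · subst hk
      simp [hi]
    · simp [hk]

theorem c0Unit_isUB : IsUB 𝕜 (c0Unit 𝕜) := by
  intro v
  refine ⟨fun n => v n, ?_, fun a ha => ?_⟩
  · show HasSum (fun n => v n • c0Unit 𝕜 n) v
    rw [HasSum, SummationFilter.unconditional_filter, Metric.tendsto_atTop]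
    intro ε hε
    have h1 : ∀ᶠ k in cofinite, dist (v k) 0 < ε / 2 := by
      have h2 := v.zero_at_infty'
      rw [cocompact_eq_cofinite] at h2
      exact (Metric.tendsto_nhds.mp h2) (ε / 2) (by positivity)
    rw [Filter.eventually_cofinite] at h1
    refine ⟨h1.toFinset, fun s hs => ?_⟩
    rw [dist_eq_norm]
    refine lt_of_le_of_lt (c0_norm_le 𝕜 _ (ε / 2) (by positivity) (fun k => ?_)) (by linarith)
    rw [ZeroAtInftyContinuousMap.sub_apply, c0_sum_apply]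
    split_ifs with hk
    · rw [sub_self, norm_zero]; positivity
    · rw [zero_sub, norm_neg]
      by_contra hcon
      apply hk
      apply hs
      rw [Set.Finite.mem_toFinset]
      show ¬ dist (v k) 0 < ε / 2
      rw [dist_zero_right]
      exact fun h => hcon h.le
  · have h1 : HasSum (fun n => a n • c0Unit 𝕜 n) v := ha
    funext k
    let F : C₀(ℕ, 𝕜) →L[𝕜] 𝕜 := LinearMap.mkContinuous
      { toFun := fun f => f k
        map_add' := fun f g => rfl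
        map_smul' := fun c f => rfl } 1 (fun f => by
          rw [one_mul]; exact c0_norm_apply_le 𝕜 f k)
    have h2 := h1.mapL F
    have h3 : HasSum (fun n => F (a n • c0Unit 𝕜 n)) (a k) := by
      have := hasSum_ite_eq k (a k)
      refine this.congr_fun ?_
      intro n
      show (a n • c0Unit 𝕜 n) k = _
      rw [ZeroAtInftyContinuousMap.smul_apply, c0Unit_apply]
      by_cases hn : n = k
      · subst hn; simp
      · simp [hn, Ne.symm hn]
    exact h3.unique h2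

theorem c0Unit_isKd : IsKd 𝕜 Kd.inf (c0Unit 𝕜) := by
  refine ⟨1, one_pos, fun s a => ⟨?_, ?_⟩⟩
  · rw [one_mul]
    have h0 := NN_nonneg Kd.inf s (fun j => ‖a j‖)
    refine c0_norm_le 𝕜 _ _ h0 (fun k => ?_)
    rw [c0_sum_apply]
    split_ifs with hk
    · have := le_NN Kd.inf hk (fun j => ‖a j‖)
      rwa [abs_norm] at this
    · rw [norm_zero]; exact h0
  · rw [one_mul]
    simp only [NN]
    have h0 : 0 ≤ ‖∑ j ∈ s, a j • c0Unit 𝕜 j‖ := norm_nonneg _
    rw [← Real.coe_toNNReal _ h0, NNReal.coe_le_coe]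
    apply Finset.sup_le
    intro j hj
    rw [← NNReal.coe_le_coe, Real.coe_toNNReal _ h0]
    simp only [nnnorm_norm, coe_nnnorm]
    have h1 := c0_norm_apply_le 𝕜 (∑ j ∈ s, a j • c0Unit 𝕜 j) j
    rw [c0_sum_apply, if_pos hj] at h1
    exact h1

variable {𝕜}
variable {X : Type*} [NormedAddCommGroup X] [NormedSpace 𝕜 X] [CompleteSpace X]

theorem prod_l1 (hX : HasUTAP 𝕜 X) : HasUTAP 𝕜 (X × lp (fun _ : ℕ => 𝕜) 1) := by
  obtain ⟨b⟩ := (lpUnit_isUB 𝕜 1 (by simp)).exists_ubd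
  exact main_theorem b Kd.one (lpUnit_isKd_one 𝕜) hX

theorem prod_l2 (hX : HasUTAP 𝕜 X) : HasUTAP 𝕜 (X × lp (fun _ : ℕ => 𝕜) 2) := by
  obtain ⟨b⟩ := (lpUnit_isUB 𝕜 2 (by simp)).exists_ubd
  exact main_theorem b Kd.two (lpUnit_isKd_two 𝕜) hX

theorem prod_c0 (hX : HasUTAP 𝕜 X) : HasUTAP 𝕜 (X × C₀(ℕ, 𝕜)) := by
  obtain ⟨b⟩ := (c0Unit_isUB 𝕜).exists_ubd
  exact main_theorem b Kd.inf (c0Unit_isKd 𝕜) hX

end

end Pool.Agent.H658_UB
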